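import Pool.Agent.helper31.BernH

set_option autoImplicit false

/-!
# Convergence of the approximating densities, absolutely continuous case
-/

namespace Pool.Agent.helper31.Bernoulli

open MeasureTheory Measure Filter Topology Metric
open scoped ENNReal FourierTransform SchwartzMap

lemma bb_deriv_contDiff : ContDiff ℝ (⊤ : ℕ∞) (deriv bb) :=
  ((contDiff_succ_iff_deriv (n := (⊤ : ℕ∞))).1 bb_contDiff).2.2

lemma bb_deriv2_contDiff : ContDiff ℝ (⊤ : ℕ∞) (deriv (deriv bb)) :=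
  ((contDiff_succ_iff_deriv (n := (⊤ : ℕ∞))).1 bb_deriv_contDiff).2.2

lemma conv_schwartz {β : ℝ} (hβ : 1 < β) (hβ2 : β < 2) (hac : nu β ≪ volume) {x : ℝ}
    (hx : Good (dens β) x) (Φ : 𝓢(ℝ, ℂ)) :
    Tendsto (fun n : ℕ => (P β)^[n] (chk Φ) x) atTop (𝓝 (dens β x • Φ 0)) := by
  set Φ1 : 𝓢(ℝ, ℂ) := SchwartzMap.derivCLM ℂ ℂ Φ with hΦ1
  set Φ2 : 𝓢(ℝ, ℂ) := SchwartzMap.derivCLM ℂ ℂ Φ1 with hΦ2
  have i0 : Integrable Φ := Φ.integrable
  have i1 : Integrable Φ1 := Φ1.integrable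
  have i2 : Integrable Φ2 := Φ2.integrable
  have D0 : ∀ s, HasDerivAt Φ (Φ1 s) s := fun s => by
    have := (Φ.differentiable s).hasDerivAt
    simpa [hΦ1] using this
  have D1 : ∀ s, HasDerivAt Φ1 (Φ2 s) s := fun s => by
    have := (Φ1.differentiable s).hasDerivAt
    simpa [hΦ2] using this
  have E0 : ∀ s, HasDerivAt bb (deriv bb s) s := fun s =>
    (bb_contDiff.differentiable (by simp) s).hasDerivAt
  have E1 : ∀ s, HasDerivAt (deriv bb) (deriv (deriv bb) s) s := fun s =>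
    (bb_deriv_contDiff.differentiable (by simp) s).hasDerivAt
  obtain ⟨B1, hB1⟩ := bb_deriv_contDiff.continuous.bounded_above_of_compact_support
    bb_compact.deriv
  obtain ⟨B2, hB2⟩ := bb_deriv2_contDiff.continuous.bounded_above_of_compact_support
    bb_compact.deriv.deriv
  have B1n : 0 ≤ B1 := (norm_nonneg _).trans (hB1 0)
  have B2n : 0 ≤ B2 := (norm_nonneg _).trans (hB2 0)
  set Ψ : ℝ → ℝ → ℂ := fun r ξ => Φ ξ * (1 - bb (r * ξ)) with hΨ
  set Ψ₁ : ℝ → ℝ → ℂ := fun r ξ => Φ1 ξ * (1 - bb (r * ξ)) - (r : ℂ) * (Φ ξ * deriv bb (r * ξ))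
    with hΨ₁
  set Ψ₂ : ℝ → ℝ → ℂ := fun r ξ => Φ2 ξ * (1 - bb (r * ξ)) -
    2 * (r : ℂ) * (Φ1 ξ * deriv bb (r * ξ)) - (r : ℂ) ^ 2 * (Φ ξ * deriv (deriv bb) (r * ξ))
    with hΨ₂
  have haff : ∀ r s : ℝ, HasDerivAt (fun s => r * s) r s := by
    intro r s
    have := (hasDerivAt_id s).const_mul r
    simpa using this
  have e0 : ∀ r s : ℝ, HasDerivAt (fun s => bb (r * s)) ((r : ℂ) * deriv bb (r * s)) s := by
    intro r s
    have := (E0 (r * s)).scomp s (haff r s)
    simp only [Complex.real_smul] at this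
    exact this
  have e1 : ∀ r s : ℝ, HasDerivAt (fun s => deriv bb (r * s))
      ((r : ℂ) * deriv (deriv bb) (r * s)) s := by
    intro r s
    have := (E1 (r * s)).scomp s (haff r s)
    simp only [Complex.real_smul] at this
    exact this
  have d0 : ∀ r s : ℝ, HasDerivAt (Ψ r) (Ψ₁ r s) s := by
    intro r s
    have h := (D0 s).mul ((e0 r s).const_sub 1)
    refine h.congr_deriv ?_
    simp only [hΨ₁]; ring
  have d1 : ∀ r s : ℝ, HasDerivAt (Ψ₁ r) (Ψ₂ r s) s := by
    intro r s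
    have h := ((D1 s).mul ((e0 r s).const_sub 1)).sub
      (((D0 s).mul (e1 r s)).const_mul (r : ℂ))
    refine h.congr_deriv ?_
    simp only [hΨ₂]; ring
  have c0 : ∀ r, Continuous fun ξ : ℝ => bb (r * ξ) := fun r =>
    bb_contDiff.continuous.comp (by fun_prop)
  have c1 : ∀ r, Continuous fun ξ : ℝ => deriv bb (r * ξ) := fun r =>
    bb_deriv_contDiff.continuous.comp (by fun_prop)
  have c2 : ∀ r, Continuous fun ξ : ℝ => deriv (deriv bb) (r * ξ) := fun r =>
    bb_deriv2_contDiff.continuous.comp (by fun_prop)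
  have m0 : ∀ r, Continuous (Ψ r) := fun r => Φ.continuous.mul (continuous_const.sub (c0 r))
  have m1 : ∀ r, Continuous (Ψ₁ r) := fun r =>
    (Φ1.continuous.mul (continuous_const.sub (c0 r))).sub
      (continuous_const.mul (Φ.continuous.mul (c1 r)))
  have m2 : ∀ r, Continuous (Ψ₂ r) := fun r =>
    ((Φ2.continuous.mul (continuous_const.sub (c0 r))).sub
      (continuous_const.mul (Φ1.continuous.mul (c1 r)))).sub
      (continuous_const.mul (Φ.continuous.mul (c2 r)))
  have u0 : ∀ r ξ : ℝ, ‖1 - bb (r * ξ)‖ ≤ 2 := fun r ξ => by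
    refine (norm_sub_le _ _).trans ?_
    rw [norm_one]
    linarith [norm_bb_le (r * ξ)]
  have p0 : ∀ r ξ : ℝ, ‖Ψ r ξ‖ ≤ 2 * ‖Φ ξ‖ := fun r ξ => by
    simp only [hΨ]
    rw [norm_mul, mul_comm]
    exact mul_le_mul_of_nonneg_right (u0 r ξ) (norm_nonneg _)
  have p1 : ∀ r ξ : ℝ, ‖Ψ₁ r ξ‖ ≤ 2 * ‖Φ1 ξ‖ + |r| * (B1 * ‖Φ ξ‖) := fun r ξ => by
    simp only [hΨ₁]
    refine (norm_sub_le _ _).trans (add_le_add ?_ ?_)
    · rw [norm_mul, mul_comm]
      exact mul_le_mul_of_nonneg_right (u0 r ξ) (norm_nonneg _)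
    · rw [norm_mul, norm_mul, Complex.norm_real, Real.norm_eq_abs]
      refine mul_le_mul_of_nonneg_left ?_ (abs_nonneg _)
      rw [mul_comm]
      exact mul_le_mul_of_nonneg_right (hB1 _) (norm_nonneg _)
  have p2 : ∀ r ξ : ℝ, ‖Ψ₂ r ξ‖ ≤ 2 * ‖Φ2 ξ‖ + 2 * |r| * (B1 * ‖Φ1 ξ‖) +
      |r| ^ 2 * (B2 * ‖Φ ξ‖) := fun r ξ => by
    simp only [hΨ₂]
    refine (norm_sub_le _ _).trans (add_le_add ((norm_sub_le _ _).trans (add_le_add ?_ ?_)) ?_)
    · rw [norm_mul, mul_comm]
      exact mul_le_mul_of_nonneg_right (u0 r ξ) (norm_nonneg _)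
    · rw [norm_mul, norm_mul, norm_mul, Complex.norm_real, Real.norm_eq_abs, Complex.norm_ofNat]
      refine mul_le_mul_of_nonneg_left ?_ (by positivity)
      rw [mul_comm]
      exact mul_le_mul_of_nonneg_right (hB1 _) (norm_nonneg _)
    · rw [norm_mul, norm_mul, norm_pow, Complex.norm_real, Real.norm_eq_abs]
      refine mul_le_mul_of_nonneg_left ?_ (by positivity)
      rw [mul_comm]
      exact mul_le_mul_of_nonneg_right (hB2 _) (norm_nonneg _)
  have j0 : ∀ r, Integrable (Ψ r) := fun r =>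
    (i0.norm.const_mul 2).mono' (m0 r).aestronglyMeasurable (Eventually.of_forall (p0 r))
  have j1 : ∀ r, Integrable (Ψ₁ r) := fun r => by
    have h : Integrable (fun ξ => 2 * ‖Φ1 ξ‖ + |r| * (B1 * ‖Φ ξ‖)) :=
      (i1.norm.const_mul 2).add ((i0.norm.const_mul B1).const_mul |r|)
    exact h.mono' (m1 r).aestronglyMeasurable (Eventually.of_forall (p1 r))
  have k2 : ∀ r : ℝ, Integrable (fun ξ => 2 * ‖Φ2 ξ‖ + 2 * |r| * (B1 * ‖Φ1 ξ‖) +
      |r| ^ 2 * (B2 * ‖Φ ξ‖)) := fun r =>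
    ((i2.norm.const_mul 2).add ((i1.norm.const_mul B1).const_mul (2 * |r|))).add
      ((i0.norm.const_mul B2).const_mul (|r| ^ 2))
  have j2 : ∀ r, Integrable (Ψ₂ r) := fun r =>
    (k2 r).mono' (m2 r).aestronglyMeasurable (Eventually.of_forall (p2 r))
  -- pointwise limits
  have l0 : ∀ ξ : ℝ, ∀ᶠ r in 𝓝[>] (0 : ℝ), bb (r * ξ) = 1 := by
    intro ξ
    have hc : Continuous fun r : ℝ => |r * ξ| := by fun_prop
    have h1 := (hc.tendsto 0).mono_left (nhdsWithin_le_nhds (s := Set.Ioi 0))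
    simp only [zero_mul, abs_zero] at h1
    filter_upwards [h1.eventually (gt_mem_nhds one_pos)] with r hr using bb_eq_one hr.le
  have t0 : Tendsto (fun r : ℝ => (r : ℂ)) (𝓝[>] (0 : ℝ)) (𝓝 0) := by
    have h1 := (Complex.continuous_ofReal.tendsto 0).mono_left
      (nhdsWithin_le_nhds (s := Set.Ioi (0 : ℝ)))
    simpa using h1
  have q0 : ∀ ξ : ℝ, Tendsto (fun r => ‖Ψ r ξ‖) (𝓝[>] (0 : ℝ)) (𝓝 0) := by
    intro ξ
    refine tendsto_const_nhds.congr' ?_
    filter_upwards [l0 ξ] with r hr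
    simp [hΨ, hr]
  have tb1 : ∀ ξ : ℝ, Tendsto (fun r : ℝ => deriv bb (r * ξ)) (𝓝[>] (0 : ℝ))
      (𝓝 (deriv bb (0 * ξ))) := fun ξ => by
    have hc : Continuous fun r : ℝ => deriv bb (r * ξ) :=
      bb_deriv_contDiff.continuous.comp (by fun_prop)
    exact (hc.tendsto 0).mono_left nhdsWithin_le_nhds
  have tb2 : ∀ ξ : ℝ, Tendsto (fun r : ℝ => deriv (deriv bb) (r * ξ)) (𝓝[>] (0 : ℝ))
      (𝓝 (deriv (deriv bb) (0 * ξ))) := fun ξ => by
    have hc : Continuous fun r : ℝ => deriv (deriv bb) (r * ξ) :=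
      bb_deriv2_contDiff.continuous.comp (by fun_prop)
    exact (hc.tendsto 0).mono_left nhdsWithin_le_nhds
  have q2 : ∀ ξ : ℝ, Tendsto (fun r => ‖Ψ₂ r ξ‖) (𝓝[>] (0 : ℝ)) (𝓝 0) := by
    intro ξ
    have h1 : Tendsto (fun r => Ψ₂ r ξ) (𝓝[>] (0 : ℝ)) (𝓝 0) := by
      have a1 : Tendsto (fun r => Φ2 ξ * (1 - bb (r * ξ))) (𝓝[>] (0 : ℝ)) (𝓝 0) := by
        refine tendsto_const_nhds.congr' ?_
        filter_upwards [l0 ξ] with r hr
        simp [hr]
      have a2 := (t0.const_mul 2).mul ((tb1 ξ).const_mul (Φ1 ξ))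
      have a3 := (t0.pow 2).mul ((tb2 ξ).const_mul (Φ ξ))
      have a4 := (a1.sub a2).sub a3
      simp only [mul_zero, zero_mul, sub_zero, ne_eq, OfNat.ofNat_ne_zero, not_false_eq_true,
        zero_pow] at a4
      exact a4
    have := h1.norm
    rwa [norm_zero] at this
  have T0 : Tendsto (fun r => ∫ ξ, ‖Ψ r ξ‖) (𝓝[>] (0 : ℝ)) (𝓝 0) := by
    have h := tendsto_integral_filter_of_dominated_convergence (μ := volume)
      (l := 𝓝[>] (0 : ℝ)) (F := fun r ξ => ‖Ψ r ξ‖) (f := fun _ => (0 : ℝ))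
      (fun ξ => 2 * ‖Φ ξ‖) (Eventually.of_forall fun r => (m0 r).norm.aestronglyMeasurable)
      (Eventually.of_forall fun r => Eventually.of_forall fun ξ => by
        rw [norm_norm]; exact p0 r ξ) (i0.norm.const_mul 2) (Eventually.of_forall q0)
    simpa using h
  have T2 : Tendsto (fun r => ∫ ξ, ‖Ψ₂ r ξ‖) (𝓝[>] (0 : ℝ)) (𝓝 0) := by
    have hle : ∀ᶠ r in 𝓝[>] (0 : ℝ), r ≤ 1 :=
      ((gt_mem_nhds one_pos).mono fun r hr => le_of_lt hr).filter_mono nhdsWithin_le_nhds
    have h := tendsto_integral_filter_of_dominated_convergence (μ := volume)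
      (l := 𝓝[>] (0 : ℝ)) (F := fun r ξ => ‖Ψ₂ r ξ‖) (f := fun _ => (0 : ℝ))
      (fun ξ => 2 * ‖Φ2 ξ‖ + 2 * |(1 : ℝ)| * (B1 * ‖Φ1 ξ‖) + |(1 : ℝ)| ^ 2 * (B2 * ‖Φ ξ‖))
      (Eventually.of_forall fun r => (m2 r).norm.aestronglyMeasurable)
      (by
        filter_upwards [hle, self_mem_nhdsWithin] with r hr hr0
        refine Eventually.of_forall fun ξ => ?_
        have hr0' : (0 : ℝ) < r := hr0
        rw [norm_norm]
        refine (p2 r ξ).trans ?_
        rw [abs_of_pos hr0', abs_one]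
        gcongr)
      (k2 1) (Eventually.of_forall q2)
    simpa using h
  obtain ⟨M, hM0, hM⟩ := exists_bound hac hx
  set K := cst β * M with hK
  have hK0 : 0 ≤ K := mul_nonneg (cst_pos β).le hM0
  refine tendsto_of_approx fun ε hε => ?_
  have hT := (T0.add T2).mul_const K
  rw [add_zero, zero_mul] at hT
  obtain ⟨r, hr, hr0⟩ := ((hT.eventually (gt_mem_nhds hε)).and self_mem_nhdsWithin).exists
  have hr0' : (0 : ℝ) < r := hr0
  have sr : HasCompactSupport (fun ξ : ℝ => Φ ξ * bb (r * ξ)) := by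
    have h1 : HasCompactSupport (fun ξ : ℝ => bb (r * ξ)) := by
      have e : (fun ξ : ℝ => bb (r * ξ)) = bb ∘ (Homeomorph.mulLeft₀ r hr0'.ne') := by
        ext ξ; simp
      rw [e]
      exact bb_compact.comp_homeomorph _
    exact h1.mul_left
  have cr : ContDiff ℝ (⊤ : ℕ∞) (fun ξ : ℝ => Φ ξ * bb (r * ξ)) :=
    (Φ.smooth ⊤).mul (bb_contDiff.comp (contDiff_const.mul contDiff_id))
  refine ⟨chk (fun ξ : ℝ => Φ ξ * bb (r * ξ)), ?_, ?_⟩
  · have h := conv_cc' hβ hβ2 hac hx cr sr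
    have hb : bb (r * 0) = 1 := bb_eq_one (by simp)
    simp only [hb, mul_one] at h
    exact h
  · refine Eventually.of_forall fun n => ?_
    have h1 : chk Φ - chk (fun ξ : ℝ => Φ ξ * bb (r * ξ)) = chk (Ψ r) := by
      rw [← chk_sub i0 (cr.continuous.integrable_of_hasCompactSupport sr)]
      congr 1; ext ξ; simp only [Pi.sub_apply, hΨ]; ring
    rw [← Pi.sub_apply, ← Pit_sub, h1]
    have h2 := Pit_chk_le hβ hM (ψ := chk (Ψ r)) (N := (∫ ξ, ‖Ψ r ξ‖) + ∫ ξ, ‖Ψ₂ r ξ‖)
      (add_nonneg (integral_nonneg fun _ => norm_nonneg _)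
        (integral_nonneg fun _ => norm_nonneg _)) one_pos le_rfl
      (chk_le_w (d0 r) (d1 r) (j0 r) (j1 r) (j2 r)) n
    exact h2.trans hr.le

lemma Pit_ofReal (β : ℝ) (n : ℕ) (g : ℝ → ℝ) (x : ℝ) :
    (P β)^[n] (fun y => (g y : ℂ)) x = (((P β)^[n] g x : ℝ) : ℂ) := by
  induction n generalizing g with
  | zero => rfl
  | succ n ih =>
    have e : P β (fun y => (g y : ℂ)) = fun y => ((P β g y : ℝ) : ℂ) := by
      ext y
      simp only [P_apply, smul_eq_mul, Complex.real_smul]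
      push_cast; ring
    simp only [Function.iterate_succ_apply]
    rw [e, ih]

lemma conv_real {β : ℝ} (hβ : 1 < β) (hβ2 : β < 2) (hac : nu β ≪ volume) {x : ℝ}
    (hx : Good (dens β) x) {g : ℝ → ℝ} (hg : ContDiff ℝ (⊤ : ℕ∞) g) (hc : HasCompactSupport g) :
    Tendsto (fun n : ℕ => (P β)^[n] g x) atTop (𝓝 (dens β x * ∫ y, g y)) := by
  have hgC : ContDiff ℝ (⊤ : ℕ∞) (fun y => (g y : ℂ)) := Complex.ofRealCLM.contDiff.comp hg
  have hcC : HasCompactSupport (fun y => (g y : ℂ)) :=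
    hc.comp_left (g := fun r : ℝ => (r : ℂ)) (by simp)
  set G : 𝓢(ℝ, ℂ) := hcC.toSchwartzMap hgC with hG
  have hGc : (G : ℝ → ℂ) = fun y => (g y : ℂ) := rfl
  set Φ : 𝓢(ℝ, ℂ) := 𝓕 G with hΦ
  have h := conv_schwartz hβ hβ2 hac hx Φ
  have e1 : chk Φ = fun y => (g y : ℂ) := by
    rw [chk_eq_fourierInv, ← SchwartzMap.fourierInv_coe, hΦ,
      FourierTransform.fourierInv_fourier_eq]
    exact hGc
  have e2 : Φ 0 = ((∫ y, g y : ℝ) : ℂ) := by
    rw [hΦ, SchwartzMap.fourier_coe, Real.fourier_real_eq, hGc, ← integral_complex_ofReal]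
    simp
  rw [e1, e2] at h
  simp_rw [Pit_ofReal] at h
  have h2 := (Complex.continuous_re.tendsto _).comp h
  refine (h2.congr fun n => ?_).trans (le_of_eq ?_)
  · simp
  · simp [Complex.real_smul]

/-- Bump functions squeeze the indicator of `I_β`. -/
theorem tendsto_f {β : ℝ} (hβ : 1 < β) (hβ2 : β < 2) (hac : nu β ≪ volume) {x : ℝ}
    (hx : Good (dens β) x) : Tendsto (fun n => f β n x) atTop (𝓝 (dens β x)) := by
  have hβ0 : 0 < β := by linarith
  have hb : 0 < β - 1 := by linarith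
  set c : ℝ := 1 / (2 * (β - 1)) with hc
  have hc0 : 0 < c := by positivity
  have hc1 : (β - 1) * (2 * c) = 1 := by rw [hc]; field_simp
  have hI : I β = closedBall c c := by
    rw [Real.closedBall_eq_Icc, I]
    congr 1
    · ring
    · rw [hc]; field_simp; norm_num
  have hf0 : f β 0 = (I β).indicator fun _ => β - 1 := rfl
  have hd := dens_nonneg β x
  rw [Metric.tendsto_nhds]
  intro ε hε
  -- choose η
  obtain ⟨η, hη0, hη1, hη2⟩ : ∃ η, 0 < η ∧ η < c ∧ dens β x * (2 * η * (β - 1)) < ε := by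
    have hcont : Continuous fun η : ℝ => dens β x * (2 * η * (β - 1)) := by fun_prop
    have h1 := (hcont.tendsto 0).mono_left (nhdsWithin_le_nhds (s := Set.Ioi 0))
    have h0 : dens β x * (2 * 0 * (β - 1)) < ε := by simpa using hε
    have h2 := h1.eventually (gt_mem_nhds h0)
    have h3 : ∀ᶠ η in 𝓝[>] (0 : ℝ), η < c := (gt_mem_nhds hc0).filter_mono nhdsWithin_le_nhds
    obtain ⟨η, ⟨h4, h5⟩, h6⟩ := ((h2.and h3).and self_mem_nhdsWithin).exists
    exact ⟨η, h6, h5, h4⟩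
  -- upper bump
  let gu : ContDiffBump c := ⟨c, c + η, hc0, by linarith⟩
  let gl : ContDiffBump c := ⟨c - η, c, by linarith, by linarith⟩
  have cu := conv_real hβ hβ2 hac hx (g := fun y => gu y) gu.contDiff gu.hasCompactSupport
  have cl := conv_real hβ hβ2 hac hx (g := fun y => gl y) gl.contDiff gl.hasCompactSupport
  -- pointwise comparison
  have lu : ∀ y, f β 0 y ≤ ((β - 1) • fun y => gu y) y := by
    intro y
    simp only [Pi.smul_apply, smul_eq_mul]
    rw [hf0]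
    by_cases hy : y ∈ I β
    · rw [Set.indicator_of_mem hy, gu.one_of_mem_closedBall (by rw [← hI]; exact hy), mul_one]
    · rw [Set.indicator_of_notMem hy]
      exact mul_nonneg hb.le gu.nonneg
  have ll : ∀ y, ((β - 1) • fun y => gl y) y ≤ f β 0 y := by
    intro y
    simp only [Pi.smul_apply, smul_eq_mul]
    rw [hf0]
    by_cases hy : y ∈ I β
    · rw [Set.indicator_of_mem hy]
      have := gl.le_one (x := y)
      nlinarith
    · rw [Set.indicator_of_notMem hy, gl.zero_of_le_dist, mul_zero]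
      rw [hI, mem_closedBall, not_le] at hy
      exact hy.le
  -- integrals
  have Iu : ∫ y, gu y ≤ 2 * (c + η) := by
    have h1 : ∀ y, gu y ≤ (closedBall c (c + η)).indicator (fun _ => (1 : ℝ)) y := by
      intro y
      by_cases hy : y ∈ closedBall c (c + η)
      · rw [Set.indicator_of_mem hy]; exact gu.le_one
      · rw [Set.indicator_of_notMem hy, gu.zero_of_le_dist]
        rw [mem_closedBall, not_le] at hy
        exact hy.le
    have h2 : Integrable ((closedBall c (c + η)).indicator (fun _ => (1 : ℝ))) :=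
      (integrable_indicator_iff measurableSet_closedBall).2
        (integrableOn_const (by rw [Real.volume_closedBall]; exact ENNReal.ofReal_ne_top))
    refine (integral_mono gu.integrable h2 h1).trans (le_of_eq ?_)
    rw [integral_indicator measurableSet_closedBall, setIntegral_const, Measure.real,
      Real.volume_closedBall, ENNReal.toReal_ofReal (by positivity), smul_eq_mul, mul_one]
  have Il : 2 * (c - η) ≤ ∫ y, gl y := by
    have h1 : ∀ y, (closedBall c (c - η)).indicator (fun _ => (1 : ℝ)) y ≤ gl y := by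
      intro y
      by_cases hy : y ∈ closedBall c (c - η)
      · rw [Set.indicator_of_mem hy, gl.one_of_mem_closedBall hy]
      · rw [Set.indicator_of_notMem hy]; exact gl.nonneg
    have h2 : Integrable ((closedBall c (c - η)).indicator (fun _ => (1 : ℝ))) :=
      (integrable_indicator_iff measurableSet_closedBall).2
        (integrableOn_const (by rw [Real.volume_closedBall]; exact ENNReal.ofReal_ne_top))
    refine le_trans (le_of_eq ?_) (integral_mono h2 gl.integrable h1)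
    rw [integral_indicator measurableSet_closedBall, setIntegral_const, Measure.real,
      Real.volume_closedBall, ENNReal.toReal_ofReal (by linarith), smul_eq_mul, mul_one]
  have cu' := cu.const_mul (β - 1)
  have cl' := cl.const_mul (β - 1)
  have bu : (β - 1) * (dens β x * ∫ y, gu y) < dens β x + ε := by
    have h1 : (β - 1) * (dens β x * ∫ y, gu y) ≤ (β - 1) * (dens β x * (2 * (c + η))) := by
      gcongr
    have h2 : (β - 1) * (dens β x * (2 * (c + η))) =
        dens β x * ((β - 1) * (2 * c)) + dens β x * (2 * η * (β - 1)) := by ring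
    rw [hc1] at h2
    linarith
  have bl : dens β x - ε < (β - 1) * (dens β x * ∫ y, gl y) := by
    have h1 : (β - 1) * (dens β x * (2 * (c - η))) ≤ (β - 1) * (dens β x * ∫ y, gl y) := by
      gcongr
    have h2 : (β - 1) * (dens β x * (2 * (c - η))) =
        dens β x * ((β - 1) * (2 * c)) - dens β x * (2 * η * (β - 1)) := by ring
    rw [hc1] at h2
    linarith
  filter_upwards [cu'.eventually (gt_mem_nhds bu), cl'.eventually (lt_mem_nhds bl)] with n h1 h2
  have h3 := Pit_mono hβ0 n lu x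
  have h4 := Pit_mono hβ0 n ll x
  rw [Pit_smul, Pi.smul_apply, smul_eq_mul] at h3 h4
  rw [← f_eq_Pit hβ] at h3 h4
  rw [Real.dist_eq, abs_lt]
  constructor <;> linarith

end Pool.Agent.helper31.Bernoulli
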