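import Mathlib

set_option autoImplicit false

/-!
# Bernoulli convolutions: basic definitions and self-similarity
-/

namespace Pool.Agent.helper31.Bernoulli

open MeasureTheory Measure Filter Topology
open scoped ENNReal

/-- The uniform probability measure on the two digits `{0, 1}`. -/
noncomputable def coin : Measure (Fin 2) := (PMF.uniformOfFintype (Fin 2)).toMeasure

instance : IsProbabilityMeasure coin := by unfold coin; infer_instance

/-- The law of a sequence of independent digits, each uniform on `{0, 1}`. -/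
noncomputable def digits : Measure (ℕ → Fin 2) := Measure.infinitePi fun _ => coin

instance : IsProbabilityMeasure digits := by unfold digits; infer_instance

/-- The value `∑_{k ≥ 1} a_k β ^ (-k)` of a digit sequence (indexed from `0` here). -/
noncomputable def value (β : ℝ) (a : ℕ → Fin 2) : ℝ := ∑' k : ℕ, ((a k : ℕ) : ℝ) * β⁻¹ ^ (k + 1)

/-- The Bernoulli convolution `ν_β`: the law of `∑_{k ≥ 1} a_k β ^ (-k)` with independent
`a_k` uniform on `{0, 1}`. -/
noncomputable def nu (β : ℝ) : Measure ℝ := digits.map (value β)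

/-- The interval `I_β = [0, 1 / (β - 1)]`. -/
def I (β : ℝ) : Set ℝ := Set.Icc 0 (1 / (β - 1))

/-- The approximating densities `f_n`. -/
noncomputable def f (β : ℝ) : ℕ → ℝ → ℝ
  | 0 => (I β).indicator fun _ => β - 1
  | n + 1 => (I β).indicator fun x => β / 2 * (f β n (β * x) + f β n (β * x - 1))

lemma coin_singleton (i : Fin 2) : coin {i} = 2⁻¹ := by
  unfold coin
  rw [PMF.toMeasure_apply_singleton _ _ (measurableSet_singleton i)]
  simp

/-- prepend a digit -/
def cons (p : Fin 2 × (ℕ → Fin 2)) : ℕ → Fin 2 := fun n => Nat.casesOn n p.1 p.2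

@[simp] lemma cons_zero (p : Fin 2 × (ℕ → Fin 2)) : cons p 0 = p.1 := rfl
@[simp] lemma cons_succ (p : Fin 2 × (ℕ → Fin 2)) (n : ℕ) : cons p (n + 1) = p.2 n := rfl

lemma measurable_cons : Measurable cons := by
  rw [measurable_pi_iff]
  intro n
  cases n with
  | zero => exact measurable_fst
  | succ n => exact (measurable_pi_apply n).comp measurable_snd

lemma map_cons : (coin.prod digits).map cons = digits := by
  refine eq_infinitePi _ fun s t ht => ?_
  classical
  rw [map_apply measurable_cons (.pi s.countable_toSet fun _ _ => ht _)]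
  have h1 : cons ⁻¹' ((s : Set ℕ).pi t) =
      (if 0 ∈ s then t 0 else Set.univ) ×ˢ
        (((s.preimage Nat.succ Nat.succ_injective.injOn : Finset ℕ) : Set ℕ).pi
          fun n => t (n + 1)) := by
    ext p
    simp only [Set.mem_preimage, Set.mem_pi, Finset.mem_coe, Set.mem_prod, Finset.mem_preimage]
    constructor
    · intro h
      refine ⟨?_, fun n hn => h _ hn⟩
      split_ifs with h0
      · exact h 0 h0
      · trivial
    · rintro ⟨h0, h1⟩ n hn
      cases n with
      | zero => rw [if_pos hn] at h0; exact h0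
      | succ n => exact h1 n hn
  rw [h1, prod_prod, digits, infinitePi_pi _ (fun i _ => ht _)]
  have h2 : ∏ i ∈ s.preimage Nat.succ Nat.succ_injective.injOn, coin (t (i + 1)) =
      ∏ i ∈ s, (if i = 0 then 1 else coin (t i)) := by
    have := Finset.prod_preimage Nat.succ s Nat.succ_injective.injOn
      (fun i => if i = 0 then 1 else coin (t i)) (by
        intro x _ hx
        have : x = 0 := by
          by_contra hne
          exact hx ⟨x - 1, by simp only [Nat.succ_eq_add_one]; omega⟩
        simp [this])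
    rw [← this]
    refine Finset.prod_congr rfl fun i _ => ?_
    simp
  have h3 : ∏ i ∈ s, coin (t i) =
      (∏ i ∈ s, (if i = 0 then coin (t 0) else 1)) * ∏ i ∈ s, (if i = 0 then 1 else coin (t i)) := by
    rw [← Finset.prod_mul_distrib]
    refine Finset.prod_congr rfl fun i _ => ?_
    split_ifs with h
    · rw [h]; simp
    · simp
  rw [h2, h3, Finset.prod_ite_eq']
  congr 1
  split_ifs <;> simp

lemma summable_value {β : ℝ} (hβ : 1 < β) (a : ℕ → Fin 2) :
    Summable fun k : ℕ => ((a k : ℕ) : ℝ) * β⁻¹ ^ (k + 1) := by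
  have hβ0 : 0 < β := by linarith
  have hb : β⁻¹ < 1 := inv_lt_one_of_one_lt₀ hβ
  have hs : Summable fun k : ℕ => β⁻¹ ^ (k + 1) :=
    (summable_nat_add_iff 1).2 (summable_geometric_of_lt_one (by positivity) hb)
  refine Summable.of_nonneg_of_le (fun k => by positivity) (fun k => ?_) hs
  have : ((a k : ℕ) : ℝ) ≤ 1 := by
    have := (a k).isLt
    have h2 : (a k : ℕ) ≤ 1 := by omega
    exact_mod_cast h2
  have h3 : 0 ≤ β⁻¹ ^ (k + 1) := by positivity
  nlinarith

lemma value_nonneg {β : ℝ} (hβ : 1 < β) (a : ℕ → Fin 2) : 0 ≤ value β a := by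
  have hβ0 : 0 < β := by linarith
  exact tsum_nonneg fun k => by positivity

lemma tsum_geom {β : ℝ} (hβ : 1 < β) : ∑' k : ℕ, β⁻¹ ^ (k + 1) = 1 / (β - 1) := by
  have hβ0 : 0 < β := by linarith
  have hb : β⁻¹ < 1 := inv_lt_one_of_one_lt₀ hβ
  have h1 : ∑' k : ℕ, β⁻¹ ^ (k + 1) = β⁻¹ * (1 - β⁻¹)⁻¹ := by
    rw [← tsum_geometric_of_lt_one (by positivity) hb, ← tsum_mul_left]
    congr 1; ext k; ring
  rw [h1]
  have : β - 1 ≠ 0 := by linarith
  have h2 : 1 - β⁻¹ ≠ 0 := by linarith
  field_simp

lemma value_le {β : ℝ} (hβ : 1 < β) (a : ℕ → Fin 2) : value β a ≤ 1 / (β - 1) := by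
  have hβ0 : 0 < β := by linarith
  have hb : β⁻¹ < 1 := inv_lt_one_of_one_lt₀ hβ
  rw [← tsum_geom hβ]
  have hs : Summable fun k : ℕ => β⁻¹ ^ (k + 1) :=
    (summable_nat_add_iff 1).2 (summable_geometric_of_lt_one (by positivity) hb)
  refine Summable.tsum_le_tsum (fun k => ?_) (summable_value hβ a) hs
  have : ((a k : ℕ) : ℝ) ≤ 1 := by
    have := (a k).isLt
    have h2 : (a k : ℕ) ≤ 1 := by omega
    exact_mod_cast h2
  have h3 : 0 ≤ β⁻¹ ^ (k + 1) := by positivity
  nlinarith

lemma measurable_value (β : ℝ) : Measurable (value β) := by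
  unfold value
  refine Measurable.tsum ?_
  intro k
  refine Measurable.mul_const ?_ _
  exact (measurable_of_countable (fun i : Fin 2 => ((i : ℕ) : ℝ))).comp (measurable_pi_apply k)

lemma value_cons {β : ℝ} (hβ : 1 < β) (p : Fin 2 × (ℕ → Fin 2)) :
    value β (cons p) = (((p.1 : ℕ) : ℝ) + value β p.2) / β := by
  have hβ0 : β ≠ 0 := by linarith
  unfold value
  rw [(summable_value hβ (cons p)).tsum_eq_zero_add]
  simp only [cons_zero, cons_succ, zero_add, pow_one]
  rw [add_div, ← tsum_div_const]
  congr 1
  congr 1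
  ext k
  rw [pow_succ, div_eq_mul_inv]; ring

/-- Self-similarity, as a push-forward. -/
lemma nu_eq_map {β : ℝ} (hβ : 1 < β) :
    nu β = (coin.prod (nu β)).map (fun p => (((p.1 : ℕ) : ℝ) + p.2) / β) := by
  have hm := measurable_value β
  have hg : Measurable (fun p : Fin 2 × ℝ => (((p.1 : ℕ) : ℝ) + p.2) / β) := by
    refine Measurable.div_const (Measurable.add ?_ measurable_snd) _
    exact (measurable_of_countable (fun i : Fin 2 => ((i : ℕ) : ℝ))).comp measurable_fst
  have h1 : coin.prod (nu β) = (coin.prod digits).map (Prod.map id (value β)) := by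
    unfold nu
    rw [← map_prod_map _ _ measurable_id hm, Measure.map_id]
  rw [h1, map_map hg (measurable_id.prodMap hm)]
  conv_lhs => rw [nu, ← map_cons, map_map hm measurable_cons]
  congr 1
  ext p
  simp [value_cons hβ]

instance isProbabilityMeasure_nu (β : ℝ) : IsProbabilityMeasure (nu β) := by
  unfold nu; exact isProbabilityMeasure_map (measurable_value β).aemeasurable

lemma nu_I {β : ℝ} (hβ : 1 < β) : nu β (I β) = 1 := by
  unfold nu
  have hI : MeasurableSet (I β) := measurableSet_Icc
  rw [map_apply (measurable_value β) hI]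
  have : value β ⁻¹' I β = Set.univ := by
    ext a; simp only [Set.mem_preimage, I, Set.mem_Icc, Set.mem_univ, iff_true]
    exact ⟨value_nonneg hβ a, value_le hβ a⟩
  rw [this, measure_univ]

/-- Self-similarity of `ν_β` on measurable sets. -/
lemma nu_apply {β : ℝ} (hβ : 1 < β) {A : Set ℝ} (hA : MeasurableSet A) :
    nu β A = 2⁻¹ * (nu β {y | y / β ∈ A} + nu β {y | (1 + y) / β ∈ A}) := by
  have hg : Measurable (fun p : Fin 2 × ℝ => (((p.1 : ℕ) : ℝ) + p.2) / β) := by
    refine Measurable.div_const (Measurable.add ?_ measurable_snd) _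
    exact (measurable_of_countable (fun i : Fin 2 => ((i : ℕ) : ℝ))).comp measurable_fst
  have h0 : nu β A = ((coin.prod (nu β)).map (fun p => (((p.1 : ℕ) : ℝ) + p.2) / β)) A := by
    rw [← nu_eq_map hβ]
  rw [h0, map_apply hg hA, prod_apply (hg hA), lintegral_fintype, Fin.sum_univ_two,
    coin_singleton, coin_singleton, mul_add]
  simp only [Set.preimage, Set.mem_ofPred_eq, Fin.val_zero, Fin.val_one, Nat.cast_zero,
    Nat.cast_one, zero_add]
  rw [mul_comm, mul_comm (nu β _)]

lemma nu_real_apply {β : ℝ} (hβ : 1 < β) {A : Set ℝ} (hA : MeasurableSet A) :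
    (nu β).real A = 1 / 2 * ((nu β).real {y | y / β ∈ A} + (nu β).real {y | (1 + y) / β ∈ A}) := by
  unfold Measure.real
  rw [nu_apply hβ hA, ENNReal.toReal_mul, ENNReal.toReal_add (measure_ne_top _ _)
    (measure_ne_top _ _)]
  simp

lemma nu_real_closedBall {β : ℝ} (hβ : 1 < β) (x r : ℝ) :
    (nu β).real (Metric.closedBall x (r / β)) =
      1 / 2 * ((nu β).real (Metric.closedBall (β * x) r) +
        (nu β).real (Metric.closedBall (β * x - 1) r)) := by
  have hβ0 : 0 < β := by linarith
  rw [nu_real_apply hβ measurableSet_closedBall]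
  have e1 : {y | y / β ∈ Metric.closedBall x (r / β)} = Metric.closedBall (β * x) r := by
    ext y
    simp only [Set.mem_ofPred_eq, Metric.mem_closedBall, Real.dist_eq]
    have : y / β - x = (y - β * x) / β := by field_simp
    rw [this, abs_div, abs_of_pos hβ0, div_le_div_iff_of_pos_right hβ0]
  have e2 : {y | (1 + y) / β ∈ Metric.closedBall x (r / β)} =
      Metric.closedBall (β * x - 1) r := by
    ext y
    simp only [Set.mem_ofPred_eq, Metric.mem_closedBall, Real.dist_eq]
    have : (1 + y) / β - x = (y - (β * x - 1)) / β := by field_simp; ring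
    rw [this, abs_div, abs_of_pos hβ0, div_le_div_iff_of_pos_right hβ0]
  rw [e1, e2]

lemma f_nonneg {β : ℝ} (hβ : 1 < β) (n : ℕ) (x : ℝ) : 0 ≤ f β n x := by
  induction n generalizing x with
  | zero => exact Set.indicator_nonneg (fun _ _ => by linarith) x
  | succ n ih =>
    refine Set.indicator_nonneg (fun y _ => ?_) x
    have h1 := ih (β * y)
    have h2 := ih (β * y - 1)
    positivity

/-- The key upper bound: `f_n (x)` is at most `2` times the average of `ν_β` over the ball of
radius `|I_β| β ^ (-n)` around `x`. -/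
lemma f_le {β : ℝ} (hβ : 1 < β) (n : ℕ) (x : ℝ) :
    f β n x ≤ (β - 1) * β ^ n * (nu β).real (Metric.closedBall x (1 / (β - 1) / β ^ n)) := by
  have hβ0 : 0 < β := by linarith
  have hβ1 : 0 < β - 1 := by linarith
  induction n generalizing x with
  | zero =>
    by_cases hx : x ∈ I β
    · have h1 : f β 0 x = β - 1 := Set.indicator_of_mem hx _
      have h2 : I β ⊆ Metric.closedBall x (1 / (β - 1) / β ^ 0) := by
        intro y hy
        simp only [pow_zero, div_one, Metric.mem_closedBall, Real.dist_eq]
        rw [abs_le]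
        have hx1 := hx.1
        have hx2 := hx.2
        have hy1 := hy.1
        have hy2 := hy.2
        constructor <;> linarith
      have h3 : (nu β).real (I β) = 1 := by simp [Measure.real, nu_I hβ]
      have h4 := measureReal_mono (μ := nu β) h2
      rw [h1]
      simp only [pow_zero, div_one, mul_one] at h4 ⊢
      nlinarith
    · have h1 : f β 0 x = 0 := Set.indicator_of_notMem hx _
      rw [h1]; positivity
  | succ n ih =>
    by_cases hx : x ∈ I β
    · have h1 : f β (n + 1) x = β / 2 * (f β n (β * x) + f β n (β * x - 1)) :=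
        Set.indicator_of_mem hx _
      have h2 : (1 / (β - 1) / β ^ (n + 1)) = (1 / (β - 1) / β ^ n) / β := by
        rw [pow_succ]; field_simp
      rw [h1, h2, nu_real_closedBall hβ]
      have i1 := ih (β * x)
      have i2 := ih (β * x - 1)
      calc β / 2 * (f β n (β * x) + f β n (β * x - 1)) ≤ β / 2 * (_ + _) :=
            mul_le_mul_of_nonneg_left (add_le_add i1 i2) (by positivity)
        _ = _ := by rw [pow_succ]; ring
    · have h1 : f β (n + 1) x = 0 := Set.indicator_of_notMem hx _
      rw [h1]; positivity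

end Pool.Agent.helper31.Bernoulli
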