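import Mathlib

set_option autoImplicit false

/-!
# A planar counterexample to unique continuation along zero curves

Coefficient matrix `diag (a, 1)` with `a = 1 / D`, `D = 1 + 3 m y - 27 m ^ 4`, `m = min x 0`.
Solutions `u = y` and
`v = x y - m ^ 4 / 4 + (3 / 2) m ^ 2 y ^ 2 - 6 m ^ 5 y + (27 / 8) m ^ 8`.
One has `v_x = (y - m ^ 3) D`, so that `a v_x = y - m ^ 3`, and `v_y = x + 3 m ^ 2 y - 6 m ^ 5`.
-/

namespace Pool.Agent.helper31.EllipticCex

open MeasureTheory

/-- The plane. -/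
abbrev P := EuclideanSpace ℝ (Fin 2)

/-- The function `t ↦ min t 0 ^ (k + 2)` is differentiable. -/
lemma hasDerivAt_minpow (k : ℕ) (t : ℝ) :
    HasDerivAt (fun s : ℝ => (min s 0) ^ (k + 2)) (((k : ℝ) + 2) * (min t 0) ^ (k + 1)) t := by
  have hp : ∀ s : ℝ, HasDerivAt (fun s : ℝ => s ^ (k + 2)) (((k : ℝ) + 2) * s ^ (k + 1)) s := by
    intro s
    have := hasDerivAt_pow (k + 2) s
    simpa using this
  rcases lt_trichotomy t 0 with ht | ht | ht
  · have h1 : (fun s : ℝ => (min s 0) ^ (k + 2)) =ᶠ[nhds t] fun s => s ^ (k + 2) := by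
      filter_upwards [Iio_mem_nhds ht] with s hs
      rw [min_eq_left (le_of_lt hs)]
    rw [min_eq_left ht.le]
    exact (hp t).congr_of_eventuallyEq h1
  · subst ht
    have hL : HasDerivWithinAt (fun s : ℝ => (min s 0) ^ (k + 2)) 0 (Set.Iic 0) 0 := by
      have h0 : HasDerivWithinAt (fun s : ℝ => s ^ (k + 2)) 0 (Set.Iic 0) 0 := by
        have := (hp 0).hasDerivWithinAt (s := Set.Iic 0)
        simpa using this
      refine h0.congr ?_ ?_
      · intro s hs
        have hs' : s ≤ 0 := hs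
        simp [min_eq_left hs']
      · simp
    have hR : HasDerivWithinAt (fun s : ℝ => (min s 0) ^ (k + 2)) 0 (Set.Ici 0) 0 := by
      refine (hasDerivWithinAt_const (0 : ℝ) (Set.Ici 0) (0 : ℝ)).congr ?_ ?_
      · intro s hs
        have hs' : 0 ≤ s := hs
        simp [min_eq_right hs']
      · simp
    have := hL.union hR
    rw [Set.Iic_union_Ici, hasDerivWithinAt_univ] at this
    simpa using this
  · have h1 : (fun s : ℝ => (min s 0) ^ (k + 2)) =ᶠ[nhds t] fun _ => (0 : ℝ) := by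
      filter_upwards [Ioi_mem_nhds ht] with s hs
      have hs' : (0 : ℝ) < s := hs
      simp [min_eq_right hs'.le]
    rw [min_eq_right ht.le]
    simpa using (hasDerivAt_const t (0 : ℝ)).congr_of_eventuallyEq h1

lemma contDiff_minpow (k : ℕ) : ContDiff ℝ 1 (fun s : ℝ => (min s 0) ^ (k + 2)) := by
  rw [contDiff_one_iff_deriv]
  refine ⟨fun t => (hasDerivAt_minpow k t).differentiableAt, ?_⟩
  have : deriv (fun s : ℝ => (min s 0) ^ (k + 2)) =
      fun t => ((k : ℝ) + 2) * (min t 0) ^ (k + 1) :=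
    funext fun t => (hasDerivAt_minpow k t).deriv
  rw [this]
  fun_prop

/-- coordinate functional -/
noncomputable abbrev co (i : Fin 2) : P →L[ℝ] ℝ := EuclideanSpace.proj i

lemma hasFDerivAt_co (i : Fin 2) (p : P) : HasFDerivAt (fun q : P => q i) (co i) p :=
  (co i).hasFDerivAt

lemma hasFDerivAt_mpow (k : ℕ) (p : P) :
    HasFDerivAt (fun q : P => (min (q 0) 0) ^ (k + 2))
      ((((k : ℝ) + 2) * (min (p 0) 0) ^ (k + 1)) • co 0) p := by
  have h := (hasDerivAt_minpow k (p 0)).comp_hasFDerivAt p (hasFDerivAt_co 0 p)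
  exact h

lemma contDiff_mpow (k : ℕ) : ContDiff ℝ 1 (fun q : P => (min (q 0) 0) ^ (k + 2)) :=
  (contDiff_minpow k).comp (co 0).contDiff

/-- second solution -/
noncomputable def v (p : P) : ℝ :=
  p 0 * p 1 - (1 / 4) * (min (p 0) 0) ^ 4 + (3 / 2) * ((min (p 0) 0) ^ 2 * (p 1) ^ 2)
    - 6 * ((min (p 0) 0) ^ 5 * p 1) + (27 / 8) * (min (p 0) 0) ^ 8

/-- the denominator -/
noncomputable def D (p : P) : ℝ := 1 + 3 * (min (p 0) 0) * p 1 - 27 * (min (p 0) 0) ^ 4

/-- flux in the first direction -/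
noncomputable def F1 (p : P) : ℝ := p 1 - (min (p 0) 0) ^ 3

/-- flux in the second direction -/
noncomputable def F2 (p : P) : ℝ :=
  p 0 + 3 * ((min (p 0) 0) ^ 2 * p 1) - 6 * (min (p 0) 0) ^ 5

lemma hasFDerivAt_v (p : P) :
    HasFDerivAt v ((F1 p * D p) • co 0 + (F2 p) • co 1) p := by
  have h0 := hasFDerivAt_co 0 p
  have h1 := hasFDerivAt_co 1 p
  have m2 := hasFDerivAt_mpow 0 p
  have m4 := hasFDerivAt_mpow 2 p
  have m5 := hasFDerivAt_mpow 3 p
  have m8 := hasFDerivAt_mpow 6 p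
  have h := ((((h0.mul h1).sub (m4.const_mul (1 / 4))).add
    ((m2.mul (h1.pow 2)).const_mul (3 / 2))).sub ((m5.mul h1).const_mul 6)).add
      (m8.const_mul (27 / 8))
  refine h.congr_fderiv ?_
  ext w
  simp [F1, F2, D]
  ring

lemma hasFDerivAt_F1 (p : P) :
    HasFDerivAt F1 ((-(3 * (min (p 0) 0) ^ 2)) • co 0 + (1 : ℝ) • co 1) p := by
  have h1 := hasFDerivAt_co 1 p
  have m3 := hasFDerivAt_mpow 1 p
  refine (h1.sub m3).congr_fderiv ?_
  ext w
  simp
  ring

lemma hasFDerivAt_F2 (p : P) :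
    HasFDerivAt F2 ((1 + 6 * (min (p 0) 0) * p 1 - 30 * (min (p 0) 0) ^ 4) • co 0
      + (3 * (min (p 0) 0) ^ 2) • co 1) p := by
  have h0 := hasFDerivAt_co 0 p
  have h1 := hasFDerivAt_co 1 p
  have m2 := hasFDerivAt_mpow 0 p
  have m5 := hasFDerivAt_mpow 3 p
  refine ((h0.add ((m2.mul h1).const_mul 3)).sub (m5.const_mul 6)).congr_fderiv ?_
  ext w
  simp
  ring

lemma contDiff_v : ContDiff ℝ 1 v := by
  have h0 : ContDiff ℝ 1 (fun q : P => q 0) := (co 0).contDiff
  have h1 : ContDiff ℝ 1 (fun q : P => q 1) := (co 1).contDiff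
  have m2 := contDiff_mpow 0
  have m4 := contDiff_mpow 2
  have m5 := contDiff_mpow 3
  have m8 := contDiff_mpow 6
  exact ((((h0.mul h1).sub (contDiff_const.mul m4)).add
    (contDiff_const.mul (m2.mul (h1.pow 2)))).sub (contDiff_const.mul (m5.mul h1))).add
      (contDiff_const.mul m8)

/-- first basis vector -/
noncomputable abbrev e0 : P := EuclideanSpace.single 0 1
/-- second basis vector -/
noncomputable abbrev e1 : P := EuclideanSpace.single 1 1

lemma fderiv_v_e0 (p : P) : fderiv ℝ v p e0 = F1 p * D p := by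
  rw [(hasFDerivAt_v p).fderiv]; simp

lemma fderiv_v_e1 (p : P) : fderiv ℝ v p e1 = F2 p := by
  rw [(hasFDerivAt_v p).fderiv]; simp

lemma fderiv_F1_e0 (p : P) : fderiv ℝ F1 p e0 = -(3 * (min (p 0) 0) ^ 2) := by
  rw [(hasFDerivAt_F1 p).fderiv]; simp

lemma fderiv_F2_e1 (p : P) : fderiv ℝ F2 p e1 = 3 * (min (p 0) 0) ^ 2 := by
  rw [(hasFDerivAt_F2 p).fderiv]; simp

lemma continuous_F1 : Continuous F1 := by unfold F1; fun_prop
lemma continuous_F2 : Continuous F2 := by unfold F2; fun_prop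

/-- The flux `(F1, F2)` is divergence free in the weak sense. -/
lemma weak_flux (φ : P → ℝ) (hφ : ContDiff ℝ ((⊤ : ℕ∞) : WithTop ℕ∞) φ)
    (hc : HasCompactSupport φ) :
    ∫ x, (F1 x * fderiv ℝ φ x e0 + F2 x * fderiv ℝ φ x e1) = 0 := by
  have hφd : Differentiable ℝ φ := hφ.differentiable (by simp)
  have hφ' : Continuous (fun x => fderiv ℝ φ x) := hφ.continuous_fderiv (by simp)
  have hc' : ∀ w : P, HasCompactSupport (fun x => fderiv ℝ φ x w) := by
    intro w
    exact hc.fderiv_apply ℝ w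
  have hcont' : ∀ w : P, Continuous (fun x => fderiv ℝ φ x w) := fun w =>
    hφ'.clm_apply continuous_const
  have i1 : Integrable (fun x => F1 x * fderiv ℝ φ x e0) :=
    (continuous_F1.mul (hcont' e0)).integrable_of_hasCompactSupport ((hc' e0).mul_left)
  have i2 : Integrable (fun x => F2 x * fderiv ℝ φ x e1) :=
    (continuous_F2.mul (hcont' e1)).integrable_of_hasCompactSupport ((hc' e1).mul_left)
  have i3 : Integrable (fun x => fderiv ℝ F1 x e0 * φ x) := by
    refine Continuous.integrable_of_hasCompactSupport ?_ hc.mul_left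
    have : (fun x => fderiv ℝ F1 x e0) = fun p : P => -(3 * (min (p 0) 0) ^ 2) :=
      funext fderiv_F1_e0
    refine Continuous.mul ?_ hφ.continuous
    rw [this]; fun_prop
  have i4 : Integrable (fun x => fderiv ℝ F2 x e1 * φ x) := by
    refine Continuous.integrable_of_hasCompactSupport ?_ hc.mul_left
    have : (fun x => fderiv ℝ F2 x e1) = fun p : P => 3 * (min (p 0) 0) ^ 2 :=
      funext fderiv_F2_e1
    refine Continuous.mul ?_ hφ.continuous
    rw [this]; fun_prop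
  have i5 : Integrable (fun x => F1 x * φ x) :=
    (continuous_F1.mul hφ.continuous).integrable_of_hasCompactSupport hc.mul_left
  have i6 : Integrable (fun x => F2 x * φ x) :=
    (continuous_F2.mul hφ.continuous).integrable_of_hasCompactSupport hc.mul_left
  rw [integral_add i1 i2,
    integral_mul_fderiv_eq_neg_fderiv_mul_of_integrable i3 i1 i5
      (fun x _ => (hasFDerivAt_F1 x).differentiableAt) (fun x _ => hφd x),
    integral_mul_fderiv_eq_neg_fderiv_mul_of_integrable i4 i2 i6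
      (fun x _ => (hasFDerivAt_F2 x).differentiableAt) (fun x _ => hφd x)]
  have : ∫ x, fderiv ℝ F1 x e0 * φ x = - ∫ x, fderiv ℝ F2 x e1 * φ x := by
    rw [← integral_neg]
    congr 1
    ext x
    rw [fderiv_F1_e0, fderiv_F2_e1]; ring
  rw [this]; ring

/-- The domain. -/
def Om : Set P := Metric.ball 0 (1 / 4)

lemma coord_bound {p : P} (hp : p ∈ Om) (i : Fin 2) : |p i| < 1 / 4 := by
  have h1 : ‖p i‖ ≤ ‖p‖ := PiLp.norm_apply_le p i
  have h2 : ‖p‖ < 1 / 4 := by simpa [Om] using hp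
  rw [Real.norm_eq_abs] at h1
  linarith

lemma min_bound {p : P} (hp : p ∈ Om) : -(1 / 4) ≤ min (p 0) 0 ∧ min (p 0) 0 ≤ 0 := by
  have h := abs_lt.mp (coord_bound hp 0)
  refine ⟨le_min (by linarith) (by norm_num), min_le_right _ _⟩

lemma D_bound {p : P} (hp : p ∈ Om) : 1 / 2 ≤ D p ∧ D p ≤ 2 := by
  obtain ⟨hm1, hm2⟩ := min_bound hp
  obtain ⟨hy1, hy2⟩ := abs_lt.mp (coord_bound hp 1)
  unfold D
  set m := min (p 0) 0
  set y := p 1
  have hm4 : 0 ≤ m ^ 4 := by positivity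
  have hm4' : m ^ 4 ≤ (1 / 4) ^ 4 := by
    have : m ^ 4 = (-m) ^ 4 := by ring
    rw [this]
    exact pow_le_pow_left₀ (by linarith) (by linarith) 4
  have hmy1 : m * y ≤ 1 / 16 := by nlinarith
  have hmy2 : -(1 / 16) ≤ m * y := by nlinarith
  constructor <;> nlinarith

lemma sub_coord_le (p q : P) (i : Fin 2) : |p i - q i| ≤ dist p q := by
  rw [dist_eq_norm]
  have h1 : ‖(p - q) i‖ ≤ ‖p - q‖ := PiLp.norm_apply_le (p - q) i
  simpa using h1

lemma sub_min_le (p q : P) : |min (p 0) 0 - min (q 0) 0| ≤ dist p q := by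
  have h := abs_min_sub_min_le_max (p 0) 0 (q 0) 0
  have h2 := sub_coord_le p q 0
  simp at h
  linarith

lemma D_lip {p q : P} (hp : p ∈ Om) (hq : q ∈ Om) : |D p - D q| ≤ 4 * dist p q := by
  obtain ⟨hm1, hm2⟩ := min_bound hp
  obtain ⟨hn1, hn2⟩ := min_bound hq
  have hy := coord_bound hp 1
  have hz := coord_bound hq 1
  have hd := sub_coord_le p q 1
  have hmn := sub_min_le p q
  unfold D
  set m := min (p 0) 0
  set n := min (q 0) 0
  set y := p 1
  set z := q 1
  set d := dist p q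
  have hd0 : 0 ≤ d := dist_nonneg
  have hm : |m| ≤ 1 / 4 := abs_le.mpr ⟨hm1, by linarith⟩
  have hn : |n| ≤ 1 / 4 := abs_le.mpr ⟨hn1, by linarith⟩
  have e : (1 + 3 * m * y - 27 * m ^ 4) - (1 + 3 * n * z - 27 * n ^ 4)
      = 3 * (m * (y - z)) + 3 * (z * (m - n)) - 27 * ((m - n) * ((m + n) * (m ^ 2 + n ^ 2))) := by
    ring
  rw [e]
  have a1 : |m * (y - z)| ≤ 1 / 4 * d := by
    rw [abs_mul]; exact mul_le_mul hm hd (abs_nonneg _) (by norm_num)
  have a2 : |z * (m - n)| ≤ 1 / 4 * d := by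
    rw [abs_mul]; exact mul_le_mul hz.le hmn (abs_nonneg _) (by norm_num)
  have a3 : |(m + n) * (m ^ 2 + n ^ 2)| ≤ 1 / 16 := by
    rw [abs_mul]
    have b1 : |m + n| ≤ 1 / 2 := (abs_add_le m n).trans (by linarith)
    have hm' : m ^ 2 ≤ 1 / 16 := by nlinarith
    have hn' : n ^ 2 ≤ 1 / 16 := by nlinarith
    have b2 : |m ^ 2 + n ^ 2| ≤ 1 / 8 := by
      rw [abs_of_nonneg (by positivity)]; linarith
    calc |m + n| * |m ^ 2 + n ^ 2| ≤ 1 / 2 * (1 / 8) :=
          mul_le_mul b1 b2 (abs_nonneg _) (by norm_num)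
      _ = 1 / 16 := by norm_num
  have a4 : |(m - n) * ((m + n) * (m ^ 2 + n ^ 2))| ≤ 1 / 16 * d := by
    rw [abs_mul, mul_comm]
    exact mul_le_mul a3 hmn (abs_nonneg _) (by norm_num)
  rw [abs_le] at a1 a2 a4 ⊢
  constructor <;> nlinarith [a1.1, a1.2, a2.1, a2.2, a4.1, a4.2]

/-- the coefficient -/
noncomputable def a (p : P) : ℝ := (D p)⁻¹

lemma a_bound {p : P} (hp : p ∈ Om) : 1 / 2 ≤ a p ∧ a p ≤ 2 := by
  obtain ⟨h1, h2⟩ := D_bound hp
  unfold a
  constructor
  · rw [one_div]; exact inv_anti₀ (by linarith) h2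
  · have := inv_anti₀ (by norm_num : (0 : ℝ) < 1 / 2) h1
    simpa using this

lemma a_lip {p q : P} (hp : p ∈ Om) (hq : q ∈ Om) : |a p - a q| ≤ 16 * dist p q := by
  obtain ⟨h1, h2⟩ := a_bound hp
  obtain ⟨h3, h4⟩ := a_bound hq
  have h5 := D_lip hp hq
  have hp0 : D p ≠ 0 := by have := (D_bound hp).1; intro h; rw [h] at this; norm_num at this
  have hq0 : D q ≠ 0 := by have := (D_bound hq).1; intro h; rw [h] at this; norm_num at this
  have e : a p - a q = (a p * a q) * (D q - D p) := by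
    unfold a; field_simp
  rw [e, abs_mul]
  have h6 : |a p * a q| ≤ 4 := by
    rw [abs_of_nonneg (by nlinarith)]; nlinarith
  have h7 : |D q - D p| ≤ 4 * dist p q := by rw [abs_sub_comm]; exact h5
  calc |a p * a q| * |D q - D p| ≤ 4 * (4 * dist p q) :=
        mul_le_mul h6 h7 (abs_nonneg _) (by norm_num)
    _ = 16 * dist p q := by ring

/-- the coefficient matrix -/
noncomputable def A (p : P) : Matrix (Fin 2) (Fin 2) ℝ := !![a p, 0; 0, 1]

lemma D_pos {p : P} (hp : p ∈ Om) : D p ≠ 0 := by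
  have := (D_bound hp).1; intro h; rw [h] at this; norm_num at this

/-- weak formulation for `u = y` -/
lemma weak_u (φ : P → ℝ) (hφ : ContDiff ℝ ((⊤ : ℕ∞) : WithTop ℕ∞) φ)
    (hc : HasCompactSupport φ) :
    ∫ x, ∑ i, ∑ j, A x i j * fderiv ℝ (fun q : P => q 1) x (EuclideanSpace.single j 1)
      * fderiv ℝ φ x (EuclideanSpace.single i 1) = 0 := by
  have hφd : Differentiable ℝ φ := hφ.differentiable (by simp)
  have hφ' : Continuous (fun x => fderiv ℝ φ x) := hφ.continuous_fderiv (by simp)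
  have e : ∀ x : P, (∑ i, ∑ j, A x i j * fderiv ℝ (fun q : P => q 1) x
      (EuclideanSpace.single j 1) * fderiv ℝ φ x (EuclideanSpace.single i 1))
      = (1 : ℝ) * fderiv ℝ φ x e1 := by
    intro x
    rw [(hasFDerivAt_co 1 x).fderiv]
    simp [Fin.sum_univ_two, A]
  simp_rw [e]
  have i1 : Integrable (fun x => (1 : ℝ) * fderiv ℝ φ x e1) :=
    (continuous_const.mul (hφ'.clm_apply continuous_const)).integrable_of_hasCompactSupport
      ((hc.fderiv_apply ℝ e1).mul_left)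
  have i2 : Integrable (fun x : P => fderiv ℝ (fun _ : P => (1 : ℝ)) x e1 * φ x) := by
    have : (fun x : P => fderiv ℝ (fun _ : P => (1 : ℝ)) x e1 * φ x) = fun _ => 0 := by
      ext x; simp
    rw [this]; exact integrable_zero _ _ _
  have i3 : Integrable (fun x : P => (1 : ℝ) * φ x) :=
    (continuous_const.mul hφ.continuous).integrable_of_hasCompactSupport hc.mul_left
  rw [integral_mul_fderiv_eq_neg_fderiv_mul_of_integrable i2 i1 i3
      (fun x _ => differentiableAt_const _) (fun x _ => hφd x)]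
  simp

/-- weak formulation for `v` -/
lemma weak_v (φ : P → ℝ) (hφ : ContDiff ℝ ((⊤ : ℕ∞) : WithTop ℕ∞) φ)
    (hc : HasCompactSupport φ) (hs : tsupport φ ⊆ Om) :
    ∫ x, ∑ i, ∑ j, A x i j * fderiv ℝ v x (EuclideanSpace.single j 1)
      * fderiv ℝ φ x (EuclideanSpace.single i 1) = 0 := by
  rw [← weak_flux φ hφ hc]
  congr 1
  ext x
  by_cases hx : x ∈ Om
  · have h1 : a x * D x = 1 := by unfold a; exact inv_mul_cancel₀ (D_pos hx)
    have h2 := fderiv_v_e0 x
    have h3 := fderiv_v_e1 x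
    simp only [Fin.sum_univ_two, A, Matrix.of_apply, Matrix.cons_val', Matrix.cons_val_zero,
      Matrix.cons_val_one, Matrix.cons_val_fin_one]
    rw [h2, h3]
    linear_combination (F1 x * fderiv ℝ φ x e0) * h1
  · have hz : fderiv ℝ φ x = 0 := by
      have hx' : x ∉ tsupport φ := fun h => hx (hs h)
      have hx2 : x ∉ Function.support (fderiv ℝ φ) := fun h => hx' (support_fderiv_subset ℝ h)
      simpa using hx2
    simp [hz]

lemma isOpen_Om : IsOpen Om := Metric.isOpen_ball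

lemma isConnected_Om : IsConnected Om :=
  ⟨⟨0, by simp [Om]⟩, (convex_ball (0 : P) (1 / 4)).isPreconnected⟩

lemma A_symm (x : P) (i j : Fin 2) : A x i j = A x j i := by
  fin_cases i <;> fin_cases j <;> simp [A]

lemma A_elliptic {x : P} (hx : x ∈ Om) (ξ : P) :
    (2 : ℝ)⁻¹ * ‖ξ‖ ^ 2 ≤ ∑ i, ∑ j, A x i j * ξ i * ξ j ∧
      ∑ i, ∑ j, A x i j * ξ i * ξ j ≤ 2 * ‖ξ‖ ^ 2 := by
  obtain ⟨h1, h2⟩ := a_bound hx
  have hn : ‖ξ‖ ^ 2 = ξ 0 ^ 2 + ξ 1 ^ 2 := by
    rw [EuclideanSpace.norm_sq_eq]; simp [Fin.sum_univ_two]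
  have hs : ∑ i, ∑ j, A x i j * ξ i * ξ j = a x * ξ 0 ^ 2 + ξ 1 ^ 2 := by
    simp [Fin.sum_univ_two, A]; ring
  rw [hn, hs]
  have q0 := sq_nonneg (ξ 0)
  have q1 := sq_nonneg (ξ 1)
  constructor <;> nlinarith

lemma A_lip {x y : P} (hx : x ∈ Om) (hy : y ∈ Om) (i j : Fin 2) :
    |A x i j - A y i j| ≤ 16 * dist x y := by
  have hd : 0 ≤ dist x y := dist_nonneg
  fin_cases i <;> fin_cases j
  · simpa [A] using a_lip hx hy
  · simp [A]
  · simp [A]
  · simp [A]

/-- The line piece. -/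
def S : Set P := {p | p ∈ Om ∧ p 1 = 0}

/-- the open piece -/
def Sig : Set P := {p | p ∈ S ∧ 0 < p 0}

lemma pt_mem {t : ℝ} (ht : |t| < 1 / 4) : (EuclideanSpace.single 0 t : P) ∈ S := by
  refine ⟨?_, by simp⟩
  simp only [Om, Metric.mem_ball, dist_zero_right, PiLp.norm_single]
  simpa using ht

lemma isConnected_S : IsConnected S := by
  refine ⟨⟨_, pt_mem (t := 0) (by norm_num)⟩, ?_⟩
  have h1 : Convex ℝ S := by
    have h2 : S = Om ∩ (co 1) ⁻¹' {0} := by
      ext p; simp [S]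
    rw [h2]
    exact (convex_ball _ _).inter ((convex_singleton 0).affine_preimage
      (co 1 : P →ₗ[ℝ] ℝ).toAffineMap)
  exact h1.isPreconnected

lemma v_neg {t : ℝ} (ht : t < 0) :
    v (EuclideanSpace.single 0 t) = - (1 / 4) * t ^ 4 + (27 / 8) * t ^ 8 := by
  simp [v, min_eq_left ht.le]

lemma v_zero_of {p : P} (h0 : 0 < p 0) (h1 : p 1 = 0) : v p = 0 := by
  simp [v, min_eq_right h0.le, h1]

end Pool.Agent.helper31.EllipticCex
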