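import Pool.Agent.helper31.Bernoulli

set_option autoImplicit false

/-!
# The transfer operator of the Bernoulli convolution
-/

namespace Pool.Agent.helper31.Bernoulli

open MeasureTheory Measure Filter Topology
open scoped ENNReal

section Op
variable {E : Type*} [AddCommGroup E] [Module ℝ E]

/-- The transfer operator `ψ ↦ (β / 2) (ψ (β x) + ψ (β x - 1))`. -/
noncomputable def P (β : ℝ) (ψ : ℝ → E) : ℝ → E :=
  fun x => (β / 2) • (ψ (β * x) + ψ (β * x - 1))

lemma P_apply (β : ℝ) (ψ : ℝ → E) (x : ℝ) :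
    P β ψ x = (β / 2) • (ψ (β * x) + ψ (β * x - 1)) := rfl

lemma P_add (β : ℝ) (ψ₁ ψ₂ : ℝ → E) : P β (ψ₁ + ψ₂) = P β ψ₁ + P β ψ₂ := by
  ext x; simp only [P_apply, Pi.add_apply, smul_add]; abel

lemma P_smul (β c : ℝ) (ψ : ℝ → E) : P β (c • ψ) = c • P β ψ := by
  ext x; simp only [P_apply, Pi.smul_apply, smul_add, smul_comm c]

lemma Pit_add (β : ℝ) (n : ℕ) (ψ₁ ψ₂ : ℝ → E) :
    (P β)^[n] (ψ₁ + ψ₂) = (P β)^[n] ψ₁ + (P β)^[n] ψ₂ := by
  induction n generalizing ψ₁ ψ₂ with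
  | zero => rfl
  | succ n ih => simp only [Function.iterate_succ_apply, P_add, ih]

lemma Pit_smul (β : ℝ) (n : ℕ) (c : ℝ) (ψ : ℝ → E) :
    (P β)^[n] (c • ψ) = c • (P β)^[n] ψ := by
  induction n generalizing ψ with
  | zero => rfl
  | succ n ih => simp only [Function.iterate_succ_apply, P_smul, ih]

lemma Pit_sub (β : ℝ) (n : ℕ) (ψ₁ ψ₂ : ℝ → E) :
    (P β)^[n] (ψ₁ - ψ₂) = (P β)^[n] ψ₁ - (P β)^[n] ψ₂ := by
  have : ψ₁ - ψ₂ = ψ₁ + (-1 : ℝ) • ψ₂ := by ext x; simp [sub_eq_add_neg]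
  rw [this, Pit_add, Pit_smul]; ext x; simp [sub_eq_add_neg]

end Op

lemma Pit_mono {β : ℝ} (hβ : 0 < β) (n : ℕ) {ψ₁ ψ₂ : ℝ → ℝ} (h : ∀ x, ψ₁ x ≤ ψ₂ x) (x : ℝ) :
    (P β)^[n] ψ₁ x ≤ (P β)^[n] ψ₂ x := by
  induction n generalizing ψ₁ ψ₂ with
  | zero => exact h x
  | succ n ih =>
    simp only [Function.iterate_succ_apply]
    refine ih fun y => ?_
    simp only [P_apply, smul_eq_mul]
    exact mul_le_mul_of_nonneg_left (add_le_add (h _) (h _)) (by positivity)

lemma norm_Pit_le {β : ℝ} (hβ : 0 < β) {E : Type*} [NormedAddCommGroup E] [NormedSpace ℝ E]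
    (n : ℕ) (ψ : ℝ → E) (x : ℝ) :
    ‖(P β)^[n] ψ x‖ ≤ (P β)^[n] (fun y => ‖ψ y‖) x := by
  induction n generalizing ψ with
  | zero => exact le_rfl
  | succ n ih =>
    simp only [Function.iterate_succ_apply]
    refine (ih _).trans (Pit_mono hβ n (fun y => ?_) x)
    simp only [P_apply, smul_eq_mul, norm_smul]
    rw [Real.norm_of_nonneg (by positivity)]
    exact mul_le_mul_of_nonneg_left (norm_add_le _ _) (by positivity)

lemma notMem_I_mul {β : ℝ} (hβ : 1 < β) {x : ℝ} (hx : x ∉ I β) :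
    β * x ∉ I β ∧ β * x - 1 ∉ I β := by
  have hb : 0 < β - 1 := by linarith
  have e : β * (1 / (β - 1)) = 1 / (β - 1) + 1 := by field_simp; ring
  simp only [I, Set.mem_Icc, not_and_or, not_le] at hx ⊢
  have hc : 0 < 1 / (β - 1) := by positivity
  rcases hx with hx | hx
  · constructor
    · left; nlinarith
    · left; nlinarith
  · constructor
    · right; nlinarith
    · right; nlinarith

lemma f_eq_zero_of_notMem {β : ℝ} (n : ℕ) {x : ℝ} (hx : x ∉ I β) : f β n x = 0 := by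
  cases n with
  | zero => exact Set.indicator_of_notMem hx _
  | succ n => exact Set.indicator_of_notMem hx _

lemma f_succ {β : ℝ} (hβ : 1 < β) (n : ℕ) : f β (n + 1) = P β (f β n) := by
  ext x
  by_cases hx : x ∈ I β
  · have : f β (n + 1) x = β / 2 * (f β n (β * x) + f β n (β * x - 1)) :=
      Set.indicator_of_mem hx _
    rw [this, P_apply, smul_eq_mul]
  · obtain ⟨h1, h2⟩ := notMem_I_mul hβ hx
    rw [f_eq_zero_of_notMem _ hx, P_apply, f_eq_zero_of_notMem _ h1, f_eq_zero_of_notMem _ h2]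
    simp

lemma f_eq_Pit {β : ℝ} (hβ : 1 < β) (n : ℕ) : f β n = (P β)^[n] (f β 0) := by
  induction n with
  | zero => rfl
  | succ n ih => rw [f_succ hβ, ih, Function.iterate_succ_apply']

section Int
variable {E : Type*} [NormedAddCommGroup E]

/-- bounded continuous functions are integrable for `ν_β` -/
lemma integrable_nu {β : ℝ} {ψ : ℝ → E} (hc : Continuous ψ) {C : ℝ} (hC : ∀ y, ‖ψ y‖ ≤ C) :
    Integrable ψ (nu β) :=
  Integrable.of_bound hc.aestronglyMeasurable C (Eventually.of_forall hC)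

/-- Self-similarity for integrals. -/
lemma integral_nu [NormedSpace ℝ E] [CompleteSpace E] {β : ℝ} (hβ : 1 < β) {ψ : ℝ → E} (hc : Continuous ψ) {C : ℝ}
    (hC : ∀ y, ‖ψ y‖ ≤ C) :
    ∫ y, ψ y ∂(nu β) = (1 / 2 : ℝ) • (∫ y, ψ (y / β) ∂(nu β) + ∫ y, ψ ((1 + y) / β) ∂(nu β)) := by
  have hg : Measurable (fun p : Fin 2 × ℝ => (((p.1 : ℕ) : ℝ) + p.2) / β) := by
    refine Measurable.div_const (Measurable.add ?_ measurable_snd) _
    exact (measurable_of_countable (fun i : Fin 2 => ((i : ℕ) : ℝ))).comp measurable_fst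
  have h0 : ∫ y, ψ y ∂(nu β) =
      ∫ y, ψ y ∂((coin.prod (nu β)).map (fun p => (((p.1 : ℕ) : ℝ) + p.2) / β)) := by
    rw [← nu_eq_map hβ]
  have hi : Integrable (fun p : Fin 2 × ℝ => ψ ((((p.1 : ℕ) : ℝ) + p.2) / β))
      (coin.prod (nu β)) := by
    refine Integrable.of_bound ?_ C (Eventually.of_forall fun p => hC _)
    exact (hc.stronglyMeasurable.comp_measurable hg).aestronglyMeasurable
  rw [h0, integral_map hg.aemeasurable hc.aestronglyMeasurable, integral_prod _ hi,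
    integral_fintype, Fin.sum_univ_two]
  · simp only [Measure.real, coin_singleton, Fin.val_zero, Fin.val_one, Nat.cast_zero,
      Nat.cast_one, zero_add]
    rw [smul_add]
    norm_num
  · exact Integrable.of_finite

end Int

/-- The convolution of `κ` with `ν_β`. -/
noncomputable def V {E : Type*} [NormedAddCommGroup E] [NormedSpace ℝ E] (β : ℝ) (κ : ℝ → E) :
    ℝ → E := fun x => ∫ t, κ (x - t) ∂(nu β)

lemma P_V {E : Type*} [NormedAddCommGroup E] [NormedSpace ℝ E] [CompleteSpace E]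
    {β : ℝ} (hβ : 1 < β) {κ : ℝ → E} (hc : Continuous κ) {C : ℝ} (hC : ∀ y, ‖κ y‖ ≤ C) :
    P β (V β κ) = V β (fun y => β • κ (β * y)) := by
  have hβ0 : 0 < β := by linarith
  ext x
  simp only [P_apply, V]
  have h1 := integral_nu hβ (ψ := fun t => β • κ (β * (x - t))) (by fun_prop) (C := β * C)
    (fun y => by
      rw [norm_smul, Real.norm_of_nonneg hβ0.le]
      exact mul_le_mul_of_nonneg_left (hC _) hβ0.le)
  rw [h1]
  have e1 : ∀ y : ℝ, β * (x - y / β) = β * x - y := by intro y; field_simp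
  have e2 : ∀ y : ℝ, β * x - (1 + y) = β * x - 1 - y := by intro y; ring
  simp only [e1, e2, integral_smul, ← smul_add, smul_smul]
  congr 1; ring

lemma Pit_V {E : Type*} [NormedAddCommGroup E] [NormedSpace ℝ E] [CompleteSpace E]
    {β : ℝ} (hβ : 1 < β) (n : ℕ) {κ : ℝ → E} (hc : Continuous κ) {C : ℝ} (hC : ∀ y, ‖κ y‖ ≤ C) :
    (P β)^[n] (V β κ) = V β (fun y => β ^ n • κ (β ^ n * y)) := by
  have hβ0 : 0 < β := by linarith
  induction n generalizing κ C with
  | zero => simp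
  | succ n ih =>
    rw [Function.iterate_succ_apply, P_V hβ hc hC,
      ih (κ := fun y => β • κ (β * y)) (by fun_prop) (C := β * C) (fun y => by
        rw [norm_smul, Real.norm_of_nonneg hβ0.le]
        exact mul_le_mul_of_nonneg_left (hC _) hβ0.le)]
    congr 1
    ext y
    rw [smul_smul, ← pow_succ, ← mul_assoc, pow_succ']

/-- The weight `ρ / (1 + (ρ y) ^ 2)`. -/
noncomputable def w (ρ : ℝ) (y : ℝ) : ℝ := ρ / (1 + (ρ * y) ^ 2)

lemma w_nonneg {ρ : ℝ} (hρ : 0 ≤ ρ) (y : ℝ) : 0 ≤ w ρ y := by unfold w; positivity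

lemma w_le {ρ : ℝ} (hρ : 0 ≤ ρ) (y : ℝ) : w ρ y ≤ ρ := by
  unfold w; exact div_le_self hρ (by nlinarith [sq_nonneg (ρ * y)])

lemma continuous_w (ρ : ℝ) : Continuous (w ρ) := by
  unfold w
  refine Continuous.div (by fun_prop) (by fun_prop) fun y => by positivity

/-- comparison constant -/
noncomputable def cst (β : ℝ) : ℝ := 2 + 2 * (1 / (β - 1)) ^ 2

lemma cst_pos (β : ℝ) : 0 < cst β := by unfold cst; positivity

lemma ae_mem_I {β : ℝ} (hβ : 1 < β) : ∀ᵐ t ∂(nu β), t ∈ I β := by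
  have hI : MeasurableSet (I β) := measurableSet_Icc
  exact (prob_compl_eq_zero_iff hI).2 (nu_I hβ)

lemma w_le_V {β : ℝ} (hβ : 1 < β) {ρ : ℝ} (hρ : 0 < ρ) (hρ1 : ρ ≤ 1) (y : ℝ) :
    w ρ y ≤ cst β * V β (w ρ) y := by
  have hb : 0 < β - 1 := by linarith
  have h1 : ∀ᵐ t ∂(nu β), w ρ y ≤ cst β * w ρ (y - t) := by
    filter_upwards [ae_mem_I hβ] with t ht
    have ht0 : 0 ≤ t := ht.1
    have ht1 : t ≤ 1 / (β - 1) := ht.2
    unfold w cst
    set c := 1 / (β - 1)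
    have hc : 0 < c := by positivity
    have hd : 0 < 1 + (ρ * (y - t)) ^ 2 := by positivity
    have hd' : 0 < 1 + (ρ * y) ^ 2 := by positivity
    rw [← mul_div_assoc, div_le_div_iff₀ hd' hd]
    have h2 : (ρ * (y - t)) ^ 2 ≤ 2 * (ρ * y) ^ 2 + 2 * c ^ 2 := by
      have h3 : (ρ * t) ^ 2 ≤ c ^ 2 := by
        have : ρ * t ≤ c := by nlinarith
        have h4 : 0 ≤ ρ * t := by positivity
        nlinarith
      nlinarith [sq_nonneg (ρ * y + ρ * t)]
    have h5 : 1 + (ρ * (y - t)) ^ 2 ≤ (2 + 2 * c ^ 2) * (1 + (ρ * y) ^ 2) := by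
      nlinarith [mul_nonneg (sq_nonneg c) (sq_nonneg (ρ * y))]
    calc ρ * (1 + (ρ * (y - t)) ^ 2) ≤ ρ * ((2 + 2 * c ^ 2) * (1 + (ρ * y) ^ 2)) :=
          mul_le_mul_of_nonneg_left h5 hρ.le
      _ = (2 + 2 * c ^ 2) * ρ * (1 + (ρ * y) ^ 2) := by ring
  have hi : Integrable (fun t => w ρ (y - t)) (nu β) := by
    refine integrable_nu ((continuous_w ρ).comp (by fun_prop)) (C := ρ) fun t => ?_
    rw [Real.norm_of_nonneg (w_nonneg hρ.le _)]
    exact w_le hρ.le _
  have h2 := integral_mono_ae (integrable_const (w ρ y)) (hi.const_mul (cst β)) h1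
  rw [integral_const, integral_const_mul] at h2
  simpa [V] using h2

end Pool.Agent.helper31.Bernoulli
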