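import Pool.Agent.helper31.BernA

set_option autoImplicit false

/-!
# Good points: convergence of Poisson type means at Lebesgue points
-/

namespace Pool.Agent.helper31.Bernoulli

open MeasureTheory Measure Filter Topology Metric
open scoped ENNReal

/-- `x` is a good point for `h`: Poisson type means of `|h - h x|` around `x` tend to zero. -/
def Good (h : ℝ → ℝ) (x : ℝ) : Prop :=
  Tendsto (fun ρ : ℝ => ∫ t, w ρ (x - t) * |h t - h x|) atTop (𝓝 0)

lemma w_le_tsum {ρ : ℝ} (hρ : 0 < ρ) (x t : ℝ) :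
    ENNReal.ofReal (w ρ (x - t)) ≤ ∑' j : ℕ, (closedBall x (2 ^ j / ρ)).indicator
      (fun _ => ENNReal.ofReal (4 * (1 / 4) ^ j * ρ)) t := by
  classical
  have hex : ∃ j : ℕ, |ρ * (x - t)| ≤ 2 ^ j := by
    obtain ⟨j, hj⟩ := pow_unbounded_of_one_lt |ρ * (x - t)| (one_lt_two)
    exact ⟨j, hj.le⟩
  obtain ⟨j, hj, hmin⟩ : ∃ j : ℕ, |ρ * (x - t)| ≤ 2 ^ j ∧ ∀ i < j, ¬ |ρ * (x - t)| ≤ 2 ^ i :=
    ⟨Nat.find hex, Nat.find_spec hex, fun i hi => Nat.find_min hex hi⟩
  refine le_trans ?_ (ENNReal.le_tsum j)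
  have hmem : t ∈ closedBall x (2 ^ j / ρ) := by
    rw [mem_closedBall, Real.dist_eq, le_div_iff₀ hρ, abs_sub_comm]
    rw [abs_mul, abs_of_pos hρ] at hj; linarith
  rw [Set.indicator_of_mem hmem]
  apply ENNReal.ofReal_le_ofReal
  cases j with
  | zero => have := w_le hρ.le (x - t); simp; linarith
  | succ i =>
    have h1 : (2 : ℝ) ^ i < |ρ * (x - t)| := not_le.1 (hmin i (Nat.lt_succ_self i))
    have h2 : (4 : ℝ) ^ i ≤ (ρ * (x - t)) ^ 2 := by
      have : (4 : ℝ) ^ i = ((2 : ℝ) ^ i) ^ 2 := by rw [← pow_mul, mul_comm, pow_mul]; norm_num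
      rw [this, ← sq_abs (ρ * (x - t))]
      exact pow_le_pow_left₀ (by positivity) h1.le 2
    unfold w
    have h4 : (0 : ℝ) < 4 ^ i := by positivity
    rw [div_le_iff₀ (by positivity)]
    have e : 4 * (1 / 4 : ℝ) ^ (i + 1) * ρ = ρ / 4 ^ i := by
      rw [pow_succ, div_pow, one_pow]; ring
    rw [e, div_mul_eq_mul_div, le_div_iff₀ h4]
    nlinarith

lemma ae_good {h : ℝ → ℝ} (hi : Integrable h) : ∀ᵐ x, Good h x := by
  filter_upwards [(Besicovitch.vitaliFamily volume).ae_tendsto_average_norm_sub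
    hi.locallyIntegrable] with x hx
  have hx' := hx.comp (Besicovitch.tendsto_filterAt volume x)
  set avg : ℝ → ℝ := fun r => ⨍ y in closedBall x r, ‖h y - h x‖ with havg
  have hx2 : Tendsto avg (𝓝[>] 0) (𝓝 0) := hx'
  have hib : ∀ r, IntegrableOn (fun t => ‖h t - h x‖) (closedBall x r) volume := fun r =>
    (hi.integrableOn.sub (integrableOn_const (by
      rw [Real.volume_closedBall]; exact ENNReal.ofReal_ne_top))).norm
  have hvol : ∀ r, 0 < r → volume.real (closedBall x r) = 2 * r := by
    intro r hr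
    rw [Measure.real, Real.volume_closedBall, ENNReal.toReal_ofReal (by positivity)]
  have havg_eq : ∀ r, 0 < r → avg r = (2 * r)⁻¹ * ∫ y in closedBall x r, ‖h y - h x‖ := by
    intro r hr
    rw [havg]; simp only []
    rw [setAverage_eq, hvol r hr, smul_eq_mul]
  have havg0 : ∀ r, 0 ≤ avg r := by
    intro r
    rw [havg]; simp only []
    rw [setAverage_eq]
    exact mul_nonneg (by positivity) (integral_nonneg fun _ => norm_nonneg _)
  obtain ⟨B, hB0, hB⟩ : ∃ B, 0 ≤ B ∧ ∀ r, 0 < r → avg r ≤ B := by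
    have h1 : ∀ᶠ r in 𝓝[>] (0 : ℝ), avg r < 1 := hx2.eventually (gt_mem_nhds one_pos)
    obtain ⟨δ, hδ, h2⟩ := mem_nhdsGT_iff_exists_Ioo_subset.1 h1
    have hδ' : (0 : ℝ) < δ := hδ
    refine ⟨1 + ((2 * δ)⁻¹ * (∫ y, ‖h y‖) + |h x|), by positivity, fun r hr => ?_⟩
    by_cases hrd : r < δ
    · have := h2 ⟨hr, hrd⟩
      have h3 : avg r < 1 := this
      have h4 : 0 ≤ (2 * δ)⁻¹ * (∫ y, ‖h y‖) + |h x| := by positivity
      linarith
    · push Not at hrd
      rw [havg_eq r hr]
      have h3 : ∫ y in closedBall x r, ‖h y - h x‖ ≤ (∫ y, ‖h y‖) + 2 * r * |h x| := by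
        calc ∫ y in closedBall x r, ‖h y - h x‖
            ≤ ∫ y in closedBall x r, (‖h y‖ + ‖h x‖) := by
              refine setIntegral_mono (hib r) ?_ fun y => norm_sub_le _ _
              exact hi.norm.integrableOn.add (integrableOn_const (by
                rw [Real.volume_closedBall]; exact ENNReal.ofReal_ne_top))
          _ = (∫ y in closedBall x r, ‖h y‖) + 2 * r * |h x| := by
              rw [integral_add hi.norm.integrableOn (integrableOn_const (by
                rw [Real.volume_closedBall]; exact ENNReal.ofReal_ne_top)), setIntegral_const,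
                hvol r hr, smul_eq_mul, Real.norm_eq_abs]
          _ ≤ (∫ y, ‖h y‖) + 2 * r * |h x| := by
              have := setIntegral_le_integral (s := closedBall x r) hi.norm
                (Eventually.of_forall fun _ => norm_nonneg _)
              linarith
      have h4 : (2 * r)⁻¹ ≤ (2 * δ)⁻¹ := by
        apply inv_anti₀ (by positivity); linarith
      have h5 : 0 ≤ ∫ y, ‖h y‖ := integral_nonneg fun _ => norm_nonneg _
      calc (2 * r)⁻¹ * ∫ y in closedBall x r, ‖h y - h x‖
          ≤ (2 * r)⁻¹ * ((∫ y, ‖h y‖) + 2 * r * |h x|) :=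
            mul_le_mul_of_nonneg_left h3 (by positivity)
        _ = (2 * r)⁻¹ * (∫ y, ‖h y‖) + |h x| := by field_simp
        _ ≤ 1 + ((2 * δ)⁻¹ * (∫ y, ‖h y‖) + |h x|) := by
            have := mul_le_mul_of_nonneg_right h4 h5
            linarith
  have hsum : Summable fun j : ℕ => 8 * (1 / 2 : ℝ) ^ j * B :=
    (summable_geometric_two.mul_left 8).mul_right B
  have key : ∀ ρ, 0 < ρ → ∫ t, w ρ (x - t) * |h t - h x| ≤
      ∑' j : ℕ, 8 * (1 / 2 : ℝ) ^ j * avg (2 ^ j / ρ) := by
    intro ρ hρ
    have hs : Summable fun j : ℕ => 8 * (1 / 2 : ℝ) ^ j * avg (2 ^ j / ρ) := by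
      refine Summable.of_nonneg_of_le (fun j => ?_) (fun j => ?_) hsum
      · have := havg0 (2 ^ j / ρ); positivity
      · exact mul_le_mul_of_nonneg_left (hB _ (by positivity)) (by positivity)
    have hm : AEMeasurable (fun t => |h t - h x|) volume :=
      (hi.aemeasurable.sub_const (h x)).norm
    rw [integral_eq_lintegral_of_nonneg_ae (Eventually.of_forall fun t =>
      mul_nonneg (w_nonneg hρ.le _) (abs_nonneg _)) (by
        have h1 : AEStronglyMeasurable (fun t => w ρ (x - t)) volume :=
          ((continuous_w ρ).comp (by fun_prop : Continuous fun t : ℝ => x - t)).aestronglyMeasurable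
        exact h1.mul hm.aestronglyMeasurable)]
    have h1 : ∫⁻ t, ENNReal.ofReal (w ρ (x - t) * |h t - h x|) ≤
        ENNReal.ofReal (∑' j : ℕ, 8 * (1 / 2 : ℝ) ^ j * avg (2 ^ j / ρ)) := by
      calc ∫⁻ t, ENNReal.ofReal (w ρ (x - t) * |h t - h x|)
          ≤ ∫⁻ t, ∑' j : ℕ, (closedBall x (2 ^ j / ρ)).indicator
              (fun t => ENNReal.ofReal (4 * (1 / 4) ^ j * ρ) * ENNReal.ofReal |h t - h x|) t := by
            refine lintegral_mono fun t => ?_
            simp only []
            rw [ENNReal.ofReal_mul (w_nonneg hρ.le _)]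
            calc _ ≤ (∑' j : ℕ, (closedBall x (2 ^ j / ρ)).indicator
                (fun _ => ENNReal.ofReal (4 * (1 / 4) ^ j * ρ)) t) * ENNReal.ofReal |h t - h x| := by
                  gcongr; exact w_le_tsum hρ x t
              _ = _ := by
                rw [← ENNReal.tsum_mul_right]
                congr 1; ext j
                by_cases ht : t ∈ closedBall x (2 ^ j / ρ)
                · rw [Set.indicator_of_mem ht, Set.indicator_of_mem ht]
                · rw [Set.indicator_of_notMem ht, Set.indicator_of_notMem ht, zero_mul]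
        _ = ∑' j : ℕ, ∫⁻ t, (closedBall x (2 ^ j / ρ)).indicator
              (fun t => ENNReal.ofReal (4 * (1 / 4) ^ j * ρ) * ENNReal.ofReal |h t - h x|) t := by
            refine lintegral_tsum fun j => ?_
            exact ((hm.ennreal_ofReal).const_mul _).indicator measurableSet_closedBall
        _ = ∑' j : ℕ, ENNReal.ofReal (8 * (1 / 2 : ℝ) ^ j * avg (2 ^ j / ρ)) := by
            congr 1; ext j
            rw [lintegral_indicator measurableSet_closedBall, lintegral_const_mul'' _
              hm.ennreal_ofReal.restrict]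
            have h2 : ∫⁻ t in closedBall x (2 ^ j / ρ), ENNReal.ofReal |h t - h x| =
                ENNReal.ofReal (∫ t in closedBall x (2 ^ j / ρ), ‖h t - h x‖) := by
              rw [ofReal_integral_eq_lintegral_ofReal (hib _)
                (Eventually.of_forall fun _ => norm_nonneg _)]
              rfl
            rw [h2, ← ENNReal.ofReal_mul (by positivity)]
            congr 1
            rw [havg_eq _ (by positivity)]
            have e4 : (1 / 4 : ℝ) ^ j = (1 / 2) ^ j * (1 / 2) ^ j := by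
              rw [← mul_pow]; norm_num
            have e2 : (1 / 2 : ℝ) ^ j * 2 ^ j = 1 := by rw [← mul_pow]; norm_num
            rw [e4]
            have h22 : (2 : ℝ) ^ j ≠ 0 := by positivity
            have e5 : (1 / 2 : ℝ) ^ j = 1 / 2 ^ j := by rw [div_pow, one_pow]
            rw [e5]
            field_simp
            simp only [Real.norm_eq_abs]
            ring
        _ = _ := by
            rw [ENNReal.ofReal_tsum_of_nonneg _ hs]
            intro j
            have := havg0 (2 ^ j / ρ); positivity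
    have h3 : 0 ≤ ∑' j : ℕ, 8 * (1 / 2 : ℝ) ^ j * avg (2 ^ j / ρ) :=
      tsum_nonneg fun j => by have := havg0 (2 ^ j / ρ); positivity
    calc _ ≤ (ENNReal.ofReal (∑' j : ℕ, 8 * (1 / 2 : ℝ) ^ j * avg (2 ^ j / ρ))).toReal :=
          ENNReal.toReal_mono ENNReal.ofReal_ne_top h1
      _ = _ := ENNReal.toReal_ofReal h3
  have hlim : Tendsto (fun ρ : ℝ => ∑' j : ℕ, 8 * (1 / 2 : ℝ) ^ j * avg (2 ^ j / ρ)) atTop
      (𝓝 (∑' _ : ℕ, (0 : ℝ))) := by
    refine tendsto_tsum_of_dominated_convergence hsum (fun j => ?_) ?_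
    · have h1 : Tendsto (fun ρ : ℝ => 2 ^ j / ρ) atTop (𝓝[>] 0) := by
        rw [tendsto_nhdsWithin_iff]
        refine ⟨tendsto_const_nhds.div_atTop tendsto_id, ?_⟩
        filter_upwards [eventually_gt_atTop 0] with ρ hρ
        simp only [Set.mem_Ioi]; positivity
      have h2 := (hx2.comp h1).const_mul (8 * (1 / 2 : ℝ) ^ j)
      rwa [mul_zero] at h2
    · filter_upwards [eventually_gt_atTop 0] with ρ hρ j
      rw [Real.norm_of_nonneg (by have := havg0 (2 ^ j / ρ); positivity)]
      exact mul_le_mul_of_nonneg_left (hB _ (by positivity)) (by positivity)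
  rw [tsum_zero] at hlim
  refine tendsto_of_tendsto_of_tendsto_of_le_of_le' tendsto_const_nhds hlim ?_ ?_
  · filter_upwards [eventually_gt_atTop 0] with ρ hρ
    exact integral_nonneg fun t => mul_nonneg (w_nonneg hρ.le _) (abs_nonneg _)
  · filter_upwards [eventually_gt_atTop 0] with ρ hρ using key ρ hρ

end Pool.Agent.helper31.Bernoulli
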