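import Pool.Agent.helper31.BernB

set_option autoImplicit false

/-!
# Approximate identities at good points
-/

namespace Pool.Agent.helper31.Bernoulli

open MeasureTheory Measure Filter Topology Metric
open scoped ENNReal

/-- The density of `ν_β`. -/
noncomputable def dens (β : ℝ) (t : ℝ) : ℝ := ((nu β).rnDeriv volume t).toReal

lemma integrable_dens (β : ℝ) : Integrable (dens β) := Measure.integrable_toReal_rnDeriv

lemma dens_nonneg (β : ℝ) (t : ℝ) : 0 ≤ dens β t := ENNReal.toReal_nonneg

lemma w_scale {ρ : ℝ} (r y : ℝ) : r * w ρ (r * y) = w (r * ρ) y := by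
  unfold w
  have : (ρ * (r * y)) = r * ρ * y := by ring
  rw [this, mul_div_assoc]

lemma integrable_w_one : Integrable (w 1) := by
  have := integrable_inv_one_add_sq
  refine this.congr (Eventually.of_forall fun y => ?_)
  simp [w]

lemma integrable_of_le_w {E : Type*} [NormedAddCommGroup E] {κ : ℝ → E} (hc : Continuous κ)
    {C : ℝ} (hC : ∀ y, ‖κ y‖ ≤ C * w 1 y) : Integrable κ :=
  (integrable_w_one.const_mul C).mono' hc.aestronglyMeasurable (Eventually.of_forall hC)

lemma bound_of_le_w {E : Type*} [NormedAddCommGroup E] {κ : ℝ → E}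
    {C : ℝ} (hC : ∀ y, ‖κ y‖ ≤ C * w 1 y) (y : ℝ) : ‖κ y‖ ≤ |C| := by
  refine (hC y).trans ?_
  have h1 := w_nonneg zero_le_one y
  have h2 := w_le zero_le_one y
  calc C * w 1 y ≤ |C| * w 1 y := mul_le_mul_of_nonneg_right (le_abs_self C) h1
    _ ≤ |C| * 1 := mul_le_mul_of_nonneg_left h2 (abs_nonneg C)
    _ = |C| := mul_one _

lemma tendsto_approx {E : Type*} [NormedAddCommGroup E] [NormedSpace ℝ E] [CompleteSpace E]
    {β : ℝ} (hac : nu β ≪ volume) {x : ℝ} (hx : Good (dens β) x) {κ : ℝ → E}
    (hc : Continuous κ) {C : ℝ} (hC : ∀ y, ‖κ y‖ ≤ C * w 1 y) :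
    Tendsto (fun ρ : ℝ => V β (fun y => ρ • κ (ρ * y)) x) atTop (𝓝 (dens β x • ∫ y, κ y)) := by
  have hki := integrable_of_le_w hc hC
  have hkb := bound_of_le_w hC
  have hC0 : 0 ≤ C := by
    have h0 := (norm_nonneg _).trans (hC 0)
    simpa [w] using h0
  -- the difference
  have key : ∀ ρ : ℝ, 0 < ρ →
      ‖V β (fun y => ρ • κ (ρ * y)) x - dens β x • ∫ y, κ y‖ ≤
        C * ∫ t, w ρ (x - t) * |dens β t - dens β x| := by
    intro ρ hρ
    have e1 : V β (fun y => ρ • κ (ρ * y)) x =
        ∫ t, dens β t • (ρ • κ (ρ * (x - t))) := by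
      simp only [V, dens]
      exact (integral_rnDeriv_smul hac).symm
    have e2 : dens β x • ∫ y, κ y = ∫ t, dens β x • (ρ • κ (ρ * (x - t))) := by
      rw [integral_smul, integral_smul]
      congr 1
      have h1 : ∫ t, κ (ρ * (x - t)) = ∫ t, κ (ρ * t) :=
        integral_sub_left_eq_self (fun t => κ (ρ * t)) volume x
      rw [h1, Measure.integral_comp_mul_left, smul_smul, abs_of_pos (by positivity),
        mul_inv_cancel₀ hρ.ne', one_smul]
    have hcc : Continuous (fun t => ρ • κ (ρ * (x - t))) := by fun_prop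
    have i1 : Integrable (fun t => dens β t • (ρ • κ (ρ * (x - t)))) := by
      refine Integrable.smul_bdd (C := ρ * |C|) (integrable_dens β) hcc.aestronglyMeasurable
        (Eventually.of_forall fun t => ?_)
      rw [norm_smul, Real.norm_of_nonneg hρ.le]
      exact mul_le_mul_of_nonneg_left (hkb _) hρ.le
    have i2 : Integrable (fun t => dens β x • (ρ • κ (ρ * (x - t)))) := by
      refine Integrable.smul _ (Integrable.smul _ ?_)
      exact ((hki.comp_mul_left' hρ.ne').comp_sub_left x)
    have i3 : Integrable (fun t => w ρ (x - t) * |dens β t - dens β x|) := by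
      have hcw : Continuous (fun t => w ρ (x - t)) := (continuous_w ρ).comp (by fun_prop)
      have j1 : Integrable (fun t => w ρ (x - t) * |dens β t|) := by
        refine Integrable.bdd_mul (c := ρ) (integrable_dens β).norm hcw.aestronglyMeasurable
          (Eventually.of_forall fun t => ?_)
        rw [Real.norm_of_nonneg (w_nonneg hρ.le _)]
        exact w_le hρ.le _
      have j2 : Integrable (fun t => w ρ (x - t) * |dens β x|) := by
        refine Integrable.mul_const ?_ _
        have : Integrable (fun y => w ρ y) := by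
          have h1 : (fun y => w ρ y) = fun y => ρ * w 1 (ρ * y) := by
            ext y; rw [w_scale, mul_one]
          rw [h1]
          exact (integrable_w_one.comp_mul_left' hρ.ne').const_mul ρ
        exact this.comp_sub_left x
      refine (j1.add j2).mono' ?_ (Eventually.of_forall fun t => ?_)
      · exact hcw.aestronglyMeasurable.mul
          ((integrable_dens β).aestronglyMeasurable.sub aestronglyMeasurable_const).norm
      · have h0 := w_nonneg hρ.le (x - t)
        rw [Real.norm_of_nonneg (by positivity)]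
        simp only [Pi.add_apply]
        rw [← mul_add]
        exact mul_le_mul_of_nonneg_left (abs_sub _ _) h0
    rw [e1, e2, ← integral_sub i1 i2, ← integral_const_mul]
    refine (norm_integral_le_integral_norm _).trans (integral_mono (i1.sub i2).norm
      (i3.const_mul C) fun t => ?_)
    simp only [Pi.sub_apply]
    rw [← sub_smul, norm_smul, norm_smul, Real.norm_eq_abs, Real.norm_of_nonneg hρ.le]
    have h1 : ρ * ‖κ (ρ * (x - t))‖ ≤ C * w ρ (x - t) := by
      have h2 : w ρ (x - t) = ρ * w 1 (ρ * (x - t)) := by rw [w_scale, mul_one]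
      rw [h2]
      calc ρ * ‖κ (ρ * (x - t))‖ ≤ ρ * (C * w 1 (ρ * (x - t))) :=
            mul_le_mul_of_nonneg_left (hC _) hρ.le
        _ = C * (ρ * w 1 (ρ * (x - t))) := by ring
    calc |dens β t - dens β x| * (ρ * ‖κ (ρ * (x - t))‖)
        ≤ |dens β t - dens β x| * (C * w ρ (x - t)) :=
          mul_le_mul_of_nonneg_left h1 (abs_nonneg _)
      _ = C * (w ρ (x - t) * |dens β t - dens β x|) := by ring
  rw [tendsto_iff_norm_sub_tendsto_zero]
  have hlim := hx.const_mul C
  rw [mul_zero] at hlim
  refine tendsto_of_tendsto_of_tendsto_of_le_of_le' tendsto_const_nhds hlim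
    (Eventually.of_forall fun _ => norm_nonneg _) ?_
  filter_upwards [eventually_gt_atTop 0] with ρ hρ using key ρ hρ

/-- At good points the Poisson means of `ν_β` are bounded. -/
lemma exists_bound {β : ℝ} (hac : nu β ≪ volume) {x : ℝ} (hx : Good (dens β) x) :
    ∃ M, 0 ≤ M ∧ ∀ ρ, 0 < ρ → V β (w ρ) x ≤ M := by
  have h1 := tendsto_approx hac hx (continuous_w 1) (C := 1) (fun y => by
    rw [one_mul, Real.norm_of_nonneg (w_nonneg zero_le_one y)])
  have h2 := h1.eventually (gt_mem_nhds (lt_add_one _))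
  obtain ⟨R, hR⟩ := eventually_atTop.1 h2
  refine ⟨|dens β x • ∫ y, w 1 y| + 1 + |R|, by positivity, fun ρ hρ => ?_⟩
  by_cases hρR : R ≤ ρ
  · have h3 := hR ρ hρR
    have h4 : (fun y => ρ • w 1 (ρ * y)) = w ρ := by
      ext y; rw [smul_eq_mul, w_scale, mul_one]
    rw [h4] at h3
    have := le_abs_self (dens β x • ∫ y, w 1 y)
    have := abs_nonneg R
    linarith
  · push Not at hρR
    have h3 : V β (w ρ) x ≤ ρ := by
      have h4 : ∀ t, w ρ (x - t) ≤ ρ := fun t => w_le hρ.le _
      have hi : Integrable (fun t => w ρ (x - t)) (nu β) := by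
        refine integrable_nu ((continuous_w ρ).comp (by fun_prop)) (C := ρ) fun t => ?_
        rw [Real.norm_of_nonneg (w_nonneg hρ.le _)]
        exact w_le hρ.le _
      have h5 := integral_mono hi (integrable_const ρ) h4
      simpa [V] using h5
    have := le_abs_self R
    have := abs_nonneg (dens β x • ∫ y, w 1 y)
    linarith

lemma Pit_w_le {β : ℝ} (hβ : 1 < β) {x M : ℝ} (hM : ∀ ρ, 0 < ρ → V β (w ρ) x ≤ M)
    {ρ : ℝ} (hρ : 0 < ρ) (hρ1 : ρ ≤ 1) (n : ℕ) :
    (P β)^[n] (w ρ) x ≤ cst β * M := by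
  have hβ0 : 0 < β := by linarith
  have h1 := Pit_mono hβ0 n (ψ₁ := w ρ) (ψ₂ := cst β • V β (w ρ))
    (fun y => by simpa using w_le_V hβ hρ hρ1 y) x
  refine h1.trans ?_
  rw [Pit_smul, Pi.smul_apply, smul_eq_mul, Pit_V hβ n (continuous_w ρ) (C := ρ) (fun y => by
    rw [Real.norm_of_nonneg (w_nonneg hρ.le _)]; exact w_le hρ.le _)]
  have h2 : (fun y => β ^ n • w ρ (β ^ n * y)) = w (β ^ n * ρ) := by
    ext y; rw [smul_eq_mul, w_scale]
  rw [h2]
  exact mul_le_mul_of_nonneg_left (hM _ (by positivity)) (cst_pos β).le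

end Pool.Agent.helper31.Bernoulli
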