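import Pool.Agent.helper31.BernC

set_option autoImplicit false

/-!
# Fourier side of the transfer operator
-/

namespace Pool.Agent.helper31.Bernoulli

open MeasureTheory Measure Filter Topology Metric
open scoped ENNReal FourierTransform SchwartzMap

/-- The character `u ↦ exp (2 π i u)`. -/
noncomputable def ee (u : ℝ) : ℂ := Complex.exp ((2 * Real.pi * u : ℝ) * Complex.I)

lemma ee_add (u v : ℝ) : ee (u + v) = ee u * ee v := by
  unfold ee; rw [← Complex.exp_add]; congr 1; push_cast; ring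

@[simp] lemma ee_zero : ee 0 = 1 := by simp [ee]

@[simp] lemma norm_ee (u : ℝ) : ‖ee u‖ = 1 := by
  unfold ee; exact Complex.norm_exp_ofReal_mul_I _

lemma continuous_ee : Continuous ee := by unfold ee; fun_prop

lemma contDiff_ee : ContDiff ℝ (⊤ : ℕ∞) ee := by
  unfold ee
  refine ContDiff.cexp (ContDiff.mul ?_ contDiff_const)
  exact Complex.ofRealCLM.contDiff.comp (contDiff_const.mul contDiff_id)

/-- Inverse Fourier transform, written out. -/
noncomputable def chk (Φ : ℝ → ℂ) (y : ℝ) : ℂ := ∫ ξ, Φ ξ * ee (ξ * y)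

lemma chk_eq_fourierInv (Φ : ℝ → ℂ) : chk Φ = 𝓕⁻ Φ := by
  ext y
  rw [Real.fourierInv_eq']
  unfold chk ee
  congr 1; ext ξ
  rw [smul_eq_mul, mul_comm]
  congr 3
  simp
  ring

lemma integrable_mul_ee {Φ : ℝ → ℂ} (hi : Integrable Φ) (y : ℝ) :
    Integrable (fun ξ => Φ ξ * ee (ξ * y)) := by
  refine hi.norm.mono' (hi.aestronglyMeasurable.mul
    (continuous_ee.comp (by fun_prop)).aestronglyMeasurable) (Eventually.of_forall fun ξ => ?_)
  simp

lemma norm_chk_le (Φ : ℝ → ℂ) (y : ℝ) : ‖chk Φ y‖ ≤ ∫ ξ, ‖Φ ξ‖ := by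
  unfold chk
  refine (norm_integral_le_integral_norm _).trans (le_of_eq ?_)
  congr 1; ext ξ; simp

lemma chk_add {Φ Ψ : ℝ → ℂ} (h1 : Integrable Φ) (h2 : Integrable Ψ) :
    chk (Φ + Ψ) = chk Φ + chk Ψ := by
  ext y
  simp only [chk, Pi.add_apply, add_mul]
  exact integral_add (integrable_mul_ee h1 y) (integrable_mul_ee h2 y)

lemma chk_sub {Φ Ψ : ℝ → ℂ} (h1 : Integrable Φ) (h2 : Integrable Ψ) :
    chk (Φ - Ψ) = chk Φ - chk Ψ := by
  ext y
  simp only [chk, Pi.sub_apply, sub_mul]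
  exact integral_sub (integrable_mul_ee h1 y) (integrable_mul_ee h2 y)

lemma hasDerivAt_ee_mul (y ξ : ℝ) :
    HasDerivAt (fun ξ => ee (ξ * y)) ((2 * Real.pi * y : ℝ) * Complex.I * ee (ξ * y)) ξ := by
  unfold ee
  have h1 : HasDerivAt (fun ξ : ℝ => (((2 * Real.pi * (ξ * y) : ℝ) : ℂ) * Complex.I))
      (((2 * Real.pi * y : ℝ) : ℂ) * Complex.I) ξ := by
    have h2 : HasDerivAt (fun ξ : ℝ => (2 * Real.pi * (ξ * y) : ℝ)) (2 * Real.pi * y) ξ := by
      have := ((hasDerivAt_id ξ).mul_const y).const_mul (2 * Real.pi)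
      simpa using this
    exact (h2.ofReal_comp).mul_const _
  have := h1.cexp
  refine this.congr_deriv ?_
  ring

lemma chk_deriv {Φ Φ' : ℝ → ℂ} (hd : ∀ ξ, HasDerivAt Φ (Φ' ξ) ξ) (hi : Integrable Φ)
    (hi' : Integrable Φ') (y : ℝ) :
    chk Φ' y = -((2 * Real.pi * y : ℝ) * Complex.I * chk Φ y) := by
  have h := integral_mul_deriv_eq_deriv_mul_of_integrable (u := Φ) (u' := Φ')
    (v := fun ξ => ee (ξ * y)) (v' := fun ξ => (2 * Real.pi * y : ℝ) * Complex.I * ee (ξ * y))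
    (fun ξ _ => hd ξ) (fun ξ _ => hasDerivAt_ee_mul y ξ)
    (by
      have := (integrable_mul_ee hi y).const_mul ((2 * Real.pi * y : ℝ) * Complex.I)
      refine this.congr (Eventually.of_forall fun ξ => ?_)
      simp only [Pi.mul_apply]; ring)
    (integrable_mul_ee hi' y) (integrable_mul_ee hi y)
  unfold chk
  rw [eq_comm, neg_eq_iff_eq_neg, ← h, ← integral_const_mul]
  congr 1; ext ξ; ring

/-- Quadratic decay of the inverse Fourier transform. -/
lemma chk_le_w {Φ Φ₁ Φ₂ : ℝ → ℂ} (hd : ∀ ξ, HasDerivAt Φ (Φ₁ ξ) ξ)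
    (hd1 : ∀ ξ, HasDerivAt Φ₁ (Φ₂ ξ) ξ) (hi : Integrable Φ)
    (hi1 : Integrable Φ₁) (hi2 : Integrable Φ₂) (y : ℝ) :
    ‖chk Φ y‖ ≤ ((∫ ξ, ‖Φ ξ‖) + ∫ ξ, ‖Φ₂ ξ‖) * w 1 y := by
  have h1 := chk_deriv hd hi hi1 y
  have h2 := chk_deriv hd1 hi1 hi2 y
  have h3 : chk Φ₂ y = -(((2 * Real.pi * y) ^ 2 : ℝ) : ℂ) * chk Φ y := by
    rw [h2, h1]
    have : Complex.I * Complex.I = -1 := Complex.I_mul_I
    push_cast
    linear_combination (2 * (Real.pi : ℂ) * y) ^ 2 * chk Φ y * this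
  have h4 : (2 * Real.pi * y) ^ 2 * ‖chk Φ y‖ ≤ ∫ ξ, ‖Φ₂ ξ‖ := by
    have h5 := norm_chk_le Φ₂ y
    rw [h3, norm_mul, norm_neg, Complex.norm_real, Real.norm_of_nonneg (sq_nonneg _)] at h5
    exact h5
  have h6 := norm_chk_le Φ y
  have h7 : y ^ 2 ≤ (2 * Real.pi * y) ^ 2 := by
    rw [mul_pow]
    have : (1 : ℝ) ≤ (2 * Real.pi) ^ 2 := by nlinarith [Real.pi_gt_three]
    nlinarith [sq_nonneg y]
  unfold w
  rw [mul_one_div, le_div_iff₀ (by positivity), one_mul]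
  nlinarith [norm_nonneg (chk Φ y)]

lemma continuous_chk {Φ : ℝ → ℂ} (hi : Integrable Φ) : Continuous (chk Φ) := by
  unfold chk
  refine continuous_of_dominated (bound := fun ξ => ‖Φ ξ‖) (fun y => ?_) (fun y => ?_) hi.norm ?_
  · exact (integrable_mul_ee hi y).aestronglyMeasurable
  · exact Eventually.of_forall fun ξ => by simp
  · exact Eventually.of_forall fun ξ => continuous_const.mul (continuous_ee.comp (by fun_prop))

/-- The multiplier `∏_{j < n} (1 + exp (-2 π i β ^ j ξ)) / 2`. -/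
noncomputable def pp (β : ℝ) (n : ℕ) (ξ : ℝ) : ℂ :=
  ∏ j ∈ Finset.range n, (1 + ee (-(β ^ j * ξ))) / 2

lemma contDiff_pp (β : ℝ) (n : ℕ) : ContDiff ℝ (⊤ : ℕ∞) (pp β n) := by
  unfold pp
  refine contDiff_prod fun j _ => ?_
  exact (contDiff_const.add (contDiff_ee.comp (by fun_prop))).div_const 2

lemma continuous_pp (β : ℝ) (n : ℕ) : Continuous (pp β n) := (contDiff_pp β n).continuous

lemma norm_pp_le (β : ℝ) (n : ℕ) (ξ : ℝ) : ‖pp β n ξ‖ ≤ 1 := by
  unfold pp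
  rw [norm_prod]
  refine Finset.prod_le_one (fun _ _ => norm_nonneg _) fun j _ => ?_
  rw [norm_div, Complex.norm_ofNat, div_le_one (by norm_num)]
  refine (norm_add_le _ _).trans ?_
  rw [norm_ee, norm_one]; norm_num

/-- Action of the transfer operator on inverse Fourier transforms. -/
lemma Pit_chk {β : ℝ} (n : ℕ) {Φ : ℝ → ℂ} (hi : Integrable Φ) (x : ℝ) :
    (P β)^[n] (chk Φ) x = (β : ℂ) ^ n * ∫ ξ, Φ ξ * pp β n ξ * ee (ξ * (β ^ n * x)) := by
  induction n generalizing x with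
  | zero => simp [pp, chk]
  | succ n ih =>
    rw [Function.iterate_succ_apply', P_apply, ih, ih]
    have hi' : Integrable (fun ξ => Φ ξ * pp β n ξ) := by
      refine hi.norm.mono' (hi.aestronglyMeasurable.mul (continuous_pp β n).aestronglyMeasurable)
        (Eventually.of_forall fun ξ => ?_)
      rw [norm_mul]
      exact mul_le_of_le_one_right (norm_nonneg _) (norm_pp_le β n ξ)
    rw [← mul_add, ← integral_add (integrable_mul_ee hi' _) (integrable_mul_ee hi' _),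
      Complex.real_smul, ← mul_assoc]
    have e : ∀ ξ : ℝ, Φ ξ * pp β n ξ * ee (ξ * (β ^ n * (β * x))) +
        Φ ξ * pp β n ξ * ee (ξ * (β ^ n * (β * x - 1))) =
        2 * (Φ ξ * pp β (n + 1) ξ * ee (ξ * (β ^ (n + 1) * x))) := by
      intro ξ
      have e1 : ξ * (β ^ n * (β * x - 1)) = ξ * (β ^ (n + 1) * x) + -(β ^ n * ξ) := by ring
      have e2 : ξ * (β ^ n * (β * x)) = ξ * (β ^ (n + 1) * x) := by ring
      rw [e1, e2, ee_add]
      unfold pp
      rw [Finset.prod_range_succ]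
      ring
    simp_rw [e]
    rw [integral_const_mul, ← mul_assoc]
    congr 1
    push_cast; ring

end Pool.Agent.helper31.Bernoulli
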