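import Pool.Agent.helper31.BernD

set_option autoImplicit false

/-!
# The Fourier transform of the Bernoulli convolution
-/

namespace Pool.Agent.helper31.Bernoulli

open MeasureTheory Measure Filter Topology Metric
open scoped ENNReal FourierTransform

/-- `φ (ξ) = ∫ exp (-2 π i ξ t) dν_β (t)`. -/
noncomputable def ph (β : ℝ) (ξ : ℝ) : ℂ := ∫ t, ee (-(ξ * t)) ∂(nu β)

lemma ph_zero (β : ℝ) : ph β 0 = 1 := by simp [ph]

lemma ph_mul {β : ℝ} (hβ : 1 < β) (ξ : ℝ) :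
    ph β (β * ξ) = (1 + ee (-ξ)) / 2 * ph β ξ := by
  have hβ0 : β ≠ 0 := by linarith
  unfold ph
  rw [integral_nu hβ (ψ := fun t => ee (-(β * ξ * t))) (continuous_ee.comp (by fun_prop)) (C := 1)
    (fun y => by simp)]
  have e1 : ∀ y : ℝ, ee (-(β * ξ * (y / β))) = ee (-(ξ * y)) := by
    intro y; congr 1; field_simp
  have e2 : ∀ y : ℝ, ee (-(ξ * (1 + y))) = ee (-ξ) * ee (-(ξ * y)) := by
    intro y; rw [← ee_add]; congr 1; ring
  simp only [e1, e2, integral_const_mul]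
  rw [Complex.real_smul]
  push_cast; ring

lemma pp_succ_left (β : ℝ) (n : ℕ) (ξ : ℝ) :
    pp β (n + 1) ξ = (1 + ee (-ξ)) / 2 * pp β n (β * ξ) := by
  unfold pp
  rw [Finset.prod_range_succ', mul_comm]
  congr 1
  · simp
  · refine Finset.prod_congr rfl fun j _ => ?_
    congr 3; ring

lemma pp_succ (β : ℝ) (n : ℕ) (ξ : ℝ) :
    pp β (n + 1) ξ = pp β n ξ * ((1 + ee (-(β ^ n * ξ))) / 2) := by
  unfold pp; rw [Finset.prod_range_succ]

lemma ph_pow_mul {β : ℝ} (hβ : 1 < β) (n : ℕ) (ξ : ℝ) :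
    ph β (β ^ n * ξ) = pp β n ξ * ph β ξ := by
  induction n with
  | zero => simp [pp]
  | succ n ih =>
    have : β ^ (n + 1) * ξ = β * (β ^ n * ξ) := by ring
    rw [this, ph_mul hβ, ih, pp_succ]; ring

lemma memLp_nu {β : ℝ} (hβ : 1 < β) (k : ℝ≥0∞) : MemLp (id : ℝ → ℝ) k (nu β) := by
  refine MemLp.of_bound (C := 1 / (β - 1)) measurable_id.aestronglyMeasurable ?_
  filter_upwards [ae_mem_I hβ] with t ht
  rw [id, Real.norm_of_nonneg ht.1]
  exact ht.2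

lemma ph_eq_charFun (β ξ : ℝ) : ph β ξ = charFun (nu β) (-(2 * Real.pi * ξ)) := by
  rw [charFun_apply_real]
  unfold ph ee
  congr 1; ext t; congr 1; push_cast; ring

lemma contDiff_ph {β : ℝ} (hβ : 1 < β) : ContDiff ℝ (⊤ : ℕ∞) (ph β) := by
  have h1 : ContDiff ℝ (⊤ : ℕ∞) (charFun (nu β)) :=
    contDiff_charFun' fun k => memLp_nu hβ k
  have h2 : ph β = charFun (nu β) ∘ fun ξ => -(2 * Real.pi * ξ) := by
    ext ξ; exact ph_eq_charFun β ξ
  rw [h2]
  exact h1.comp (by fun_prop)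

lemma continuous_ph {β : ℝ} (hβ : 1 < β) : Continuous (ph β) := (contDiff_ph hβ).continuous

/-- Riemann-Lebesgue. -/
lemma tendsto_ph {β : ℝ} (hac : nu β ≪ volume) :
    Tendsto (ph β) (cocompact ℝ) (𝓝 0) := by
  have h := Real.tendsto_integral_exp_smul_cocompact (fun t => ((dens β t : ℝ) : ℂ))
  refine h.congr fun ξ => ?_
  have h1 : ph β ξ = ∫ t, dens β t • ee (-(ξ * t)) := by
    simp only [ph, dens]
    exact (integral_rnDeriv_smul hac).symm
  rw [h1]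
  congr 1; ext t
  rw [Circle.smul_def, Real.fourierChar_apply, smul_eq_mul, Complex.real_smul, mul_comm]
  unfold ee
  congr 3
  ring

lemma one_add_ee_eq_zero {u : ℝ} (h : 1 + ee (-u) = 0) : ∃ l : ℤ, u = l + 1 / 2 := by
  have h1 : Complex.exp (((2 * Real.pi * (-u) : ℝ) : ℂ) * Complex.I) =
      Complex.exp (Real.pi * Complex.I) := by
    rw [Complex.exp_pi_mul_I]
    exact eq_neg_of_add_eq_zero_right h
  rw [Complex.exp_eq_exp_iff_exists_int] at h1
  obtain ⟨n, hn⟩ := h1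
  have h2 : (((2 * Real.pi * (-u) : ℝ) : ℂ)) * Complex.I =
      ((Real.pi + n * (2 * Real.pi) : ℝ) : ℂ) * Complex.I := by
    rw [hn]; push_cast; ring
  have h3 := mul_right_cancel₀ Complex.I_ne_zero h2
  have h4 : (2 * Real.pi * (-u) : ℝ) = Real.pi + n * (2 * Real.pi) := by exact_mod_cast h3
  refine ⟨-n - 1, ?_⟩
  have h5 : Real.pi * (-2 * u) = Real.pi * (1 + 2 * n) := by linarith
  have h6 := mul_left_cancel₀ Real.pi_ne_zero h5
  push_cast; linarith

/-- Zeros of `φ`. -/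
lemma ph_eq_zero {β : ℝ} (hβ : 1 < β) {ξ : ℝ} (h : ph β ξ = 0) :
    ∃ (k : ℕ) (l : ℤ), 1 ≤ k ∧ ξ = β ^ k * (l + 1 / 2) := by
  have hβ0 : 0 < β := by linarith
  have h1 : Tendsto (fun n : ℕ => ph β (ξ / β ^ n)) atTop (𝓝 1) := by
    have h2 : Tendsto (fun n : ℕ => ξ / β ^ n) atTop (𝓝 0) :=
      tendsto_const_nhds.div_atTop (tendsto_pow_atTop_atTop_of_one_lt hβ)
    have h3 := (continuous_ph hβ).continuousAt.tendsto.comp h2
    rw [ph_zero] at h3
    exact h3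
  have h4 : ∀ᶠ n : ℕ in atTop, ph β (ξ / β ^ n) ≠ 0 := h1.eventually_ne one_ne_zero
  obtain ⟨n, hn⟩ := h4.exists
  have h5 := ph_pow_mul hβ n (ξ / β ^ n)
  have h6 : β ^ n * (ξ / β ^ n) = ξ := by field_simp
  rw [h6, h] at h5
  have h7 : pp β n (ξ / β ^ n) = 0 := by
    rcases mul_eq_zero.1 h5.symm with h | h
    · exact h
    · exact absurd h hn
  unfold pp at h7
  rw [Finset.prod_eq_zero_iff] at h7
  obtain ⟨j, hj, hj2⟩ := h7
  rw [Finset.mem_range] at hj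
  have h8 : 1 + ee (-(β ^ j * (ξ / β ^ n))) = 0 := by
    rcases div_eq_zero_iff.1 hj2 with h | h
    · exact h
    · norm_num at h
  obtain ⟨l, hl⟩ := one_add_ee_eq_zero h8
  refine ⟨n - j, l, by omega, ?_⟩
  rw [← hl]
  have h9 : β ^ (n - j) * β ^ j = β ^ n := by rw [← pow_add]; congr 1; omega
  have h10 : β ^ n ≠ 0 := by positivity
  rw [← mul_assoc, h9]; field_simp

lemma finite_zeros {β : ℝ} (hβ : 1 < β) (R : ℝ) :
    {ξ : ℝ | |ξ| ≤ R ∧ ph β ξ = 0}.Finite := by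
  have hβ0 : 0 < β := by linarith
  have h1 : ∀ᶠ u in 𝓝 (0 : ℝ), ph β u ≠ 0 := by
    have := (continuous_ph hβ).continuousAt (x := 0)
    refine this.eventually_ne ?_
    rw [ph_zero]; exact one_ne_zero
  obtain ⟨r, hr, h2⟩ := Metric.eventually_nhds_iff.1 h1
  obtain ⟨K, hK⟩ : ∃ K : ℕ, |R| / β ^ K < r := by
    have h3 : Tendsto (fun n : ℕ => |R| / β ^ n) atTop (𝓝 0) :=
      tendsto_const_nhds.div_atTop (tendsto_pow_atTop_atTop_of_one_lt hβ)
    exact (h3.eventually (gt_mem_nhds hr)).exists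
  have hfin : (Set.image2 (fun (j : ℕ) (l : ℤ) => β ^ j * ((l : ℝ) + 1 / 2))
      (Set.Iic K) (Set.Icc ⌊-R - 1⌋ ⌈R + 1⌉)).Finite :=
    (Set.finite_Iic K).image2 _ (Set.finite_Icc _ _)
  refine hfin.subset ?_
  rintro ξ ⟨hξ, h0⟩
  have h5 := ph_pow_mul hβ K (ξ / β ^ K)
  have h6 : β ^ K * (ξ / β ^ K) = ξ := by field_simp
  rw [h6, h0] at h5
  have hne : ph β (ξ / β ^ K) ≠ 0 := by
    apply h2
    rw [dist_zero_right, Real.norm_eq_abs, abs_div, abs_of_pos (by positivity : 0 < β ^ K)]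
    refine lt_of_le_of_lt ?_ hK
    have : |ξ| ≤ |R| := hξ.trans (le_abs_self R)
    gcongr
  have h7 : pp β K (ξ / β ^ K) = 0 := by
    rcases mul_eq_zero.1 h5.symm with h | h
    · exact h
    · exact absurd h hne
  unfold pp at h7
  rw [Finset.prod_eq_zero_iff] at h7
  obtain ⟨j, hj, hj2⟩ := h7
  rw [Finset.mem_range] at hj
  have h8 : 1 + ee (-(β ^ j * (ξ / β ^ K))) = 0 := by
    rcases div_eq_zero_iff.1 hj2 with h | h
    · exact h
    · norm_num at h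
  obtain ⟨l, hl⟩ := one_add_ee_eq_zero h8
  have h9 : β ^ (K - j) * β ^ j = β ^ K := by rw [← pow_add]; congr 1; omega
  have hξ2 : ξ = β ^ (K - j) * (l + 1 / 2) := by
    rw [← hl]
    have h10 : β ^ K ≠ 0 := by positivity
    rw [← mul_assoc, h9]; field_simp
  refine ⟨K - j, by simp, l, ?_, hξ2.symm⟩
  have h11 : |(l : ℝ) + 1 / 2| ≤ R := by
    have h12 : (1 : ℝ) ≤ β ^ (K - j) := one_le_pow₀ hβ.le
    rw [hξ2, abs_mul, abs_of_pos (by positivity : 0 < β ^ (K - j))] at hξ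
    have := abs_nonneg ((l : ℝ) + 1 / 2)
    nlinarith
  rw [abs_le] at h11
  rw [Set.mem_Icc]
  constructor
  · rw [← Int.cast_le (R := ℝ)]
    have := Int.floor_le (-R - 1)
    linarith
  · rw [← Int.cast_le (R := ℝ)]
    have := Int.le_ceil (R + 1)
    linarith

end Pool.Agent.helper31.Bernoulli
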