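import Pool.Agent.helper31.BernE

set_option autoImplicit false

/-!
# The products `∏ cos (π β ^ j ξ)` tend to zero
-/

namespace Pool.Agent.helper31.Bernoulli

open MeasureTheory Measure Filter Topology Metric
open scoped ENNReal FourierTransform

lemma norm_half (u : ℝ) : ‖(1 + ee (-u)) / 2‖ = |Real.cos (Real.pi * u)| := by
  have h1 : (1 + ee (-u)) / 2 = ee (-(u / 2)) * ((Real.cos (Real.pi * u) : ℝ) : ℂ) := by
    have e1 : ee (-u) = ee (-(u / 2)) * ee (-(u / 2)) := by rw [← ee_add]; congr 1; ring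
    have e2 : (1 : ℂ) = ee (-(u / 2)) * ee (u / 2) := by rw [← ee_add]; simp
    have e3 : ((Real.cos (Real.pi * u) : ℝ) : ℂ) = (ee (u / 2) + ee (-(u / 2))) / 2 := by
      rw [Complex.ofReal_cos, Complex.cos]
      unfold ee
      congr 2
      · congr 2; push_cast; ring
      · congr 1; push_cast; ring
    rw [e3]
    calc (1 + ee (-u)) / 2 = (ee (-(u / 2)) * ee (u / 2) + ee (-(u / 2)) * ee (-(u / 2))) / 2 := by
          rw [← e2, ← e1]
      _ = _ := by ring
  rw [h1, norm_mul, norm_ee, one_mul, Complex.norm_real, Real.norm_eq_abs]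

lemma norm_pp (β : ℝ) (m : ℕ) (ξ : ℝ) :
    ‖pp β m ξ‖ = ∏ j ∈ Finset.range m, |Real.cos (Real.pi * (β ^ j * ξ))| := by
  unfold pp
  rw [norm_prod]
  exact Finset.prod_congr rfl fun j _ => norm_half _

lemma pp_add (β : ℝ) (J m : ℕ) (ξ : ℝ) : pp β (J + m) ξ = pp β J ξ * pp β m (β ^ J * ξ) := by
  unfold pp
  rw [Finset.prod_range_add]
  congr 1
  refine Finset.prod_congr rfl fun j _ => ?_
  congr 4; ring

lemma tendsto_pow_mul_cocompact {β : ℝ} (hβ : 1 < β) {ξ : ℝ} (hξ : ξ ≠ 0) :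
    Tendsto (fun m : ℕ => β ^ m * ξ) atTop (cocompact ℝ) := by
  have hβ0 : 0 < β := by linarith
  rw [← Metric.cobounded_eq_cocompact, ← tendsto_norm_atTop_iff_cobounded]
  have h1 : Tendsto (fun m : ℕ => β ^ m * |ξ|) atTop atTop :=
    (tendsto_pow_atTop_atTop_of_one_lt hβ).atTop_mul_const (abs_pos.2 hξ)
  refine h1.congr fun m => ?_
  rw [Real.norm_eq_abs, abs_mul, abs_of_pos (by positivity : 0 < β ^ m)]

lemma ph_eq_zero_of_bound {β : ℝ} (hβ : 1 < β) (hac : nu β ≪ volume) {ξ : ℝ} (hξ : ξ ≠ 0)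
    {p : ℝ} (hp : 0 < p) (h : ∀ m, p ≤ ‖pp β m ξ‖) : ph β ξ = 0 := by
  have h1 := ((tendsto_ph hac).comp (tendsto_pow_mul_cocompact hβ hξ)).norm
  rw [norm_zero] at h1
  have h2 : ∀ m : ℕ, p * ‖ph β ξ‖ ≤ ‖(ph β ∘ fun m : ℕ => β ^ m * ξ) m‖ := by
    intro m
    simp only [Function.comp_apply]
    rw [ph_pow_mul hβ, norm_mul]
    exact mul_le_mul_of_nonneg_right (h m) (norm_nonneg _)
  have h3 : p * ‖ph β ξ‖ ≤ 0 := ge_of_tendsto' h1 h2
  have h4 : ‖ph β ξ‖ ≤ 0 := by
    by_contra h5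
    push Not at h5
    have := mul_pos hp h5
    linarith
  exact norm_le_zero_iff.1 h4

/-- The arithmetic core: `β ^ j ξ` cannot be asymptotically integral once a power of `β` is
rational and `1 < β < 2`. -/
lemma arith_core {β : ℝ} (hβ : 1 < β) (hβ2 : β < 2) {ξ : ℝ} (hξ : ξ ≠ 0)
    (hε : Tendsto (fun j : ℕ => β ^ j * ξ - round (β ^ j * ξ)) atTop (𝓝 0))
    {s : ℕ} (hs : 1 ≤ s) {u v : ℤ} (hv : v ≠ 0) (huv : (v : ℝ) * β ^ s = u) : False := by
  have hβ0 : 0 < β := by linarith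
  set n : ℕ → ℤ := fun j => round (β ^ j * ξ) with hn
  set ε : ℕ → ℝ := fun j => β ^ j * ξ - n j with hεdef
  have hε0 : Tendsto ε atTop (𝓝 0) := hε
  have hD : ∀ j, ((v * n (j + s) - u * n j : ℤ) : ℝ) = u * ε j - v * ε (j + s) := by
    intro j
    simp only [hεdef]
    push_cast
    rw [← huv]
    ring
  have hlim : Tendsto (fun j => (u : ℝ) * ε j - v * ε (j + s)) atTop (𝓝 0) := by
    have h1 := (hε0.const_mul (u : ℝ)).sub
      (((tendsto_add_atTop_iff_nat s).2 hε0).const_mul (v : ℝ))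
    simpa using h1
  have hev : ∀ᶠ j in atTop, |(u : ℝ) * ε j - v * ε (j + s)| < 1 := by
    have h1 := hlim.abs
    rw [abs_zero] at h1
    exact h1.eventually (gt_mem_nhds one_pos)
  obtain ⟨J, hJ⟩ := eventually_atTop.1 hev
  have hstep : ∀ j, J ≤ j → ε (j + s) = β ^ s * ε j := by
    intro j hj
    have h1 := hJ j hj
    rw [← hD j, ← Int.cast_abs] at h1
    have h2 : |v * n (j + s) - u * n j| < 1 := by exact_mod_cast h1
    have h3 : v * n (j + s) - u * n j = 0 := Int.abs_lt_one_iff.1 h2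
    have h4 := hD j
    rw [h3] at h4
    have hv' : (v : ℝ) ≠ 0 := by exact_mod_cast hv
    apply mul_left_cancel₀ hv'
    rw [← mul_assoc, huv]
    push_cast at h4
    linarith
  have hiter : ∀ j, J ≤ j → ∀ i : ℕ, ε (j + i * s) = (β ^ s) ^ i * ε j := by
    intro j hj i
    induction i with
    | zero => simp
    | succ i ih =>
      have h1 : j + (i + 1) * s = (j + i * s) + s := by ring
      rw [h1, hstep _ (by omega), ih]; ring
  have hzero : ∀ j, J ≤ j → ε j = 0 := by
    intro j hj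
    have h1 : Tendsto (fun i : ℕ => |ε (j + i * s)|) atTop (𝓝 0) := by
      have h2 : Tendsto (fun i : ℕ => j + i * s) atTop atTop := by
        refine tendsto_atTop_mono (fun i => ?_) tendsto_id
        simp only [id]
        nlinarith
      have h3 := (hε0.comp h2).abs
      rw [abs_zero] at h3
      exact h3
    have h4 : |ε j| ≤ 0 := by
      refine ge_of_tendsto' h1 fun i => ?_
      rw [hiter j hj i, abs_mul]
      have h5 : 1 ≤ |(β ^ s) ^ i| := by
        rw [abs_of_pos (by positivity)]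
        exact one_le_pow₀ (one_le_pow₀ hβ.le)
      nlinarith [abs_nonneg (ε j)]
    exact abs_eq_zero.1 (le_antisymm h4 (abs_nonneg _))
  have hint : ∀ r j : ℕ, J ≤ j → ∃ z : ℤ, (β - 1) ^ r * (β ^ j * ξ) = z := by
    intro r
    induction r with
    | zero =>
      intro j hj
      refine ⟨n j, ?_⟩
      have := hzero j hj
      simp only [hεdef] at this
      rw [pow_zero, one_mul]; linarith
    | succ r ih =>
      intro j hj
      obtain ⟨z1, hz1⟩ := ih j hj
      obtain ⟨z2, hz2⟩ := ih (j + 1) (by omega)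
      refine ⟨z2 - z1, ?_⟩
      push_cast
      rw [← hz1, ← hz2]; ring
  have hsmall : Tendsto (fun r : ℕ => |(β - 1) ^ r * (β ^ J * ξ)|) atTop (𝓝 0) := by
    have h1 := (tendsto_pow_atTop_nhds_zero_of_lt_one (r := β - 1) (by linarith)
      (by linarith)).mul_const (β ^ J * ξ)
    have h2 := h1.abs
    simpa using h2
  obtain ⟨r, hr⟩ := (hsmall.eventually (gt_mem_nhds one_pos)).exists
  obtain ⟨z, hz⟩ := hint r J le_rfl
  rw [hz, ← Int.cast_abs] at hr
  have h2 : |z| < 1 := by exact_mod_cast hr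
  have h3 : z = 0 := Int.abs_lt_one_iff.1 h2
  rw [h3, Int.cast_zero] at hz
  have h4 : (β - 1) ^ r * (β ^ J * ξ) ≠ 0 := by
    have : 0 < β - 1 := by linarith
    positivity
  exact h4 hz

lemma tendsto_pp {β : ℝ} (hβ : 1 < β) (hβ2 : β < 2) (hac : nu β ≪ volume) {ξ : ℝ}
    (hξ : ξ ≠ 0) : Tendsto (fun m => ‖pp β m ξ‖) atTop (𝓝 0) := by
  have hβ0 : 0 < β := by linarith
  have hanti : Antitone (fun m => ‖pp β m ξ‖) := by
    refine antitone_nat_of_succ_le fun m => ?_
    rw [pp_succ, norm_mul, norm_half]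
    exact mul_le_of_le_one_right (norm_nonneg _) (Real.abs_cos_le_one _)
  have hbdd : BddBelow (Set.range fun m => ‖pp β m ξ‖) :=
    ⟨0, by rintro _ ⟨m, rfl⟩; exact norm_nonneg _⟩
  have hlim := tendsto_atTop_ciInf hanti hbdd
  set p := ⨅ m, ‖pp β m ξ‖ with hp
  have hp0 : 0 ≤ p := le_ciInf fun m => norm_nonneg _
  rcases hp0.eq_or_lt with h0 | hpos
  · rw [← h0] at hlim; exact hlim
  exfalso
  have hle : ∀ m, p ≤ ‖pp β m ξ‖ := fun m => ciInf_le hbdd m
  -- factors tend to one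
  have hc : Tendsto (fun j : ℕ => |Real.cos (Real.pi * (β ^ j * ξ))|) atTop (𝓝 1) := by
    have h1 : Tendsto (fun m => ‖pp β (m + 1) ξ‖ / ‖pp β m ξ‖) atTop (𝓝 (p / p)) :=
      ((tendsto_add_atTop_iff_nat 1).2 hlim).div hlim hpos.ne'
    rw [div_self hpos.ne'] at h1
    refine h1.congr fun m => ?_
    have h2 : ‖pp β m ξ‖ ≠ 0 := (lt_of_lt_of_le hpos (hle m)).ne'
    rw [pp_succ, norm_mul, norm_half]
    field_simp
  -- distances to integers tend to zero
  have hε : Tendsto (fun j : ℕ => β ^ j * ξ - round (β ^ j * ξ)) atTop (𝓝 0) := by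
    have h1 : ∀ j : ℕ, (β ^ j * ξ - round (β ^ j * ξ)) ^ 2 ≤
        1 - |Real.cos (Real.pi * (β ^ j * ξ))| ^ 2 := by
      intro j
      set x := β ^ j * ξ
      set e := x - round x with he
      have h2 : |e| ≤ 1 / 2 := abs_sub_round x
      have h3 : |Real.cos (Real.pi * x)| = |Real.cos (Real.pi * e)| := by
        have : Real.pi * x = Real.pi * e + (round x : ℤ) * Real.pi := by rw [he]; ring
        rw [this, Real.cos_add_int_mul_pi, abs_mul]
        simp
      rw [h3, sq_abs, ← Real.sin_sq]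
      have h4 : |e| ≤ |Real.sin (Real.pi * e)| := by
        have h5 : |Real.sin (Real.pi * e)| = Real.sin (Real.pi * |e|) := by
          rcases abs_cases e with ⟨h6, h7⟩ | ⟨h6, h7⟩
          · rw [h6, abs_of_nonneg]
            exact Real.sin_nonneg_of_nonneg_of_le_pi (by positivity)
              (by nlinarith [Real.pi_pos])
          · rw [h6]
            have : Real.sin (Real.pi * -e) = - Real.sin (Real.pi * e) := by
              rw [mul_neg, Real.sin_neg]
            rw [this, abs_of_nonpos]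
            have h8 : 0 ≤ Real.sin (Real.pi * -e) :=
              Real.sin_nonneg_of_nonneg_of_le_pi (by nlinarith [Real.pi_pos])
                (by nlinarith [Real.pi_pos])
            rw [this] at h8; linarith
        rw [h5]
        have h9 := Real.mul_le_sin (x := Real.pi * |e|) (by positivity)
          (by nlinarith [Real.pi_pos])
        have h10 : 2 / Real.pi * (Real.pi * |e|) = 2 * |e| := by
          field_simp
        rw [h10] at h9
        linarith [abs_nonneg e]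
      rw [← sq_abs e, ← sq_abs (Real.sin _)]
      exact pow_le_pow_left₀ (abs_nonneg _) h4 2
    have h2 : Tendsto (fun j : ℕ => 1 - |Real.cos (Real.pi * (β ^ j * ξ))| ^ 2) atTop (𝓝 0) := by
      have := (hc.pow 2).const_sub 1
      simpa using this
    have h3 : Tendsto (fun j : ℕ => (β ^ j * ξ - round (β ^ j * ξ)) ^ 2) atTop (𝓝 0) :=
      squeeze_zero (fun _ => sq_nonneg _) h1 h2
    have h4 := h3.sqrt
    rw [Real.sqrt_zero] at h4
    rw [tendsto_zero_iff_abs_tendsto_zero]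
    refine h4.congr fun j => ?_
    rw [Real.sqrt_sq_eq_abs]; rfl
  -- choose J
  have hev : ∀ᶠ j : ℕ in atTop, (4 / 5 : ℝ) < |Real.cos (Real.pi * (β ^ j * ξ))| :=
    hc.eventually (lt_mem_nhds (by norm_num))
  obtain ⟨J, hJ⟩ := eventually_atTop.1 hev
  have hpp2 : ∀ m, p ^ 8 ≤ ‖pp β m (2 * (β ^ J * ξ))‖ := by
    intro m
    have h1 : p ≤ ‖pp β m (β ^ J * ξ)‖ := by
      refine (hle (J + m)).trans ?_
      rw [pp_add, norm_mul]
      exact mul_le_of_le_one_left (norm_nonneg _) (norm_pp_le β J ξ)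
    refine (pow_le_pow_left₀ hp0 h1 8).trans ?_
    rw [norm_pp, norm_pp, ← Finset.prod_pow]
    refine Finset.prod_le_prod (fun _ _ => by positivity) fun j _ => ?_
    have h2 := hJ (J + j) (by omega)
    have e1 : β ^ (J + j) * ξ = β ^ j * (β ^ J * ξ) := by ring
    rw [e1] at h2
    have e2 : Real.pi * (β ^ j * (2 * (β ^ J * ξ))) = 2 * (Real.pi * (β ^ j * (β ^ J * ξ))) := by
      ring
    rw [e2, Real.cos_two_mul]
    set c := Real.cos (Real.pi * (β ^ j * (β ^ J * ξ)))
    have h3 : |c| ≤ 1 := Real.abs_cos_le_one _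
    have h4 : |c| ^ 2 = c ^ 2 := sq_abs c
    have h5 : c ^ 2 ≤ 1 := by rw [← h4]; nlinarith [abs_nonneg c]
    have h6 : 16 / 25 ≤ c ^ 2 := by rw [← h4]; nlinarith
    have h7 : |c| ^ 8 = (c ^ 2) ^ 4 := by rw [← h4]; ring
    rw [h7]
    refine le_trans ?_ (le_abs_self _)
    set t := c ^ 2
    have h8 : 2 * t - 1 - t ^ 4 = (1 - t) * (t ^ 3 + t ^ 2 + t - 1) := by ring
    have h9 : 0 ≤ t ^ 3 + t ^ 2 + t - 1 := by nlinarith [pow_nonneg (by linarith : 0 ≤ t) 3]
    nlinarith [mul_nonneg (by linarith : 0 ≤ 1 - t) h9]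
  have hz1 := ph_eq_zero_of_bound hβ hac hξ hpos hle
  have hξ2 : 2 * (β ^ J * ξ) ≠ 0 := by positivity
  have hz2 := ph_eq_zero_of_bound hβ hac hξ2 (by positivity : 0 < p ^ 8) hpp2
  obtain ⟨k, l, -, hk⟩ := ph_eq_zero hβ hz1
  obtain ⟨k', l', -, hk'⟩ := ph_eq_zero hβ hz2
  rw [hk] at hk'
  have hrel : β ^ (J + k) * (2 * (2 * l + 1)) = β ^ k' * (2 * l' + 1) := by
    rw [pow_add]
    linear_combination 2 * hk'
  rcases lt_trichotomy (J + k) k' with hlt | heq | hgt
  · refine arith_core hβ hβ2 hξ hε (s := k' - (J + k)) (by omega) (u := 2 * (2 * l + 1))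
      (v := 2 * l' + 1) (by omega) ?_
    have h1 : β ^ k' = β ^ (J + k) * β ^ (k' - (J + k)) := by rw [← pow_add]; congr 1; omega
    rw [h1, mul_assoc] at hrel
    have h2 := mul_left_cancel₀ (by positivity : β ^ (J + k) ≠ 0) hrel
    push_cast
    linarith
  · rw [heq] at hrel
    have h2 := mul_left_cancel₀ (by positivity : β ^ k' ≠ 0) hrel
    have h3 : (2 * (2 * l + 1) : ℤ) = 2 * l' + 1 := by exact_mod_cast h2
    omega
  · refine arith_core hβ hβ2 hξ hε (s := J + k - k') (by omega) (u := 2 * l' + 1)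
      (v := 2 * (2 * l + 1)) (by omega) ?_
    have h1 : β ^ (J + k) = β ^ k' * β ^ (J + k - k') := by rw [← pow_add]; congr 1; omega
    rw [h1, mul_assoc] at hrel
    have h2 := mul_left_cancel₀ (by positivity : β ^ k' ≠ 0) hrel
    push_cast
    linarith

end Pool.Agent.helper31.Bernoulli
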