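import Pool.Agent.helper31.BernF

set_option autoImplicit false

/-!
# Convergence against band-limited test functions
-/

namespace Pool.Agent.helper31.Bernoulli

open MeasureTheory Measure Filter Topology Metric
open scoped ENNReal FourierTransform

lemma Pit_chk_le {β : ℝ} (hβ : 1 < β) {x M : ℝ} (hM : ∀ ρ, 0 < ρ → V β (w ρ) x ≤ M)
    {ψ : ℝ → ℂ} {N ρ : ℝ} (hN : 0 ≤ N) (hρ : 0 < ρ) (hρ1 : ρ ≤ 1)
    (hψ : ∀ y, ‖ψ y‖ ≤ N * w ρ y) (n : ℕ) :
    ‖(P β)^[n] ψ x‖ ≤ N * (cst β * M) := by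
  have hβ0 : 0 < β := by linarith
  refine (norm_Pit_le hβ0 n ψ x).trans ?_
  refine (Pit_mono hβ0 n (ψ₂ := N • w ρ) (fun y => by simpa using hψ y) x).trans ?_
  rw [Pit_smul, Pi.smul_apply, smul_eq_mul]
  exact mul_le_mul_of_nonneg_left (Pit_w_le hβ hM hρ hρ1 n) hN

/-- Closure under approximation. -/
lemma tendsto_of_approx {β : ℝ} {x : ℝ} {ψ : ℝ → ℂ} {L : ℂ}
    (h : ∀ ε > 0, ∃ ψ' : ℝ → ℂ, Tendsto (fun n => (P β)^[n] ψ' x) atTop (𝓝 L) ∧
      ∀ᶠ n in atTop, ‖(P β)^[n] ψ x - (P β)^[n] ψ' x‖ ≤ ε) :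
    Tendsto (fun n => (P β)^[n] ψ x) atTop (𝓝 L) := by
  rw [Metric.tendsto_nhds]
  intro ε hε
  obtain ⟨ψ', h1, h2⟩ := h (ε / 2) (by positivity)
  filter_upwards [h2, Metric.tendsto_nhds.1 h1 (ε / 2) (by positivity)] with n h3 h4
  calc dist ((P β)^[n] ψ x) L ≤ dist ((P β)^[n] ψ x) ((P β)^[n] ψ' x) +
        dist ((P β)^[n] ψ' x) L := dist_triangle _ _ _
    _ < ε / 2 + ε / 2 := by rw [dist_eq_norm]; exact add_lt_add_of_le_of_lt h3 h4
    _ = ε := by ring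

/-- The transfer operator applied `m` times to a localised test function. -/
lemma Pit_chk_loc {β : ℝ} (hβ : 1 < β) (m : ℕ) {Φ b : ℝ → ℂ} (hΦ : Continuous Φ)
    (hb : Continuous b) (hbc : HasCompactSupport b) (ξ₀ : ℝ) {δ : ℝ} (hδ : 0 < δ) (y : ℝ) :
    (P β)^[m] (chk fun ξ => Φ ξ * b ((ξ - ξ₀) / δ)) y =
      ((β ^ m * δ : ℝ) : ℂ) * (ee (ξ₀ * (β ^ m * y)) *
        chk (fun s => Φ (ξ₀ + δ * s) * pp β m (ξ₀ + δ * s) * b s) ((β ^ m * δ) * y)) := by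
  have hbc' : HasCompactSupport (fun ξ => Φ ξ * b ((ξ - ξ₀) / δ)) := by
    have h1 : HasCompactSupport (fun ξ : ℝ => b ((ξ - ξ₀) / δ)) := by
      have e : (fun ξ : ℝ => b ((ξ - ξ₀) / δ)) = b ∘ ((Homeomorph.addRight (-ξ₀)).trans
          (Homeomorph.mulRight₀ δ⁻¹ (inv_ne_zero hδ.ne'))) := by
        ext ξ; simp [div_eq_mul_inv, sub_eq_add_neg]
      rw [e]
      exact hbc.comp_homeomorph _
    exact h1.mul_left
  have hcont : Continuous (fun ξ => Φ ξ * b ((ξ - ξ₀) / δ)) := by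
    refine hΦ.mul (hb.comp (by fun_prop))
  rw [Pit_chk m (hcont.integrable_of_hasCompactSupport hbc')]
  set g : ℝ → ℂ := fun ξ => Φ ξ * b ((ξ - ξ₀) / δ) * pp β m ξ * ee (ξ * (β ^ m * y)) with hg
  have h1 : ∫ ξ, g ξ = (δ : ℂ) * ∫ s, g (ξ₀ + δ * s) := by
    have h2 := Measure.integral_comp_mul_left (fun u => g (ξ₀ + u)) δ
    have h3 : ∫ u, g (ξ₀ + u) = ∫ u, g u := integral_add_left_eq_self g ξ₀
    rw [h3, abs_of_pos (by positivity)] at h2
    rw [h2, Complex.real_smul, ← mul_assoc, Complex.ofReal_inv, mul_inv_cancel₀, one_mul]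
    exact_mod_cast hδ.ne'
  rw [h1]
  have h4 : ∀ s, g (ξ₀ + δ * s) = ee (ξ₀ * (β ^ m * y)) *
      (Φ (ξ₀ + δ * s) * pp β m (ξ₀ + δ * s) * b s * ee (s * (β ^ m * δ * y))) := by
    intro s
    simp only [hg]
    have e1 : (ξ₀ + δ * s - ξ₀) / δ = s := by field_simp; ring
    have e2 : (ξ₀ + δ * s) * (β ^ m * y) = ξ₀ * (β ^ m * y) + s * (β ^ m * δ * y) := by ring
    rw [e1, e2, ee_add]; ring
  simp_rw [h4]
  unfold chk
  rw [integral_const_mul]
  push_cast; ring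

/-- Smallness of localised test functions at a point where the products tend to zero. -/
lemma loc_small {β : ℝ} (hβ : 1 < β) {x M : ℝ} (hM0 : 0 ≤ M)
    (hM : ∀ ρ, 0 < ρ → V β (w ρ) x ≤ M) {Φ b : ℝ → ℂ}
    (hΦ : ContDiff ℝ (⊤ : ℕ∞) Φ) (hΦc : HasCompactSupport Φ)
    (hb : ContDiff ℝ (⊤ : ℕ∞) b) (hbc : HasCompactSupport b) (hb2 : ∀ s, 2 < |s| → b s = 0)
    {ξ₀ : ℝ} (hξ : Tendsto (fun m => ‖pp β m ξ₀‖) atTop (𝓝 0)) {ε : ℝ} (hε : 0 < ε) :
    ∀ᶠ δ in 𝓝[>] (0 : ℝ), ∀ᶠ n in atTop,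
      ‖(P β)^[n] (chk fun ξ => Φ ξ * b ((ξ - ξ₀) / δ)) x‖ ≤ ε := by
  have hβ0 : 0 < β := by linarith
  -- derivatives of b
  have db0 : ∀ s, HasDerivAt b (deriv b s) s := fun s =>
    (hb.differentiable (by simp) s).hasDerivAt
  have hb1 : ContDiff ℝ (⊤ : ℕ∞) (deriv b) := ((contDiff_succ_iff_deriv (n := (⊤ : ℕ∞))).1 hb).2.2
  have db1 : ∀ s, HasDerivAt (deriv b) (deriv (deriv b) s) s := fun s =>
    (hb1.differentiable (by simp) s).hasDerivAt
  have hb2' : ContDiff ℝ (⊤ : ℕ∞) (deriv (deriv b)) :=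
    ((contDiff_succ_iff_deriv (n := (⊤ : ℕ∞))).1 hb1).2.2
  have hbc1 : HasCompactSupport (deriv b) := hbc.deriv
  have hbc2 : HasCompactSupport (deriv (deriv b)) := hbc1.deriv
  have ib0 : Integrable b := hb.continuous.integrable_of_hasCompactSupport hbc
  have ib1 : Integrable (deriv b) := hb1.continuous.integrable_of_hasCompactSupport hbc1
  have ib2 : Integrable (deriv (deriv b)) := hb2'.continuous.integrable_of_hasCompactSupport hbc2
  have z1 : ∀ s, 2 < |s| → deriv b s = 0 := by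
    intro s hs
    have : b =ᶠ[𝓝 s] fun _ => 0 := by
      have ho : IsOpen {s : ℝ | 2 < |s|} := isOpen_lt continuous_const continuous_abs
      filter_upwards [ho.mem_nhds hs] with t ht using hb2 t ht
    rw [this.deriv_eq]; simp
  have z2 : ∀ s, 2 < |s| → deriv (deriv b) s = 0 := by
    intro s hs
    have : deriv b =ᶠ[𝓝 s] fun _ => 0 := by
      have ho : IsOpen {s : ℝ | 2 < |s|} := isOpen_lt continuous_const continuous_abs
      filter_upwards [ho.mem_nhds hs] with t ht using z1 t ht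
    rw [this.deriv_eq]; simp
  set B0 := ∫ s, ‖b s‖ with hB0
  set B1 := ∫ s, ‖deriv b s‖ with hB1
  set B2 := ∫ s, ‖deriv (deriv b) s‖ with hB2
  have B0n : 0 ≤ B0 := integral_nonneg fun _ => norm_nonneg _
  have B1n : 0 ≤ B1 := integral_nonneg fun _ => norm_nonneg _
  have B2n : 0 ≤ B2 := integral_nonneg fun _ => norm_nonneg _
  set K := cst β * M with hK
  have hK0 : 0 ≤ K := mul_nonneg (cst_pos β).le hM0
  -- choose eta and m
  set η := ε / (2 * ((B0 + B2) * K + 1)) with hη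
  have hden : 0 < 2 * ((B0 + B2) * K + 1) := by positivity
  have hηpos : 0 < η := by positivity
  have hηK : η * (B0 + B2) * K < ε := by
    rw [hη, div_mul_eq_mul_div, div_mul_eq_mul_div, div_lt_iff₀ hden]
    nlinarith [mul_nonneg (add_nonneg B0n B2n) hK0]
  obtain ⟨m, hm⟩ : ∃ m, ‖Φ ξ₀ * pp β m ξ₀‖ < η := by
    have h1 := hξ.const_mul ‖Φ ξ₀‖
    rw [mul_zero] at h1
    obtain ⟨m, hm⟩ := (h1.eventually (gt_mem_nhds hηpos)).exists
    exact ⟨m, by rw [norm_mul]; exact hm⟩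
  set Q : ℝ → ℂ := fun ξ => Φ ξ * pp β m ξ with hQ
  have cQ : ContDiff ℝ (⊤ : ℕ∞) Q := hΦ.mul (contDiff_pp β m)
  have sQ : HasCompactSupport Q := hΦc.mul_right
  have dQ0 : ∀ s, HasDerivAt Q (deriv Q s) s := fun s =>
    (cQ.differentiable (by simp) s).hasDerivAt
  have cQ1 : ContDiff ℝ (⊤ : ℕ∞) (deriv Q) := ((contDiff_succ_iff_deriv (n := (⊤ : ℕ∞))).1 cQ).2.2
  have dQ1 : ∀ s, HasDerivAt (deriv Q) (deriv (deriv Q) s) s := fun s =>
    (cQ1.differentiable (by simp) s).hasDerivAt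
  have cQ2 : ContDiff ℝ (⊤ : ℕ∞) (deriv (deriv Q)) :=
    ((contDiff_succ_iff_deriv (n := (⊤ : ℕ∞))).1 cQ1).2.2
  obtain ⟨q1, hq1⟩ := cQ1.continuous.bounded_above_of_compact_support sQ.deriv
  obtain ⟨q2, hq2⟩ := cQ2.continuous.bounded_above_of_compact_support sQ.deriv.deriv
  have q1n : 0 ≤ q1 := (norm_nonneg _).trans (hq1 0)
  have q2n : 0 ≤ q2 := (norm_nonneg _).trans (hq2 0)
  -- conditions on delta
  have c1 : ∀ᶠ δ in 𝓝[>] (0 : ℝ), (η * (B0 + B2) + δ * (2 * q1 * B1) + δ ^ 2 * (q2 * B0)) * K < ε := by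
    have hc : Continuous fun δ : ℝ =>
        (η * (B0 + B2) + δ * (2 * q1 * B1) + δ ^ 2 * (q2 * B0)) * K := by fun_prop
    have h1 := (hc.tendsto 0).mono_left (nhdsWithin_le_nhds (s := Set.Ioi 0))
    refine h1.eventually (gt_mem_nhds ?_)
    simpa using hηK
  have c2 : ∀ᶠ δ in 𝓝[>] (0 : ℝ), ∀ s, |s| ≤ 2 → ‖Q (ξ₀ + δ * s)‖ ≤ η := by
    have h1 : ∀ᶠ u in 𝓝 ξ₀, ‖Q u‖ < η := (cQ.continuous.norm.tendsto ξ₀).eventually
      (gt_mem_nhds hm)
    obtain ⟨r, hr, h2⟩ := Metric.eventually_nhds_iff.1 h1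
    have h3 : ∀ᶠ δ in 𝓝[>] (0 : ℝ), δ < r / 2 :=
      (gt_mem_nhds (by positivity : (0 : ℝ) < r / 2)).filter_mono nhdsWithin_le_nhds
    filter_upwards [h3, self_mem_nhdsWithin] with δ hδ hδ0 s hs
    have hδ0' : (0 : ℝ) < δ := hδ0
    refine (h2 ?_).le
    rw [Real.dist_eq, add_sub_cancel_left, abs_mul, abs_of_pos hδ0']
    nlinarith [abs_nonneg s]
  have c3 : ∀ᶠ δ in 𝓝[>] (0 : ℝ), β ^ m * δ ≤ 1 := by
    have hc : Continuous fun δ : ℝ => β ^ m * δ := by fun_prop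
    have h1 := (hc.tendsto 0).mono_left (nhdsWithin_le_nhds (s := Set.Ioi 0))
    simp only [mul_zero] at h1
    filter_upwards [h1.eventually (gt_mem_nhds one_pos)] with δ hδ using hδ.le
  filter_upwards [c1, c2, c3, self_mem_nhdsWithin] with δ hδ1 hδ2 hδ3 hδ0
  have hδ : (0 : ℝ) < δ := hδ0
  set Ψ : ℝ → ℂ := fun s => Φ (ξ₀ + δ * s) * pp β m (ξ₀ + δ * s) * b s with hΨ
  have haff : ∀ s : ℝ, HasDerivAt (fun s => ξ₀ + δ * s) δ s := by
    intro s
    have := ((hasDerivAt_id s).const_mul δ).const_add ξ₀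
    simpa using this
  set Ψ₁ : ℝ → ℂ := fun s => (δ : ℂ) * deriv Q (ξ₀ + δ * s) * b s + Q (ξ₀ + δ * s) * deriv b s
    with hΨ₁
  set Ψ₂ : ℝ → ℂ := fun s => (δ : ℂ) ^ 2 * deriv (deriv Q) (ξ₀ + δ * s) * b s +
    2 * (δ : ℂ) * deriv Q (ξ₀ + δ * s) * deriv b s + Q (ξ₀ + δ * s) * deriv (deriv b) s with hΨ₂
  have dQc : ∀ s, HasDerivAt (fun s => Q (ξ₀ + δ * s)) ((δ : ℂ) * deriv Q (ξ₀ + δ * s)) s := by
    intro s
    have := (dQ0 (ξ₀ + δ * s)).scomp s (haff s)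
    simp only [Complex.real_smul] at this
    exact this
  have dQc1 : ∀ s, HasDerivAt (fun s => deriv Q (ξ₀ + δ * s))
      ((δ : ℂ) * deriv (deriv Q) (ξ₀ + δ * s)) s := by
    intro s
    have := (dQ1 (ξ₀ + δ * s)).scomp s (haff s)
    simp only [Complex.real_smul] at this
    exact this
  have d0 : ∀ s, HasDerivAt Ψ (Ψ₁ s) s := fun s => (dQc s).mul (db0 s)
  have d1 : ∀ s, HasDerivAt Ψ₁ (Ψ₂ s) s := by
    intro s
    have h1 := (((dQc1 s).const_mul (δ : ℂ)).mul (db0 s)).add ((dQc s).mul (db1 s))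
    refine h1.congr_deriv ?_
    simp only [hΨ₂]; ring
  have hcs : ∀ (F G : ℝ → ℂ), Continuous F → Continuous G → HasCompactSupport G →
      Integrable (fun s => F s * G s) := fun F G hF hG hGc =>
    (hF.mul hG).integrable_of_hasCompactSupport hGc.mul_left
  have cq0 : Continuous fun s : ℝ => Q (ξ₀ + δ * s) := cQ.continuous.comp (by fun_prop)
  have cq1 : Continuous fun s : ℝ => deriv Q (ξ₀ + δ * s) := cQ1.continuous.comp (by fun_prop)
  have cq2 : Continuous fun s : ℝ => deriv (deriv Q) (ξ₀ + δ * s) :=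
    cQ2.continuous.comp (by fun_prop)
  have i0 : Integrable Ψ := hcs _ _ cq0 hb.continuous hbc
  have i1 : Integrable Ψ₁ := (hcs _ _ (continuous_const.mul cq1) hb.continuous hbc).add
    (hcs _ _ cq0 hb1.continuous hbc1)
  have i2 : Integrable Ψ₂ := ((hcs _ _ (continuous_const.mul cq2) hb.continuous hbc).add
    (hcs _ _ (continuous_const.mul cq1) hb1.continuous hbc1)).add
      (hcs _ _ cq0 hb2'.continuous hbc2)
  have n0 : (∫ s, ‖Ψ s‖) ≤ η * B0 := by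
    rw [hB0, ← integral_const_mul]
    refine integral_mono i0.norm (ib0.norm.const_mul η) fun s => ?_
    simp only [hΨ]
    rw [norm_mul]
    by_cases hs : |s| ≤ 2
    · exact mul_le_mul_of_nonneg_right (hδ2 s hs) (norm_nonneg _)
    · rw [hb2 s (not_le.1 hs)]; simp
  have n2 : (∫ s, ‖Ψ₂ s‖) ≤ δ ^ 2 * (q2 * B0) + δ * (2 * q1 * B1) + η * B2 := by
    have j0 : Integrable (fun s => (δ ^ 2 * q2) * ‖b s‖) := ib0.norm.const_mul _
    have j1 : Integrable (fun s => (2 * δ * q1) * ‖deriv b s‖) := ib1.norm.const_mul _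
    have j2 : Integrable (fun s => η * ‖deriv (deriv b) s‖) := ib2.norm.const_mul _
    have j3 : Integrable (fun s => (δ ^ 2 * q2) * ‖b s‖ + (2 * δ * q1) * ‖deriv b s‖) :=
      j0.add j1
    have j4 : Integrable (fun s => (δ ^ 2 * q2) * ‖b s‖ + (2 * δ * q1) * ‖deriv b s‖ +
      η * ‖deriv (deriv b) s‖) := j3.add j2
    have e : δ ^ 2 * (q2 * B0) + δ * (2 * q1 * B1) + η * B2 =
        ∫ s, ((δ ^ 2 * q2) * ‖b s‖ + (2 * δ * q1) * ‖deriv b s‖ +
          η * ‖deriv (deriv b) s‖) := by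
      rw [integral_add j3 j2, integral_add j0 j1, integral_const_mul,
        integral_const_mul, integral_const_mul]
      ring
    rw [e]
    refine integral_mono i2.norm j4 fun s => ?_
    simp only [hΨ₂]
    refine (norm_add₃_le).trans ?_
    have hδn : ‖(δ : ℂ)‖ = δ := by rw [Complex.norm_real, Real.norm_of_nonneg hδ.le]
    refine add_le_add (add_le_add ?_ ?_) ?_
    · rw [norm_mul, norm_mul, norm_pow, hδn]
      gcongr
      exact hq2 _
    · rw [norm_mul, norm_mul, norm_mul, hδn, Complex.norm_ofNat]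
      gcongr
      exact hq1 _
    · rw [norm_mul]
      by_cases hs : |s| ≤ 2
      · exact mul_le_mul_of_nonneg_right (hδ2 s hs) (norm_nonneg _)
      · rw [z2 s (not_le.1 hs)]; simp
  set NN := (∫ s, ‖Ψ s‖) + ∫ s, ‖Ψ₂ s‖ with hNN
  have hNN0 : 0 ≤ NN := add_nonneg (integral_nonneg fun _ => norm_nonneg _)
    (integral_nonneg fun _ => norm_nonneg _)
  have hNNK : NN * K ≤ ε := by
    refine le_trans ?_ hδ1.le
    refine mul_le_mul_of_nonneg_right ?_ hK0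
    linarith
  have hβδ : 0 < β ^ m * δ := by positivity
  have hpt : ∀ y, ‖(P β)^[m] (chk fun ξ => Φ ξ * b ((ξ - ξ₀) / δ)) y‖ ≤ NN * w (β ^ m * δ) y := by
    intro y
    rw [Pit_chk_loc hβ m hΦ.continuous hb.continuous hbc ξ₀ hδ y, norm_mul, norm_mul, norm_ee,
      one_mul, Complex.norm_real, Real.norm_of_nonneg hβδ.le]
    have h1 := chk_le_w d0 d1 i0 i1 i2 ((β ^ m * δ) * y)
    have h2 : w (β ^ m * δ) y = (β ^ m * δ) * w 1 ((β ^ m * δ) * y) := by rw [w_scale, mul_one]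
    rw [h2]
    calc (β ^ m * δ) * ‖chk Ψ ((β ^ m * δ) * y)‖ ≤ (β ^ m * δ) * (NN * w 1 ((β ^ m * δ) * y)) :=
          mul_le_mul_of_nonneg_left h1 hβδ.le
      _ = _ := by ring
  filter_upwards [eventually_ge_atTop m] with n hn
  obtain ⟨k, rfl⟩ := Nat.exists_eq_add_of_le' hn
  rw [Function.iterate_add_apply]
  exact (Pit_chk_le hβ hM hNN0 hβδ hδ3 hpt k).trans hNNK

end Pool.Agent.helper31.Bernoulli
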