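import Pool.Agent.helper31.BernG

set_option autoImplicit false

/-!
# Convergence against smooth compactly supported symbols
-/

namespace Pool.Agent.helper31.Bernoulli

open MeasureTheory Measure Filter Topology Metric
open scoped ENNReal FourierTransform

lemma chk_bound {Θ : ℝ → ℂ} (hΘ : ContDiff ℝ (⊤ : ℕ∞) Θ) (hc : HasCompactSupport Θ) :
    ∃ C, ∀ y, ‖chk Θ y‖ ≤ C * w 1 y := by
  have d0 : ∀ s, HasDerivAt Θ (deriv Θ s) s := fun s =>
    (hΘ.differentiable (by simp) s).hasDerivAt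
  have h1 : ContDiff ℝ (⊤ : ℕ∞) (deriv Θ) := ((contDiff_succ_iff_deriv (n := (⊤ : ℕ∞))).1 hΘ).2.2
  have d1 : ∀ s, HasDerivAt (deriv Θ) (deriv (deriv Θ) s) s := fun s =>
    (h1.differentiable (by simp) s).hasDerivAt
  have h2 : ContDiff ℝ (⊤ : ℕ∞) (deriv (deriv Θ)) :=
    ((contDiff_succ_iff_deriv (n := (⊤ : ℕ∞))).1 h1).2.2
  exact ⟨_, chk_le_w d0 d1 (hΘ.continuous.integrable_of_hasCompactSupport hc)
    (h1.continuous.integrable_of_hasCompactSupport hc.deriv)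
    (h2.continuous.integrable_of_hasCompactSupport hc.deriv.deriv)⟩

lemma integral_chk {Θ : ℝ → ℂ} (hc : Continuous Θ) (hi : Integrable Θ)
    (hi' : Integrable (chk Θ)) : ∫ y, chk Θ y = Θ 0 := by
  have hF : Integrable (𝓕 Θ) := by
    have h1 : 𝓕 Θ = fun y => chk Θ (-y) := by
      ext y
      rw [chk_eq_fourierInv, Real.fourierInv_eq_fourier_neg, neg_neg]
    rw [h1]
    exact hi'.comp_neg
  have h := congrFun (hc.fourier_fourierInv_eq hi hF) 0
  rw [← chk_eq_fourierInv, Real.fourier_real_eq] at h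
  simpa using h

lemma V_chk {β : ℝ} {Θ : ℝ → ℂ} (hi : Integrable Θ) (x : ℝ) :
    V β (chk Θ) x = chk (fun ξ => Θ ξ * ph β ξ) x := by
  unfold V chk
  have hI : Integrable (Function.uncurry fun (t ξ : ℝ) => Θ ξ * ee (ξ * (x - t)))
      ((nu β).prod volume) := by
    have h1 : Integrable (fun p : ℝ × ℝ => ‖Θ p.2‖) ((nu β).prod volume) :=
      hi.norm.comp_snd (nu β)
    have h2 : Integrable (fun p : ℝ × ℝ => Θ p.2) ((nu β).prod volume) := hi.comp_snd (nu β)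
    refine h1.mono' (h2.aestronglyMeasurable.mul
      (continuous_ee.comp (by fun_prop)).aestronglyMeasurable)
      (Eventually.of_forall fun p => ?_)
    simp [Function.uncurry]
  rw [integral_integral_swap hI]
  congr 1; ext ξ
  rw [integral_const_mul, mul_assoc]
  congr 1
  have : ∀ t, ee (ξ * (x - t)) = ee (-(ξ * t)) * ee (ξ * x) := by
    intro t; rw [← ee_add]; congr 1; ring
  simp_rw [this]
  rw [integral_mul_const]
  rfl

lemma conv_base {β : ℝ} (hβ : 1 < β) (hac : nu β ≪ volume) {x : ℝ} (hx : Good (dens β) x)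
    {Φ : ℝ → ℂ} (hΦ : ContDiff ℝ (⊤ : ℕ∞) Φ) (hc : HasCompactSupport Φ)
    (h0 : ∀ ξ ∈ tsupport Φ, ph β ξ ≠ 0) :
    Tendsto (fun n : ℕ => (P β)^[n] (chk Φ) x) atTop (𝓝 (dens β x • Φ 0)) := by
  set Θ : ℝ → ℂ := fun ξ => Φ ξ / ph β ξ with hΘ
  have hΘc : ContDiff ℝ (⊤ : ℕ∞) Θ := by
    rw [contDiff_iff_contDiffAt]
    intro ξ
    by_cases hξ : ξ ∈ tsupport Φ
    · have h1 : ContDiffAt ℝ (⊤ : ℕ∞) (fun ξ => (ph β ξ)⁻¹) ξ :=
        ((contDiff_ph hβ).contDiffAt).inv (h0 ξ hξ)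
      have h2 := (hΦ.contDiffAt (x := ξ)).mul h1
      simpa only [hΘ, div_eq_mul_inv] using h2
    · have : Θ =ᶠ[𝓝 ξ] fun _ => 0 := by
        filter_upwards [notMem_tsupport_iff_eventuallyEq.1 hξ] with u hu
        simp [hΘ, hu]
      exact contDiffAt_const.congr_of_eventuallyEq this
  have hΘs : HasCompactSupport Θ := by
    have : Θ = fun ξ => Φ ξ * (ph β ξ)⁻¹ := by ext ξ; simp [hΘ, div_eq_mul_inv]
    rw [this]
    exact hc.mul_right
  have hΘi : Integrable Θ := hΘc.continuous.integrable_of_hasCompactSupport hΘs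
  have e : chk Φ = V β (chk Θ) := by
    ext y
    rw [V_chk hΘi]
    congr 1; ext ξ
    simp only [hΘ]
    by_cases hξ : ph β ξ = 0
    · have h1 : ξ ∉ tsupport Φ := fun h => h0 ξ h hξ
      have h2 : Φ ξ = 0 := image_eq_zero_of_notMem_tsupport h1
      simp [h2]
    · field_simp
  obtain ⟨C, hC⟩ := chk_bound hΘc hΘs
  have hcc : Continuous (chk Θ) := continuous_chk hΘi
  have h1 := (tendsto_approx hac hx hcc hC).comp (tendsto_pow_atTop_atTop_of_one_lt hβ)
  rw [integral_chk hΘc.continuous hΘi (integrable_of_le_w hcc hC)] at h1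
  have h2 : Θ 0 = Φ 0 := by simp [hΘ, ph_zero]
  rw [h2] at h1
  refine h1.congr fun n => ?_
  rw [e, Pit_V hβ n hcc (bound_of_le_w hC)]
  rfl

/-- The standard bump. -/
noncomputable def b0 : ContDiffBump (0 : ℝ) := ⟨1, 2, one_pos, one_lt_two⟩

/-- The standard bump, complex valued. -/
noncomputable def bb (s : ℝ) : ℂ := (b0 s : ℝ)

lemma bb_contDiff : ContDiff ℝ (⊤ : ℕ∞) bb := by
  unfold bb
  exact Complex.ofRealCLM.contDiff.comp b0.contDiff

lemma bb_compact : HasCompactSupport bb := by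
  unfold bb
  exact b0.hasCompactSupport.comp_left (g := fun r : ℝ => (r : ℂ)) (by simp)

lemma bb_eq_zero {s : ℝ} (hs : 2 ≤ |s|) : bb s = 0 := by
  unfold bb
  rw [b0.zero_of_le_dist (by simpa [Real.dist_eq, b0] using hs)]
  simp

lemma bb_eq_one {s : ℝ} (hs : |s| ≤ 1) : bb s = 1 := by
  unfold bb
  rw [b0.one_of_mem_closedBall (by simpa [Real.dist_eq, b0] using hs)]
  simp

lemma norm_bb_le (s : ℝ) : ‖bb s‖ ≤ 1 := by
  unfold bb
  rw [Complex.norm_real, Real.norm_of_nonneg b0.nonneg]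
  exact b0.le_one

lemma conv_cc {β : ℝ} (hβ : 1 < β) (hβ2 : β < 2) (hac : nu β ≪ volume) {x : ℝ}
    (hx : Good (dens β) x) (F : Finset ℝ) : ∀ (Φ : ℝ → ℂ), ContDiff ℝ (⊤ : ℕ∞) Φ →
    HasCompactSupport Φ → (∀ ξ ∈ tsupport Φ, ph β ξ = 0 → ξ ∈ F) →
    Tendsto (fun n : ℕ => (P β)^[n] (chk Φ) x) atTop (𝓝 (dens β x • Φ 0)) := by
  classical
  induction F using Finset.induction_on with
  | empty =>
    intro Φ h1 h2 h3
    exact conv_base hβ hac hx h1 h2 (fun ξ hξ h => by simpa using h3 ξ hξ h)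
  | insert ξ₀ F hF ih =>
    intro Φ h1 h2 h3
    by_cases hξ₀ : ξ₀ = 0
    · refine ih Φ h1 h2 (fun ξ hξ h => ?_)
      rcases Finset.mem_insert.1 (h3 ξ hξ h) with h' | h'
      · rw [h', hξ₀, ph_zero] at h; exact absurd h one_ne_zero
      · exact h'
    · obtain ⟨M, hM0, hM⟩ := exists_bound hac hx
      refine tendsto_of_approx fun ε hε => ?_
      have hs := loc_small hβ hM0 hM h1 h2 bb_contDiff bb_compact
        (fun s hs => bb_eq_zero hs.le) (tendsto_pp hβ hβ2 hac hξ₀) hε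
      have hd : ∀ᶠ δ in 𝓝[>] (0 : ℝ), δ < |ξ₀| / 2 :=
        (gt_mem_nhds (by positivity : (0 : ℝ) < |ξ₀| / 2)).filter_mono nhdsWithin_le_nhds
      obtain ⟨δ, ⟨hδ1, hδ2⟩, hδ⟩ := ((hs.and hd).and self_mem_nhdsWithin).exists
      have hδ0 : (0 : ℝ) < δ := hδ
      have hcb : ContDiff ℝ (⊤ : ℕ∞) (fun ξ : ℝ => bb ((ξ - ξ₀) / δ)) :=
        bb_contDiff.comp ((contDiff_id.sub contDiff_const).div_const δ)
      have hc1 : ContDiff ℝ (⊤ : ℕ∞) (fun ξ : ℝ => Φ ξ * bb ((ξ - ξ₀) / δ)) := h1.mul hcb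
      have hs1 : HasCompactSupport (fun ξ : ℝ => Φ ξ * bb ((ξ - ξ₀) / δ)) := h2.mul_right
      have hc2 : ContDiff ℝ (⊤ : ℕ∞) (Φ - fun ξ : ℝ => Φ ξ * bb ((ξ - ξ₀) / δ)) := h1.sub hc1
      have he : (Φ - fun ξ : ℝ => Φ ξ * bb ((ξ - ξ₀) / δ)) =
          fun ξ => Φ ξ * (1 - bb ((ξ - ξ₀) / δ)) := by
        ext ξ; simp only [Pi.sub_apply]; ring
      have hs2 : HasCompactSupport (Φ - fun ξ : ℝ => Φ ξ * bb ((ξ - ξ₀) / δ)) := by
        rw [he]; exact h2.mul_right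
      have h0 : (Φ - fun ξ : ℝ => Φ ξ * bb ((ξ - ξ₀) / δ)) 0 = Φ 0 := by
        simp only [Pi.sub_apply]
        rw [bb_eq_zero, mul_zero, sub_zero]
        rw [abs_div, abs_of_pos hδ0, le_div_iff₀ hδ0, zero_sub, abs_neg]
        linarith
      refine ⟨chk (Φ - fun ξ : ℝ => Φ ξ * bb ((ξ - ξ₀) / δ)), ?_, ?_⟩
      · rw [← h0]
        refine ih _ hc2 hs2 (fun ξ hξ h => ?_)
        have hξ' : ξ ∈ tsupport Φ := by
          rw [he] at hξ
          exact tsupport_mul_subset_left hξ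
        rcases Finset.mem_insert.1 (h3 ξ hξ' h) with h' | h'
        · exfalso
          rw [h'] at hξ
          refine (notMem_tsupport_iff_eventuallyEq.2 ?_) hξ
          filter_upwards [Metric.closedBall_mem_nhds ξ₀ hδ0] with u hu
          rw [Metric.mem_closedBall, Real.dist_eq] at hu
          simp only [Pi.sub_apply, Pi.zero_apply]
          rw [bb_eq_one, mul_one, sub_self]
          rw [abs_div, abs_of_pos hδ0, div_le_one hδ0]
          exact hu
        · exact h'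
      · filter_upwards [hδ1] with n hn
        rw [chk_sub (h1.continuous.integrable_of_hasCompactSupport h2)
          (hc1.continuous.integrable_of_hasCompactSupport hs1), Pit_sub, Pi.sub_apply,
          sub_sub_cancel]
        exact hn

lemma conv_cc' {β : ℝ} (hβ : 1 < β) (hβ2 : β < 2) (hac : nu β ≪ volume) {x : ℝ}
    (hx : Good (dens β) x) {Φ : ℝ → ℂ} (h1 : ContDiff ℝ (⊤ : ℕ∞) Φ) (h2 : HasCompactSupport Φ) :
    Tendsto (fun n : ℕ => (P β)^[n] (chk Φ) x) atTop (𝓝 (dens β x • Φ 0)) := by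
  obtain ⟨R, hR⟩ := h2.isBounded.subset_closedBall 0
  have hf := finite_zeros hβ R
  refine conv_cc hβ hβ2 hac hx hf.toFinset Φ h1 h2 fun ξ hξ h => ?_
  rw [Set.Finite.mem_toFinset]
  refine ⟨?_, h⟩
  have := hR hξ
  rwa [mem_closedBall_zero_iff, Real.norm_eq_abs] at this

end Pool.Agent.helper31.Bernoulli
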