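import Mathlib

set_option autoImplicit false

/-!
# Unique continuation along level surfaces fails for smooth coefficients

`A = diag (1 / D, 1, .., 1)`, `D = 1 + (ε / 2) f''(x) (y + ε f(x))`, where `f` is a smooth function with compact
support in `(-∞, 0]`; the solutions are `u = y` and `v = x y + (ε / 2) f'(x) y ^ 2 + w(x)`,
`w' = - ε f - (ε ^ 3 / 2) f'' f ^ 2`: `v_x = (y - ε f) D`, `v_y = x + ε f' y`.
-/

namespace Pool.Agent.helper31.EllipticSmooth

open scoped ContDiff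

/-! ## Functions of one variable -/

lemma exists_f : ∃ f : ℝ → ℝ, ContDiff ℝ ∞ f ∧ HasCompactSupport f ∧ (∀ x, 0 ≤ f x) ∧ (∀ x, f x ≤ 1) ∧
    (∀ x, 0 ≤ x → f x = 0) ∧ ∀ x, -1 ≤ x → x < 0 → 0 < f x := by
  let b : ContDiffBump (0 : ℝ) := ⟨1, 2, by norm_num, by norm_num⟩
  have hh : ∀ x : ℝ, (Homeomorph.addRight (2 : ℝ)) x = x + 2 := fun x => rfl
  refine ⟨fun x => b (x + 2), ?_, ?_, fun x => b.nonneg, fun x => b.le_one, fun x hx => ?_, fun x h1 h2 => ?_⟩
  · exact b.contDiff.comp (contDiff_id.add contDiff_const)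
  · exact b.hasCompactSupport.comp_homeomorph (Homeomorph.addRight (2 : ℝ))
  · apply b.zero_of_le_dist
    rw [Real.dist_eq, sub_zero, abs_of_nonneg (by linarith)]
    show (2 : ℝ) ≤ x + 2
    linarith
  · apply b.pos_of_mem_ball
    rw [Metric.mem_ball, Real.dist_eq, sub_zero, abs_of_nonneg (by linarith)]
    show x + 2 < (2 : ℝ)
    linarith

lemma exists_eta (R : ℝ) (hR : 0 < R) : ∃ η : ℝ → ℝ, ContDiff ℝ ∞ η ∧ HasCompactSupport η ∧ ∀ y, |y| ≤ R → η y = 1 := by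
  let b : ContDiffBump (0 : ℝ) := ⟨R, R + 1, hR, by linarith⟩
  refine ⟨b, b.contDiff, b.hasCompactSupport, fun y hy => ?_⟩
  apply b.one_of_mem_closedBall
  rw [Metric.mem_closedBall, Real.dist_eq, sub_zero]
  exact hy

lemma exists_bd (h : ℝ → ℝ) (h1 : ContDiff ℝ ∞ h) (h2 : HasCompactSupport h) :
    ∃ C : ℝ, 1 ≤ C ∧ (∀ x, |h x| ≤ C) ∧ ∀ x y, |h x - h y| ≤ C * |x - y| := by
  obtain ⟨C1, hC1⟩ := h2.exists_bound_of_continuous h1.continuous
  obtain ⟨C2, hC2⟩ := h1.lipschitzWith_of_hasCompactSupport h2 (by simp)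
  refine ⟨max (max C1 C2) 1, le_max_right _ _, fun x => ?_, fun x y => ?_⟩
  · exact (hC1 x).trans ((le_max_left _ _).trans (le_max_left _ _))
  · have h3 := hC2.dist_le_mul x y
    rw [Real.dist_eq, Real.dist_eq] at h3
    exact h3.trans (mul_le_mul_of_nonneg_right ((le_max_right _ _).trans (le_max_left _ _)) (abs_nonneg _))

/-- the data of the construction -/
structure Dat (f η : ℝ → ℝ) (ε R : ℝ) : Prop where
  fs : ContDiff ℝ ∞ f
  es : ContDiff ℝ ∞ η
  f0 : ∀ x, 0 ≤ f x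
  f1 : ∀ x, f x ≤ 1
  fz : ∀ x, 0 ≤ x → f x = 0
  fp : ∀ x, -1 ≤ x → x < 0 → 0 < f x
  e1 : ∀ y, |y| ≤ R → η y = 1
  ep : 0 < ε
  sm : ∀ x, ε ^ 2 * |deriv (deriv f) x| ≤ 1

/-- the denominator -/
noncomputable def D (f η : ℝ → ℝ) (ε x y : ℝ) : ℝ :=
  1 + ε / 2 * (deriv (deriv f) x * (y * η y) + ε * (deriv (deriv f) x * f x) * η y)

/-- minus the derivative of the restriction of `v` to `y = 0` -/
noncomputable def q (f : ℝ → ℝ) (ε s : ℝ) : ℝ := ε * f s + ε ^ 3 / 2 * (deriv (deriv f) s * f s ^ 2)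

/-- the restriction of `v` to `y = 0` -/
noncomputable def w (f : ℝ → ℝ) (ε x : ℝ) : ℝ := ∫ s in x..0, q f ε s

variable {f η : ℝ → ℝ} {ε R : ℝ}

lemma smooth_d {f : ℝ → ℝ} (h : ContDiff ℝ ∞ f) : ContDiff ℝ ∞ (deriv f) := (contDiff_infty_iff_deriv.1 h).2

lemma hasDerivAt_d {f : ℝ → ℝ} (h : ContDiff ℝ ∞ f) (x : ℝ) : HasDerivAt f (deriv f x) x :=
  ((contDiff_infty_iff_deriv.1 h).1 x).hasDerivAt

lemma smooth_q (h : Dat f η ε R) : ContDiff ℝ ∞ (q f ε) := by
  unfold q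
  exact (contDiff_const.mul h.fs).add (contDiff_const.mul ((smooth_d (smooth_d h.fs)).mul (h.fs.pow 2)))

lemma hasDerivAt_w (h : Dat f η ε R) (x : ℝ) : HasDerivAt (w f ε) (-q f ε x) x := by
  have h1 := (smooth_q h).continuous
  exact intervalIntegral.integral_hasDerivAt_left (h1.intervalIntegrable _ _) (h1.stronglyMeasurableAtFilter _ _) h1.continuousAt

lemma smooth_w (h : Dat f η ε R) : ContDiff ℝ ∞ (w f ε) := by
  rw [contDiff_infty_iff_deriv]
  refine ⟨fun x => (hasDerivAt_w h x).differentiableAt, ?_⟩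
  have e : deriv (w f ε) = fun x => -q f ε x := funext fun x => (hasDerivAt_w h x).deriv
  rw [e]
  exact (smooth_q h).neg

lemma q_ge (h : Dat f η ε R) (x : ℝ) : ε / 2 * f x ≤ q f ε x := by
  have h1 := h.sm x
  have h2 := h.f0 x
  have h3 := h.f1 x
  have h4 := h.ep
  have h5 : f x ^ 2 ≤ f x := by nlinarith
  have h6 : -(ε ^ 2 * (deriv (deriv f) x) * f x ^ 2) ≤ f x := by
    have h7 : -(ε ^ 2 * (deriv (deriv f) x)) ≤ 1 := by
      have h8 := neg_abs_le (deriv (deriv f) x)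
      have h9 : ε ^ 2 * (-|deriv (deriv f) x|) ≤ ε ^ 2 * deriv (deriv f) x := mul_le_mul_of_nonneg_left h8 (sq_nonneg _)
      linarith
    have h8 : 0 ≤ f x ^ 2 := sq_nonneg _
    have h9 : -(ε ^ 2 * (deriv (deriv f) x)) * f x ^ 2 ≤ 1 * f x ^ 2 := mul_le_mul_of_nonneg_right h7 h8
    linarith
  unfold q
  have h7 : ε ^ 3 / 2 * (deriv (deriv f) x * f x ^ 2) = -(ε / 2 * (-(ε ^ 2 * (deriv (deriv f) x) * f x ^ 2))) := by ring
  rw [h7]
  have h8 : ε / 2 * (-(ε ^ 2 * (deriv (deriv f) x) * f x ^ 2)) ≤ ε / 2 * f x := mul_le_mul_of_nonneg_left h6 (by linarith)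
  linarith

lemma w_zero (h : Dat f η ε R) (x : ℝ) (hx : 0 ≤ x) : w f ε x = 0 := by
  unfold w
  rw [intervalIntegral.integral_symm]
  have e : ∫ s in (0 : ℝ)..x, q f ε s = ∫ s in (0 : ℝ)..x, (0 : ℝ) := by
    apply intervalIntegral.integral_congr
    intro s hs
    rw [Set.uIcc_of_le hx] at hs
    have h1 : f s = 0 := h.fz s hs.1
    simp [q, h1]
  rw [e]
  simp

lemma w_pos (h : Dat f η ε R) (x : ℝ) (hx : x < 0) : 0 < w f ε x := by
  unfold w
  have hp := h.ep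
  refine intervalIntegral.integral_pos hx (smooth_q h).continuous.continuousOn (fun s _ => ?_) ⟨max x (-1), ⟨le_max_left _ _, ?_⟩, ?_⟩
  · exact (mul_nonneg (by linarith) (h.f0 s)).trans (q_ge h s)
  · exact max_le hx.le (by norm_num)
  · have h1 : 0 < f (max x (-1)) := h.fp _ (le_max_right _ _) (max_lt hx (by norm_num))
    have h2 := q_ge h (max x (-1))
    have h3 : 0 < ε / 2 * f (max x (-1)) := mul_pos (by linarith) h1
    linarith

lemma w_iff (h : Dat f η ε R) (x : ℝ) : w f ε x = 0 ↔ 0 ≤ x := by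
  constructor
  · intro h1
    by_contra h2
    have h3 := w_pos h x (not_le.1 h2)
    linarith
  · exact w_zero h x

/-! ## Functions of several variables -/

variable {n : ℕ}

/-- the second solution -/
noncomputable def vv (f : ℝ → ℝ) (ε : ℝ) (i0 i1 : Fin n) (p : EuclideanSpace ℝ (Fin n)) : ℝ :=
  p i0 * p i1 + ε / 2 * (deriv f (p i0) * (p i1) ^ 2) + w f ε (p i0)

/-- the coefficient -/
noncomputable def dd (f η : ℝ → ℝ) (ε : ℝ) (i0 i1 : Fin n) (p : EuclideanSpace ℝ (Fin n)) (i : Fin n) : ℝ :=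
  if i = i0 then (D f η ε (p i0) (p i1))⁻¹ else 1

/-- the coefficient matrix -/
noncomputable def AA (f η : ℝ → ℝ) (ε : ℝ) (i0 i1 : Fin n) (p : EuclideanSpace ℝ (Fin n)) : Matrix (Fin n) (Fin n) ℝ :=
  Matrix.diagonal (dd f η ε i0 i1 p)

/-- coordinate functional -/
noncomputable abbrev co (i : Fin n) : EuclideanSpace ℝ (Fin n) →L[ℝ] ℝ := EuclideanSpace.proj i

lemma hasFDerivAt_co (i : Fin n) (p : EuclideanSpace ℝ (Fin n)) :
    HasFDerivAt (fun q : EuclideanSpace ℝ (Fin n) => q i) (co i) p := (co i).hasFDerivAt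

lemma contDiff_co (i : Fin n) : ContDiff ℝ ∞ (fun q : EuclideanSpace ℝ (Fin n) => q i) := (co i).contDiff

lemma hasFDerivAt_comp {g : ℝ → ℝ} {g' : ℝ} (i : Fin n) (p : EuclideanSpace ℝ (Fin n)) (h : HasDerivAt g g' (p i)) :
    HasFDerivAt (fun q : EuclideanSpace ℝ (Fin n) => g (q i)) (g' • co i) p :=
  h.comp_hasFDerivAt p (hasFDerivAt_co i p)

lemma smooth_vv (h : Dat f η ε R) (i0 i1 : Fin n) : ContDiff ℝ ∞ (vv f ε i0 i1) := by
  unfold vv
  have h0 := contDiff_co (n := n) i0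
  have h1 := contDiff_co (n := n) i1
  exact ((h0.mul h1).add (contDiff_const.mul (((smooth_d h.fs).comp h0).mul (h1.pow 2)))).add ((smooth_w h).comp h0)

lemma smooth_D (h : Dat f η ε R) (i0 i1 : Fin n) :
    ContDiff ℝ ∞ (fun p : EuclideanSpace ℝ (Fin n) => D f η ε (p i0) (p i1)) := by
  unfold D
  have h0 := contDiff_co (n := n) i0
  have h1 := contDiff_co (n := n) i1
  have h2 := (smooth_d (smooth_d h.fs)).comp h0
  have h3 := h.fs.comp h0
  have h4 := h.es.comp h1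
  exact contDiff_const.add (contDiff_const.mul ((h2.mul (h1.mul h4)).add ((contDiff_const.mul (h2.mul h3)).mul h4)))

/-- The first component of the flux of `v`. -/
noncomputable def F1 (f : ℝ → ℝ) (ε : ℝ) (i0 i1 : Fin n) (p : EuclideanSpace ℝ (Fin n)) : ℝ := p i1 - ε * f (p i0)

/-- The second component of the flux of `v`. -/
noncomputable def F2 (f : ℝ → ℝ) (ε : ℝ) (i0 i1 : Fin n) (p : EuclideanSpace ℝ (Fin n)) : ℝ := p i0 + ε * (deriv f (p i0) * p i1)

lemma hasFDerivAt_vv (h : Dat f η ε R) (i0 i1 : Fin n) (p : EuclideanSpace ℝ (Fin n)) (hp : |p i1| ≤ R) :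
    HasFDerivAt (vv f ε i0 i1) ((F1 f ε i0 i1 p * D f η ε (p i0) (p i1)) • co i0 + (F2 f ε i0 i1 p) • co i1) p := by
  have h0 := hasFDerivAt_co i0 p
  have h1 := hasFDerivAt_co i1 p
  have h2 := hasFDerivAt_comp i0 p (hasDerivAt_d (smooth_d h.fs) (p i0))
  have h3 := hasFDerivAt_comp i0 p (hasDerivAt_w h (p i0))
  have h4 := ((h0.mul h1).add ((h2.mul (h1.pow 2)).const_mul (ε / 2))).add h3
  refine h4.congr_fderiv ?_
  ext u
  have e := h.e1 _ hp
  simp [F1, F2, D, q, e]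
  ring

lemma hasFDerivAt_F1 (h : Dat f η ε R) (i0 i1 : Fin n) (p : EuclideanSpace ℝ (Fin n)) :
    HasFDerivAt (F1 f ε i0 i1) ((-(ε * deriv f (p i0))) • co i0 + (1 : ℝ) • co i1) p := by
  have h1 := hasFDerivAt_co i1 p
  have h2 := hasFDerivAt_comp i0 p (hasDerivAt_d h.fs (p i0))
  refine (h1.sub (h2.const_mul ε)).congr_fderiv ?_
  ext u
  simp
  ring

lemma hasFDerivAt_F2 (h : Dat f η ε R) (i0 i1 : Fin n) (p : EuclideanSpace ℝ (Fin n)) :
    HasFDerivAt (F2 f ε i0 i1) ((1 + ε * (deriv (deriv f) (p i0) * p i1)) • co i0 + (ε * deriv f (p i0)) • co i1) p := by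
  have h0 := hasFDerivAt_co i0 p
  have h1 := hasFDerivAt_co i1 p
  have h2 := hasFDerivAt_comp i0 p (hasDerivAt_d (smooth_d h.fs) (p i0))
  refine (h0.add ((h2.mul h1).const_mul ε)).congr_fderiv ?_
  ext u
  simp
  ring

/-- `div (A ∇ u)` at the point `x`. -/
noncomputable def divA (A : EuclideanSpace ℝ (Fin n) → Matrix (Fin n) (Fin n) ℝ) (u : EuclideanSpace ℝ (Fin n) → ℝ)
    (x : EuclideanSpace ℝ (Fin n)) : ℝ :=
  ∑ i, fderiv ℝ (fun y => ∑ j, A y i j * fderiv ℝ u y (EuclideanSpace.single j 1)) x (EuclideanSpace.single i 1)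

lemma sum_AA (i0 i1 i : Fin n) (p : EuclideanSpace ℝ (Fin n)) (g : Fin n → ℝ) :
    ∑ j, AA f η ε i0 i1 p i j * g j = dd f η ε i0 i1 p i * g i := by
  unfold AA
  rw [Finset.sum_eq_single i]
  · rw [Matrix.diagonal_apply_eq]
  · intro j _ hj
    rw [Matrix.diagonal_apply_ne' _ hj, zero_mul]
  · intro h
    exact absurd (Finset.mem_univ i) h

lemma co_single (i j : Fin n) : (co i) (EuclideanSpace.single j (1 : ℝ)) = if i = j then 1 else 0 := by
  simp

lemma term_v (h : Dat f η ε R) (i0 i1 : Fin n) (h01 : i0 ≠ i1) (hD : ∀ x y, D f η ε x y ≠ 0) (p : EuclideanSpace ℝ (Fin n))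
    (hp : |p i1| < R) (i : Fin n) :
    fderiv ℝ (fun y => ∑ j, AA f η ε i0 i1 y i j * fderiv ℝ (vv f ε i0 i1) y (EuclideanSpace.single j 1)) p (EuclideanSpace.single i 1) =
      (if i = i0 then -(ε * deriv f (p i0)) else 0) + (if i = i1 then ε * deriv f (p i0) else 0) := by
  have hopen : {y : EuclideanSpace ℝ (Fin n) | |y i1| < R} ∈ nhds p :=
    (isOpen_lt ((contDiff_co i1).continuous.abs) continuous_const).mem_nhds hp
  have hg : ∀ y : EuclideanSpace ℝ (Fin n), |y i1| < R →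
      ∑ j, AA f η ε i0 i1 y i j * fderiv ℝ (vv f ε i0 i1) y (EuclideanSpace.single j 1) =
        dd f η ε i0 i1 y i * ((F1 f ε i0 i1 y * D f η ε (y i0) (y i1)) * (if i0 = i then 1 else 0) + F2 f ε i0 i1 y * (if i1 = i then 1 else 0)) := by
    intro y hy
    rw [sum_AA, (hasFDerivAt_vv h i0 i1 y hy.le).fderiv]
    congr 1
    rw [_root_.add_apply, _root_.smul_apply, _root_.smul_apply, co_single, co_single, smul_eq_mul, smul_eq_mul]
  by_cases hi0 : i = i0
  · subst hi0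
    have e : (fun y => ∑ j, AA f η ε i i1 y i j * fderiv ℝ (vv f ε i i1) y (EuclideanSpace.single j 1)) =ᶠ[nhds p] F1 f ε i i1 := by
      filter_upwards [hopen] with y hy
      rw [hg y hy, if_pos rfl, if_neg h01.symm, dd, if_pos rfl, mul_one, mul_zero, add_zero, mul_comm (F1 f ε i i1 y), ← mul_assoc,
        inv_mul_cancel₀ (hD _ _), one_mul]
    rw [e.fderiv_eq, (hasFDerivAt_F1 h i i1 p).fderiv, _root_.add_apply, _root_.smul_apply,
      _root_.smul_apply, co_single, co_single, if_pos rfl, if_neg h01.symm, if_pos rfl, if_neg h01, smul_eq_mul, smul_eq_mul,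
      mul_one, mul_zero]
  · by_cases hi1 : i = i1
    · subst hi1
      have e : (fun y => ∑ j, AA f η ε i0 i y i j * fderiv ℝ (vv f ε i0 i) y (EuclideanSpace.single j 1)) =ᶠ[nhds p] F2 f ε i0 i := by
        filter_upwards [hopen] with y hy
        rw [hg y hy, if_neg h01, if_pos rfl, dd, if_neg hi0, mul_zero, zero_add, mul_one, one_mul]
      rw [e.fderiv_eq, (hasFDerivAt_F2 h i0 i p).fderiv, _root_.add_apply, _root_.smul_apply,
        _root_.smul_apply, co_single, co_single, if_neg h01, if_pos rfl, if_neg hi0, if_pos rfl, smul_eq_mul, smul_eq_mul,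
        mul_one, mul_zero]
    · have e : (fun y => ∑ j, AA f η ε i0 i1 y i j * fderiv ℝ (vv f ε i0 i1) y (EuclideanSpace.single j 1)) =ᶠ[nhds p] fun _ => (0 : ℝ) := by
        filter_upwards [hopen] with y hy
        rw [hg y hy, if_neg (Ne.symm hi0), if_neg (Ne.symm hi1), mul_zero, mul_zero, add_zero, mul_zero]
      rw [e.fderiv_eq, if_neg hi0, if_neg hi1]
      simp

lemma div_v (h : Dat f η ε R) (i0 i1 : Fin n) (h01 : i0 ≠ i1) (hD : ∀ x y, D f η ε x y ≠ 0) (p : EuclideanSpace ℝ (Fin n))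
    (hp : |p i1| < R) : divA (AA f η ε i0 i1) (vv f ε i0 i1) p = 0 := by
  unfold divA
  rw [Finset.sum_congr rfl (fun i _ => term_v h i0 i1 h01 hD p hp i), Finset.sum_add_distrib, Finset.sum_ite_eq' Finset.univ i0,
    Finset.sum_ite_eq' Finset.univ i1]
  simp

lemma div_u (i0 i1 : Fin n) (h01 : i0 ≠ i1) (p : EuclideanSpace ℝ (Fin n)) :
    divA (AA f η ε i0 i1) (fun q => q i1) p = 0 := by
  unfold divA
  apply Finset.sum_eq_zero
  intro i _
  have e : (fun y => ∑ j, AA f η ε i0 i1 y i j * fderiv ℝ (fun q : EuclideanSpace ℝ (Fin n) => q i1) y (EuclideanSpace.single j 1)) =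
      fun _ => if i = i1 then (1 : ℝ) else 0 := by
    funext y
    rw [sum_AA, (hasFDerivAt_co i1 y).fderiv, co_single]
    by_cases hi : i = i1
    · subst hi
      rw [if_pos rfl, dd, if_neg h01.symm, mul_one]
    · rw [if_neg (Ne.symm hi), if_neg hi, mul_zero]
  rw [e]
  simp

/-- The coefficients are close to the identity if `ε` is small. -/
lemma exists_dat (K E R : ℝ) (hK : 1 < K) (hE : 0 < E) (hR : 0 < R) : ∃ (f η : ℝ → ℝ) (ε : ℝ), Dat f η ε R ∧
    (∀ x y, K⁻¹ ≤ D f η ε x y ∧ D f η ε x y ≤ K ∧ 1 / 2 ≤ D f η ε x y) ∧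
    ∀ x y x' y', |D f η ε x y - D f η ε x' y'| ≤ E / 8 * (|x - x'| + |y - y'|) := by
  obtain ⟨f, f1, f2, f3, f4, f5, f6⟩ := exists_f
  obtain ⟨η, e1, e2, e3⟩ := exists_eta R hR
  have g1 : ContDiff ℝ ∞ (deriv (deriv f)) := smooth_d (smooth_d f1)
  have g2 : HasCompactSupport (deriv (deriv f)) := f2.deriv.deriv
  obtain ⟨C1, c1, b1, l1⟩ := exists_bd _ g1 g2
  obtain ⟨C2, c2, b2, l2⟩ := exists_bd (fun y => y * η y) (contDiff_id.mul e1) e2.mul_left
  obtain ⟨C3, c3, b3, l3⟩ := exists_bd (fun x => deriv (deriv f) x * f x) (g1.mul f1) f2.mul_left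
  obtain ⟨C4, c4, b4, l4⟩ := exists_bd η e1 e2
  obtain ⟨C, hC1, hC2, hC3, hC4⟩ : ∃ C : ℝ, C1 ≤ C ∧ C2 ≤ C ∧ C3 ≤ C ∧ C4 ≤ C :=
    ⟨max (max C1 C2) (max C3 C4), (le_max_left _ _).trans (le_max_left _ _), (le_max_right _ _).trans (le_max_left _ _),
      (le_max_left _ _).trans (le_max_right _ _), (le_max_right _ _).trans (le_max_right _ _)⟩
  have hC : 1 ≤ C := c1.trans hC1
  have hC0 : 0 < C := by linarith
  have hKi : K⁻¹ < 1 := inv_lt_one_of_one_lt₀ hK
  have hK0 : 0 < K := by linarith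
  have hKi0 : 0 < K⁻¹ := inv_pos.2 hK0
  obtain ⟨ε, p0, p1, p2, p3, p4⟩ : ∃ ε : ℝ, 0 < ε ∧ ε ≤ 1 ∧ ε * C ^ 2 ≤ 1 / 2 ∧ ε * C ^ 2 ≤ 1 - K⁻¹ ∧ ε * C ^ 2 ≤ E / 16 := by
    have hC2p : 0 < C ^ 2 := by positivity
    refine ⟨min (min (1 / 2) (1 - K⁻¹)) (E / 16) / C ^ 2, ?_, ?_, ?_, ?_, ?_⟩
    · apply div_pos _ hC2p
      exact lt_min (lt_min (by norm_num) (by linarith)) (by linarith)
    · rw [div_le_one hC2p]
      have : min (min (1 / 2) (1 - K⁻¹)) (E / 16) ≤ 1 / 2 := (min_le_left _ _).trans (min_le_left _ _)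
      nlinarith
    · rw [div_mul_cancel₀ _ hC2p.ne']
      exact (min_le_left _ _).trans (min_le_left _ _)
    · rw [div_mul_cancel₀ _ hC2p.ne']
      exact (min_le_left _ _).trans (min_le_right _ _)
    · rw [div_mul_cancel₀ _ hC2p.ne']
      exact min_le_right _ _
  -- products
  have pr : ∀ a b c d A B : ℝ, |a| ≤ C → |d| ≤ C → |a - c| ≤ C * A → |b - d| ≤ C * B → |a * b - c * d| ≤ C ^ 2 * (A + B) := by
    intro a b c d A B h1 h2 h3 h4
    have e : a * b - c * d = a * (b - d) + (a - c) * d := by ring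
    rw [e]
    have h5 : |a * (b - d)| ≤ C * (C * B) := by
      rw [abs_mul]
      exact mul_le_mul h1 h4 (abs_nonneg _) hC0.le
    have h6 : |(a - c) * d| ≤ (C * A) * C := by
      rw [abs_mul]
      exact mul_le_mul h3 h2 (abs_nonneg _) (le_trans (abs_nonneg _) h3)
    calc |a * (b - d) + (a - c) * d| ≤ |a * (b - d)| + |(a - c) * d| := abs_add_le _ _
      _ ≤ C * (C * B) + (C * A) * C := add_le_add h5 h6
      _ = C ^ 2 * (A + B) := by ring
  have up : ∀ (g : ℝ → ℝ) (C' : ℝ), C' ≤ C → (∀ x y, |g x - g y| ≤ C' * |x - y|) → ∀ x y, |g x - g y| ≤ C * |x - y| :=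
    fun g C' h1 h2 x y => (h2 x y).trans (mul_le_mul_of_nonneg_right h1 (abs_nonneg _))
  have hbd : ∀ x y, |D f η ε x y - 1| ≤ ε * C ^ 2 := by
    intro x y
    have e : D f η ε x y - 1 = ε / 2 * (deriv (deriv f) x * (y * η y) + ε * ((deriv (deriv f) x * f x) * η y)) := by
      unfold D
      ring
    rw [e, abs_mul, abs_of_pos (by linarith : (0 : ℝ) < ε / 2)]
    have h1 : |deriv (deriv f) x * (y * η y)| ≤ C * C := by
      rw [abs_mul]
      exact mul_le_mul ((b1 x).trans hC1) ((b2 y).trans hC2) (abs_nonneg _) hC0.le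
    have h2 : |ε * ((deriv (deriv f) x * f x) * η y)| ≤ 1 * (C * C) := by
      rw [abs_mul, abs_mul (deriv (deriv f) x * f x), abs_of_pos p0]
      exact mul_le_mul p1 (mul_le_mul ((b3 x).trans hC3) ((b4 y).trans hC4) (abs_nonneg _) hC0.le) (by positivity) zero_le_one
    have h3 := abs_add_le (deriv (deriv f) x * (y * η y)) (ε * ((deriv (deriv f) x * f x) * η y))
    calc ε / 2 * |deriv (deriv f) x * (y * η y) + ε * ((deriv (deriv f) x * f x) * η y)| ≤ ε / 2 * (C * C + 1 * (C * C)) :=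
          mul_le_mul_of_nonneg_left (by linarith) (by linarith)
      _ = ε * C ^ 2 := by ring
  refine ⟨f, η, ε, ⟨f1, e1, f3, f4, f5, f6, e3, p0, fun x => ?_⟩, fun x y => ?_, fun x y x' y' => ?_⟩
  · have h1 : ε ^ 2 ≤ ε := by nlinarith
    have h2 : |deriv (deriv f) x| ≤ C ^ 2 := by
      have := (b1 x).trans hC1
      nlinarith
    calc ε ^ 2 * |deriv (deriv f) x| ≤ ε * C ^ 2 := mul_le_mul h1 h2 (abs_nonneg _) p0.le
      _ ≤ 1 := by linarith
  · have h1 := abs_le.1 (hbd x y)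
    have h2 : 1 - K⁻¹ ≤ K - 1 := by
      have h3 : K * K⁻¹ = 1 := mul_inv_cancel₀ hK0.ne'
      nlinarith
    refine ⟨by linarith [h1.1], by linarith [h1.2], by linarith [h1.1]⟩
  · have e : D f η ε x y - D f η ε x' y' = ε / 2 * ((deriv (deriv f) x * (y * η y) - deriv (deriv f) x' * (y' * η y')) +
        ε * ((deriv (deriv f) x * f x) * η y - (deriv (deriv f) x' * f x') * η y')) := by
      unfold D
      ring
    rw [e, abs_mul, abs_of_pos (by linarith : (0 : ℝ) < ε / 2)]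
    have h1 : |deriv (deriv f) x * (y * η y) - deriv (deriv f) x' * (y' * η y')| ≤ C ^ 2 * (|x - x'| + |y - y'|) :=
      pr _ _ _ _ _ _ ((b1 x).trans hC1) ((b2 y').trans hC2) (up _ _ hC1 l1 x x') (up _ _ hC2 l2 y y')
    have h2 : |(deriv (deriv f) x * f x) * η y - (deriv (deriv f) x' * f x') * η y'| ≤ C ^ 2 * (|x - x'| + |y - y'|) :=
      pr _ _ _ _ _ _ ((b3 x).trans hC3) ((b4 y').trans hC4) (up _ _ hC3 l3 x x') (up _ _ hC4 l4 y y')
    have h3 : |ε * ((deriv (deriv f) x * f x) * η y - (deriv (deriv f) x' * f x') * η y')| ≤ 1 * (C ^ 2 * (|x - x'| + |y - y'|)) := by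
      rw [abs_mul, abs_of_pos p0]
      exact mul_le_mul p1 h2 (abs_nonneg _) zero_le_one
    have hA : 0 ≤ |x - x'| + |y - y'| := by positivity
    calc ε / 2 * |(deriv (deriv f) x * (y * η y) - deriv (deriv f) x' * (y' * η y')) +
        ε * ((deriv (deriv f) x * f x) * η y - (deriv (deriv f) x' * f x') * η y')|
        ≤ ε / 2 * (C ^ 2 * (|x - x'| + |y - y'|) + 1 * (C ^ 2 * (|x - x'| + |y - y'|))) := by
          apply mul_le_mul_of_nonneg_left _ (by linarith)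
          exact (abs_add_le _ _).trans (add_le_add h1 h3)
      _ = (ε * C ^ 2) * (|x - x'| + |y - y'|) := by ring
      _ ≤ E / 8 * (|x - x'| + |y - y'|) := mul_le_mul_of_nonneg_right (by linarith) hA

lemma coord_le (i : Fin n) (x y : EuclideanSpace ℝ (Fin n)) : |x i - y i| ≤ dist x y := by
  rw [dist_eq_norm]
  have h1 : ‖(x - y) i‖ ≤ ‖x - y‖ := PiLp.norm_apply_le (x - y) i
  simpa using h1

end Pool.Agent.helper31.EllipticSmooth
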